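import Pool.Agent.Run7.h547.SG.Exact2
import Pool.Agent.Run7.h187.ShTab

/-! Final assembly. -/

set_option autoImplicit false

namespace Run7.h547.SG

open TensorProduct Run7.h187.Sh ExteriorAlgebra

section

variable (k : Type*) [Field k] [CharZero k]

/-- the projection onto exterior degree `n` on `UU m` -/
theorem pr_NL (c : ℤ) (j : Fin 3) (w : EE k) :
    Pr (bI k) (fun S => (S.card : ℤ) = c) (th (NL k j) w) =
      th (NL k j) (Pr (bI k) (fun S => (S.card : ℤ) = c) w) := by
  refine (Pr_comm (bI k) (fun S => (S.card : ℤ)) (th (NL k j)) id Function.injective_id ?_ c w).symm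
  intro S S' hS'
  rw [th_NL, map_smul, Finsupp.smul_apply, Module.Basis.repr_self] at hS'
  by_contra hne
  apply hS'
  rw [Finsupp.single_eq_of_ne, smul_zero]
  rintro rfl
  exact hne rfl

theorem pr_slD (c : ℤ) (X : Sl k) (w : EE k) :
    Pr (bI k) (fun S => (S.card : ℤ) = c) (th (slD k (Alt k) X) w) =
      th (slD k (Alt k) X) (Pr (bI k) (fun S => (S.card : ℤ) = c) w) := by
  refine (Pr_comm (bI k) (fun S => (S.card : ℤ)) (th (slD k (Alt k) X)) id
    Function.injective_id ?_ c w).symm
  intro S S' hS'
  have h1 : ((bI k).ExteriorAlgebra S : EE k) ∈ (⋀[k]^(S.card) (LL k)) := by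
    rw [mem_pow_iff]
    intro S'' h
    rw [Module.Basis.repr_self] at h
    by_contra hne
    apply h
    rw [Finsupp.single_eq_of_ne]
    rintro rfl
    exact hne rfl
  have h2 := (mem_pow_iff k _ _).1 (th_mem (slD k (Alt k) X) _ _ h1) S' hS'
  change (S'.card : ℤ) = (S.card : ℤ)
  rw [h2]

theorem pr_bd (c : ℤ) (w : EE k) :
    bd k (LL k) (Pr (bI k) (fun S => (S.card : ℤ) = c) w) =
      Pr (bI k) (fun S => (S.card : ℤ) = c - 1) (bd k (LL k) w) := by
  refine Pr_comm (bI k) (fun S => (S.card : ℤ)) (bd k (LL k)) (fun c => c - 1)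
    (sub_left_injective) ?_ c w
  intro S S' hS'
  have h1 : ((bI k).ExteriorAlgebra S : EE k) ∈ (⋀[k]^(S.card) (LL k)) := by
    rw [mem_pow_iff]
    intro S'' h
    rw [Module.Basis.repr_self] at h
    by_contra hne
    apply h
    rw [Finsupp.single_eq_of_ne]
    rintro rfl
    exact hne rfl
  change (S'.card : ℤ) = (S.card : ℤ) - 1
  obtain h0 | ⟨l, hl⟩ : S.card = 0 ∨ ∃ l, S.card = l + 1 := by
    rcases S.card with _ | l
    · exact Or.inl rfl
    · exact Or.inr ⟨l, rfl⟩
  · exfalso
    rw [h0] at h1
    obtain ⟨r, hr⟩ := mem_power_zero h1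
    rw [hr, bd_algebraMap, map_zero, Finsupp.zero_apply] at hS'
    exact hS' rfl
  · rw [hl] at h1
    have h2 := (mem_pow_iff k _ _).1 (bd_mem l _ h1) S' hS'
    rw [h2, hl]
    push_cast
    ring

/-- the projection to exterior degree `n` on `UU m` -/
noncomputable def pU (m : Deg) (c : ℤ) : Module.End k (UU k m) :=
  (Pr (bI k) (fun S => (S.card : ℤ) = c)).restrict (UU_pres k (pr_NL k c))

theorem pU_val (m : Deg) (c : ℤ) (x : UU k m) :
    ((pU k m c x : UU k m) : EE k) = Pr (bI k) (fun S => (S.card : ℤ) = c) x.1 := rfl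

theorem sum_pU (m : Deg) (x : UU k m) : ∑ n ∈ Finset.range (tot m + 1), pU k m (n : ℤ) x = x := by
  have e : ∑ n ∈ Finset.range (tot m + 1), pU k m (n : ℤ) = LinearMap.id := by
    apply (bU k m).ext
    intro S
    rw [LinearMap.sum_apply, LinearMap.id_apply]
    have hc := card_le k S.2
    rw [Finset.sum_eq_single S.1.card]
    · apply Subtype.ext
      rw [pU_val, bU_apply]
      exact Pr_bE_pos (bI k) rfl
    · intro n _ hn
      apply Subtype.ext
      rw [pU_val, bU_apply]
      refine Pr_bE_neg (bI k) ?_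
      intro h
      exact hn (by exact_mod_cast h.symm)
    · intro h
      exact absurd (Finset.mem_range.2 (by omega)) h
  have := LinearMap.congr_fun e x
  rw [LinearMap.sum_apply] at this
  exact this

theorem pr_dX (m : Deg) (w : EE k) :
    bd k (LL k) (Pr (bI k) (fun S => dX k S = m) w) =
      Pr (bI k) (fun S => dX k S = m) (bd k (LL k) w) := by
  refine Pr_comm (bI k) (fun S => dX k S) (bd k (LL k)) id Function.injective_id ?_ m w
  intro S
  refine deg_pres k (bd_NL k) ?_
  intro S' h
  rw [Module.Basis.repr_self] at h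
  by_contra hne
  apply h
  rw [Finsupp.single_eq_of_ne]
  rintro rfl
  exact hne rfl

theorem mult_zero (m : Deg) (hm : 2 ≤ tot m)
    (hH : ∀ n, 2 ≤ n → n ≤ tot m → ¬ (HasTrivial k n ∨ HasAdjoint k n))
    (w : ℤ × ℤ) (hw : w = (0, 0) ∨ w = (1, 1)) :
    mult w (lamCoeff (fun p => (charAlt k p : ℤ)) (fun p => (charB k p : ℤ)) m) = 0 := by
  have hε : ∀ X, Commute (sU k m) (rU k m X) := by
    intro X
    change sU k m * rU k m X = rU k m X * sU k m
    refine LinearMap.ext fun x => Subtype.ext ?_
    exact sg_th _ _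
  obtain ⟨π, hπ1, hπ2, hπ3, hπ4⟩ := STR.p_STR k (UU k m) (rU k m) (rU_rep k m) (JX k m) (bU k m)
    (fun S => wX k S.1) (fun S => S.1.card) (sU k m)
    (fun S => by
      apply Subtype.ext
      rw [rU_val, bU_apply, th_cw1]
      change _ = ((wX k S.1).1 : k) • (bU k m S).1
      rw [bU_apply])
    (fun S => by
      apply Subtype.ext
      rw [rU_val, bU_apply, th_cw2]
      change _ = ((wX k S.1).2 : k) • (bU k m S).1
      rw [bU_apply])
    (fun S => by
      apply Subtype.ext
      rw [sU_val, bU_apply, sg_bE]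
      change _ = ((-1 : k) ^ S.1.card) • (bU k m S).1
      rw [bU_apply])
    hε w (by rcases hw with rfl | rfl <;> decide) (by rcases hw with rfl | rfl <;> decide)
  have hd : ∀ X, Commute (dU k m) (rU k m X) := by
    intro X
    change dU k m * rU k m X = rU k m X * dU k m
    refine LinearMap.ext fun x => Subtype.ext ?_
    exact (th_bd (slD k (Alt k) X) (slD_deriv X) x.1).symm
  have hp : ∀ c X, Commute (pU k m c) (rU k m X) := by
    intro c X
    change pU k m c * rU k m X = rU k m X * pU k m c
    refine LinearMap.ext fun x => Subtype.ext ?_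
    exact pr_slD k c X x.1
  have htr := EUL.p_EUL k (UU k m) π (sU k m) (dU k m) hπ1
    (LinearMap.ext fun x => Subtype.ext (sg_sg x.1)) (hπ2 _ hε) (hπ2 _ hd)
    (LinearMap.ext fun x => Subtype.ext (sg_bd x.1))
    (LinearMap.ext fun x => Subtype.ext (bd_bd x.1)) (by
      intro x hx hdx
      have hdx' : bd k (LL k) x.1 = 0 := congrArg Subtype.val hdx
      have hy : ∀ n : ℕ, ∃ y : EE k, bd k (LL k) y = (pU k m (n : ℤ) x).1 := by
        intro n
        have hπn : π (pU k m (n : ℤ) x) = pU k m (n : ℤ) x := by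
          have := LinearMap.congr_fun (hπ2 _ (hp (n : ℤ))).eq x
          rw [Module.End.mul_apply, Module.End.mul_apply, hx] at this
          exact this.symm
        obtain ⟨a1, a2, a3, a4⟩ := hπ3 _ hπn
        refine exact_deg k m hm hH w hw n (pU k m (n : ℤ) x) ?_ a1 a2 a3 a4 ?_
        · rw [pU_val, mem_pow_iff]
          intro S hS
          have := Sup_Pr (bI k) (fun S => (S.card : ℤ) = (n : ℤ)) x.1 S hS
          exact_mod_cast this
        · rw [pU_val, pr_bd, hdx', map_zero]
      choose y hy using hy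
      have hsum : bd k (LL k) (∑ n ∈ Finset.range (tot m + 1), y n) = x.1 := by
        rw [map_sum]
        conv_rhs => rw [← sum_pU k m x]
        rw [AddSubmonoidClass.coe_finsetSum]
        exact Finset.sum_congr rfl fun n _ => hy n
      refine ⟨⟨Pr (bI k) (fun S => dX k S = m) (∑ n ∈ Finset.range (tot m + 1), y n),
        (mem_UU k).2 (Sup_Pr (bI k) _ _)⟩, Subtype.ext ?_⟩
      rw [dU_val, pr_dX, hsum]
      exact Pr_of_Sup (bI k) ((mem_UU k).1 x.2))
  rw [htr] at hπ4
  have h0 := Int.cast_eq_zero.1 hπ4.symm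
  rw [mult_eq]
  simp only [coeff_lam]
  exact h0

theorem satAt_all (m : Deg)
    (hH : ∀ n, 2 ≤ n → n ≤ tot m → ¬ (HasTrivial k n ∨ HasAdjoint k n)) :
    SatAt (fun p => (charAlt k p : ℤ)) (fun p => (charB k p : ℤ)) m := by
  by_cases h0 : m = 0
  · rw [h0]; exact satAt_zero _ _
  by_cases h1 : 2 ≤ tot m
  · refine ⟨?_, ?_⟩
    · rw [if_neg h0]
      exact mult_zero k m h1 hH (0, 0) (Or.inl rfl)
    · rw [if_neg]
      · exact mult_zero k m h1 hH (1, 1) (Or.inr rfl)
      · rintro (h | h | h) <;> (rw [h, tot] at h1; simp at h1)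
  · have hne : ∃ j, m = Finsupp.single j 1 := by
      rw [tot] at h1
      have hpos : m 0 + m 1 + m 2 ≠ 0 := by
        intro h
        apply h0
        ext j
        fin_cases j
        · change m 0 = 0; omega
        · change m 1 = 0; omega
        · change m 2 = 0; omega
      rcases (by omega : (m 0 = 1 ∧ m 1 = 0 ∧ m 2 = 0) ∨ (m 0 = 0 ∧ m 1 = 1 ∧ m 2 = 0) ∨
        (m 0 = 0 ∧ m 1 = 0 ∧ m 2 = 1)) with h | h | h
      · refine ⟨0, ?_⟩
        ext j
        fin_cases j
        · change m 0 = _; rw [h.1]; simp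
        · change m 1 = _; rw [h.2.1]; simp
        · change m 2 = _; rw [h.2.2]; simp
      · refine ⟨1, ?_⟩
        ext j
        fin_cases j
        · change m 0 = _; rw [h.1]; simp
        · change m 1 = _; rw [h.2.1]; simp
        · change m 2 = _; rw [h.2.2]; simp
      · refine ⟨2, ?_⟩
        ext j
        fin_cases j
        · change m 0 = _; rw [h.1]; simp
        · change m 1 = _; rw [h.2.1]; simp
        · change m 2 = _; rw [h.2.2]; simp
    obtain ⟨j, hj⟩ := hne
    rw [satAt_iff h0]
    have hlow : lower (fun p => (charAlt k p : ℤ)) (fun p => (charB k p : ℤ)) m = 0 := by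
      rw [lower]
      have : ((Finset.Iic m).erase 0).erase m = ∅ := by
        rw [Finset.eq_empty_iff_forall_notMem]
        intro p hp
        rw [Finset.mem_erase, Finset.mem_erase, Finset.mem_Iic] at hp
        obtain ⟨hp1, hp2, hp3⟩ := hp
        have hle : tot p ≤ tot m := by
          rw [tot, tot]
          have a := hp3 0
          have b := hp3 1
          have c := hp3 2
          omega
        have hp0 : tot p ≠ 0 := by
          intro h
          rw [tot] at h
          apply hp2
          ext j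
          fin_cases j
          · change p 0 = 0; omega
          · change p 1 = 0; omega
          · change p 2 = 0; omega
        apply hp1
        rw [tot] at h1 hle hp0
        rw [tot] at hle
        have a := hp3 0
        have b := hp3 1
        have c := hp3 2
        ext j
        fin_cases j
        · change p 0 = m 0; omega
        · change p 1 = m 1; omega
        · change p 2 = m 2; omega
      rw [this, Finset.prod_empty, MvPowerSeries.coeff_one, if_neg h0]
    rw [hlow]
    have e0 : ∀ w, mult w 0 = 0 := by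
      intro w
      have := mult_zsmul w 0 0
      rw [zero_smul, zero_mul] at this
      exact this
    rw [e0, e0]
    refine ⟨?_, ?_⟩
    · change ((charB k m : ℕ) : ℤ) = 0
      rw [hj, charB_single]
      rfl
    · change ((charAlt k m : ℕ) : ℤ) = 0 - dl m
      rw [dl, if_pos, hj]
      · rw [charAlt, altPiece_single]
        rfl
      · rw [hj]
        fin_cases j
        · exact Or.inl rfl
        · exact Or.inr (Or.inl rfl)
        · exact Or.inr (Or.inr rfl)

/-- the homology of `ABG(Alt(k³))` has a trivial or an adjoint component in some degree between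
two and seven -/
theorem main : ∃ n, 2 ≤ n ∧ n ≤ 7 ∧ (HasTrivial k n ∨ HasAdjoint k n) := by
  by_contra hcon
  push Not at hcon
  have hH : ∀ m : Deg, m ≤ deg 3 3 1 → ∀ n, 2 ≤ n → n ≤ tot m →
      ¬ (HasTrivial k n ∨ HasAdjoint k n) := by
    intro m hm n h2 hn
    have h7 : tot m ≤ 7 := by
      rw [le_deg_iff] at hm
      rw [tot]
      omega
    have := hcon n h2 (hn.trans h7)
    tauto
  have key := uniq (a := fun p => (charAlt k p : ℤ)) (b := fun p => (charB k p : ℤ))
    (a' := tA) (b' := tB) (by rw [tA_zero]; change ((charAlt k 0 : ℕ) : ℤ) = 0; rw [charAlt_zero]; rfl)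
    (by rw [tB_zero]; change ((charB k 0 : ℕ) : ℤ) = 0; rw [charB_zero]; rfl) (deg 3 3 1)
    (fun p hp => satAt_all k p (hH p hp)) (fun p hp => satAt_tab hp)
  have h1 : ((charAlt k (deg 3 3 1) : ℕ) : ℤ) = 152 := key.1.trans tA_val
  have h2 := charAlt_ge k
  have h3 : (153 : ℤ) ≤ ((charAlt k (deg 3 3 1) : ℕ) : ℤ) := by exact_mod_cast h2
  omega

end

end Run7.h547.SG
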