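import Pool.Agent.Run7.h547.SG.Brg2
import Pool.Agent.Run7.h547.SG.Fin

/-! The main theorem in the form of `Spec`. -/

set_option autoImplicit false

namespace Run7.h547.SG

open Run7.h187.Sh TensorProduct Matrix

universe u

section

variable (k : Type u) [Field k] [CharZero k]

theorem isExt_th (δ : Module.End k (LL k)) : SH.IsExt k (fun x => δ x) (fun v => th δ v) :=
  ⟨⟨map_add δ, map_smul δ⟩, ⟨map_add (th δ), map_smul (th δ)⟩,
    by
      have := th_algebraMap δ (1 : k)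
      rw [map_one] at this
      exact this,
    fun x v => th_ι_mul δ x v⟩

theorem isBd_bd : SH.IsBd k (fun u v : LL k => ⁅u, v⁆) (fun v => bd k (LL k) v) :=
  ⟨⟨map_add _, map_smul _⟩, by
      have := bd_algebraMap (R := k) (L := LL k) (1 : k)
      rw [map_one] at this
      exact this,
    fun x => ⟨fun v => th (adm x) v, isExt_th k (adm x), fun v => bd_ι_mul x v⟩⟩

/-- the action of `sl₃` on `Λ L` -/
noncomputable def rh (X : Matrix (Fin 3) (Fin 3) k) (v : ExteriorAlgebra k (LL k)) :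
    ExteriorAlgebra k (LL k) :=
  th (slD k (Alt k) (toSl k X)) v

theorem isAction_rh : SH.IsAction k (tt (k := k)) (ww (k := k)) (rh k) := by
  intro X hX
  refine ⟨fun x => slD k (Alt k) (toSl k X) x, isExt_th k _, ?_, ?_⟩
  · intro Y p
    apply ABG_ext
    · rw [slD_fst]
      change LinearMap.rTensor (Alt k) (lieS k (toSl k X)) (toSl k Y ⊗ₜ p) =
        toSl k (SH.co k X Y) ⊗ₜ p
      rw [LinearMap.rTensor_tmul]
      congr 1
      apply Subtype.ext
      rw [lieS_val, toSl_of_trace k X hX, toSl_val, SH.co, toSl_of_trace]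
      · rw [mul_sub, sub_mul, mul_smul_comm, smul_mul_assoc, mul_one, one_mul]
        abel
      · rw [trace_sub, trace_mul_comm, sub_self]
    · rfl
  · intro p q
    apply ABG_ext
    · rw [slD_fst]
      change LinearMap.rTensor (Alt k) (lieS k (toSl k X)) 0 = 0
      rw [map_zero]
    · rfl

theorem isBdry_iff (n : ℕ) (z : ExteriorAlgebra k (LL k)) :
    SH.IsBdry k (fun v => bd k (LL k) v) n z ↔ z ∈ bnd k (LL k) n := Iff.rfl

theorem mk_eq_zero_iff (n : ℕ) (z : cyc k (LL k) n) :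
    (Submodule.Quotient.mk z : Hn k (LL k) n) = 0 ↔ z.1 ∈ bnd k (LL k) n := by
  rw [Submodule.Quotient.mk_eq_zero]
  rfl

theorem hasTriv_of (n : ℕ) (h : HasTrivial k n) :
    SH.HasTriv k (fun v => bd k (LL k) v) (rh k) n := by
  obtain ⟨v, hv, h⟩ := h
  obtain ⟨z, rfl⟩ := Submodule.Quotient.mk_surjective _ v
  refine ⟨z.1, ⟨z.2.1, z.2.2⟩, ?_, ?_⟩
  · intro hb
    exact hv ((mk_eq_zero_iff k n z).2 hb)
  · intro X _
    have h1 := h (toSl k X)
    rw [act, hMap_mk] at h1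
    exact (mk_eq_zero_iff k n _).1 h1

theorem hasAdj_of (n : ℕ) (h : HasAdjoint k n) :
    SH.HasAdj k (fun v => bd k (LL k) v) (rh k) n := by
  obtain ⟨φ, hφ, h⟩ := h
  obtain ⟨ψ, hψ⟩ := Module.projective_lifting_property
    ((bnd k (LL k) n).submoduleOf (cyc k (LL k) n)).mkQ φ (Submodule.mkQ_surjective _)
  have hψ' : ∀ Y, (Submodule.Quotient.mk (ψ Y) : Hn k (LL k) n) = φ Y := fun Y =>
    LinearMap.congr_fun hψ Y
  refine ⟨fun Y => (ψ (toSl k Y)).1, ?_, ?_, ?_, ?_⟩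
  · exact ⟨fun X Y => by rw [map_add, map_add]; rfl, fun c X => by rw [map_smul, map_smul]; rfl⟩
  · intro Y
    exact ⟨(ψ (toSl k Y)).2.1, (ψ (toSl k Y)).2.2⟩
  · intro X Y hX hY
    have e1 : toSl k (SH.co k X Y) = ⁅toSl k X, toSl k Y⁆ := by
      apply Subtype.ext
      rw [Sl_lie, toSl_of_trace k X hX, toSl_of_trace k Y hY, SH.co, toSl_of_trace]
      rw [trace_sub, trace_mul_comm, sub_self]
    have h1 := h (toSl k X) (toSl k Y)
    rw [← e1, ← hψ', ← hψ', act, hMap_mk, ← sub_eq_zero, ← Submodule.Quotient.mk_sub] at h1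
    exact (mk_eq_zero_iff k n _).1 h1
  · intro Y hY hb
    have h1 : (Submodule.Quotient.mk (ψ (toSl k Y)) : Hn k (LL k) n) = 0 :=
      (mk_eq_zero_iff k n _).2 hb
    rw [hψ'] at h1
    have h2 : toSl k Y = 0 := hφ (h1.trans (map_zero φ).symm)
    have h3 := congrArg Subtype.val h2
    rw [toSl_of_trace k Y hY] at h3
    exact h3

theorem spec : ∃ (A : Type u) (_ : AddCommGroup A) (_ : Module k A) (m : A → A → A)
      (x : Fin 3 → A) (L : Type u) (_ : AddCommGroup L) (_ : Module k L)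
      (t : Matrix (Fin 3) (Fin 3) k → A → L) (w : A → A → L) (br : L → L → L)
      (d : ExteriorAlgebra k L → ExteriorAlgebra k L)
      (ρ : Matrix (Fin 3) (Fin 3) k → ExteriorAlgebra k L → ExteriorAlgebra k L),
      SH.IsFreeAlt k m x ∧ SH.IsABG k m t w br ∧ SH.IsBd k br d ∧ SH.IsAction k t w ρ ∧
      ∃ n, 2 ≤ n ∧ n ≤ 7 ∧ (SH.HasTriv k d ρ n ∨ SH.HasAdj k d ρ n) := by
  refine ⟨Alt k, _, _, _, gen k, LL k, _, _, _, _, _, _, _, isFreeAlt_alt k, isABG_alt k,
    isBd_bd k, isAction_rh k, ?_⟩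
  obtain ⟨n, h1, h2, h3⟩ := main k
  exact ⟨n, h1, h2, h3.imp (hasTriv_of k n) (hasAdj_of k n)⟩

end

end Run7.h547.SG
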