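import Mathlib

/-!
Free alternative algebras, Allison–Benkart–Gao Lie algebras and the homology of Lie algebras,
described by generators and universal properties.
-/

set_option autoImplicit false

namespace Run7.h547.SH

open Matrix

universe u

section

variable (k : Type u) [Field k]

/-- `f` is a `k`-bilinear map. -/
def Bil {U V W : Type u} [AddCommGroup U] [Module k U] [AddCommGroup V] [Module k V]
    [AddCommGroup W] [Module k W] (f : U → V → W) : Prop :=
  (∀ v, IsLinearMap k (fun a => f a v)) ∧ ∀ a, IsLinearMap k (f a)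

/-- `m` is the multiplication of an alternative algebra on the vector space `A`: it is bilinear,
`(pp)q = p(pq)` and `(qp)p = q(pp)`. -/
structure IsAlt {A : Type u} [AddCommGroup A] [Module k A] (m : A → A → A) : Prop where
  bil : Bil k m
  left_alt : ∀ p q, m (m p p) q = m p (m p q)
  right_alt : ∀ p q, m (m q p) p = m q (m p p)

/-- `A`, with the multiplication `m`, is the free (non-unital) alternative algebra on the three
generators `x 0, x 1, x 2`, that is, `A = Alt(V)` for `V = k³`. -/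
structure IsFreeAlt {A : Type u} [AddCommGroup A] [Module k A] (m : A → A → A)
    (x : Fin 3 → A) : Prop where
  alt : IsAlt k m
  free : ∀ (B : Type u) [AddCommGroup B] [Module k B] (n : B → B → B) (y : Fin 3 → B),
    IsAlt k n → ∃! f : A → B, IsLinearMap k f ∧ (∀ p q, f (m p q) = n (f p) (f q)) ∧
      ∀ i, f (x i) = y i

/-- `D_{p,q}(r)`, for `D_{p,q} = [L_p,L_q] + [R_p,R_q] + [L_p,R_q]`. -/
def D {A : Type u} [AddCommGroup A] (m : A → A → A) (p q r : A) : A :=
  (m p (m q r) - m q (m p r)) + (m (m r q) p - m (m r p) q) + (m p (m r q) - m (m p r) q)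

/-- `t` is a bilinear map on `sl₃ × A`, given as a bilinear map on `M₃(k) × A` which vanishes on
`1 × A`, and `w` is an alternating bilinear map on `A × A` with
`w(pq, r) + w(qr, p) + w(rp, q) = 0`.  Such pairs `(t, w)` are the same as linear maps on
`sl₃ ⊗ A ⊕ B(A)`, where `B(A) = Λ²A / span {pq ∧ r + qr ∧ p + rp ∧ q}`. -/
structure IsPair {A V : Type u} [AddCommGroup A] [Module k A] [AddCommGroup V] [Module k V]
    (m : A → A → A) (t : Matrix (Fin 3) (Fin 3) k → A → V) (w : A → A → V) : Prop where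
  t_bil : Bil k t
  t_one : ∀ p, t 1 p = 0
  w_bil : Bil k w
  w_self : ∀ p, w p p = 0
  w_cyc : ∀ p q r, w (m p q) r + w (m q r) p + w (m r p) q = 0

/-- `XY - YX` -/
def co (X Y : Matrix (Fin 3) (Fin 3) k) : Matrix (Fin 3) (Fin 3) k := X * Y - Y * X

/-- `½(XY + YX) - ⅓ tr(XY) 1` -/
def sy (X Y : Matrix (Fin 3) (Fin 3) k) : Matrix (Fin 3) (Fin 3) k :=
  (1 / 2 : k) • (X * Y + Y * X) - (1 / 3 * trace (X * Y) : k) • 1

/-- `L`, with the bracket `br`, is the Allison–Benkart–Gao Lie algebra of the alternative algebra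
`(A, m)`: as a vector space `L = sl₃ ⊗ A ⊕ B(A)`, where `t X p` is `X ⊗ p` for `X ∈ sl₃` and
`w p q` is `p ∧ q` (this is the universal property `univ` of the pair `(t, w)`), and `br` is the
alternating bilinear map given on generators by the formulas `br_tt`, `br_wt` and `br_ww`. -/
structure IsABG {A L : Type u} [AddCommGroup A] [Module k A] [AddCommGroup L] [Module k L]
    (m : A → A → A) (t : Matrix (Fin 3) (Fin 3) k → A → L) (w : A → A → L)
    (br : L → L → L) : Prop where
  pair : IsPair k m t w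
  univ : ∀ (V : Type u) [AddCommGroup V] [Module k V] (t' : Matrix (Fin 3) (Fin 3) k → A → V)
    (w' : A → A → V), IsPair k m t' w' →
      ∃! f : L → V, IsLinearMap k f ∧ (∀ X p, f (t X p) = t' X p) ∧ ∀ p q, f (w p q) = w' p q
  br_bil : Bil k br
  br_self : ∀ x, br x x = 0
  br_tt : ∀ X Y p q, trace X = 0 → trace Y = 0 →
    br (t X p) (t Y q) = t (co k X Y) ((1 / 2 : k) • (m p q + m q p))
      + t (sy k X Y) (m p q - m q p) + (1 / 3 * trace (X * Y) : k) • w p q
  br_wt : ∀ X p q r, br (w p q) (t X r) = t X (D m p q r)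
  br_ww : ∀ p q r s, br (w p q) (w r s) = w (D m p q r) s + w r (D m p q s)

variable {L : Type u} [AddCommGroup L] [Module k L]

/-- `θ` is the derivation of the exterior algebra `Λ L` which extends the linear map `δ` of `L`. -/
def IsExt (δ : L → L) (θ : ExteriorAlgebra k L → ExteriorAlgebra k L) : Prop :=
  IsLinearMap k δ ∧ IsLinearMap k θ ∧ θ 1 = 0 ∧
    ∀ x v, θ (ExteriorAlgebra.ι k x * v) =
      ExteriorAlgebra.ι k (δ x) * v + ExteriorAlgebra.ι k x * θ v

/-- `d` is the Chevalley–Eilenberg boundary of `Λ L`, for the bracket `br` of `L`: it is linear,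
`d(1) = 0` and `d(x ∧ v) = θ_x(v) - x ∧ d(v)`, where `θ_x` is the derivation of `Λ L` which
extends `br x`. -/
def IsBd (br : L → L → L) (d : ExteriorAlgebra k L → ExteriorAlgebra k L) : Prop :=
  IsLinearMap k d ∧ d 1 = 0 ∧ ∀ x, ∃ θ, IsExt k (br x) θ ∧
    ∀ v, d (ExteriorAlgebra.ι k x * v) = θ v - ExteriorAlgebra.ι k x * d v

/-- For each `X ∈ sl₃`, `ρ X` is the derivation of `Λ L` which extends the action of `X` on
`L = sl₃ ⊗ A ⊕ B(A)`: the adjoint action on the factor `sl₃` and zero on `B(A)`. -/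
def IsAction {A : Type u} (t : Matrix (Fin 3) (Fin 3) k → A → L) (w : A → A → L)
    (ρ : Matrix (Fin 3) (Fin 3) k → ExteriorAlgebra k L → ExteriorAlgebra k L) : Prop :=
  ∀ X, trace X = 0 → ∃ δ : L → L, IsExt k δ (ρ X) ∧ (∀ Y p, δ (t Y p) = t (co k X Y) p) ∧
    ∀ p q, δ (w p q) = 0

/-- `z` is a boundary of degree `n`. -/
def IsBdry (d : ExteriorAlgebra k L → ExteriorAlgebra k L) (n : ℕ)
    (z : ExteriorAlgebra k L) : Prop :=
  ∃ y ∈ ⋀[k]^(n + 1) L, d y = z

/-- `z` is a cycle of degree `n`. -/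
def IsCyc (d : ExteriorAlgebra k L → ExteriorAlgebra k L) (n : ℕ)
    (z : ExteriorAlgebra k L) : Prop :=
  z ∈ ⋀[k]^n L ∧ d z = 0

/-- `H_n(L, k)` contains a trivial component: there is an `n`-cycle `z` which is not a boundary
and whose class is killed by all `X ∈ sl₃`. -/
def HasTriv (d : ExteriorAlgebra k L → ExteriorAlgebra k L)
    (ρ : Matrix (Fin 3) (Fin 3) k → ExteriorAlgebra k L → ExteriorAlgebra k L) (n : ℕ) : Prop :=
  ∃ z, IsCyc k d n z ∧ ¬ IsBdry k d n z ∧ ∀ X, trace X = 0 → IsBdry k d n (ρ X z)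

/-- `H_n(L, k)` contains an adjoint component: there is a linear map `φ` from `sl₃` (written as a
linear map on all matrices) to the `n`-cycles which induces an injective `sl₃`-linear map from
`sl₃` to `H_n(L, k)`. -/
def HasAdj (d : ExteriorAlgebra k L → ExteriorAlgebra k L)
    (ρ : Matrix (Fin 3) (Fin 3) k → ExteriorAlgebra k L → ExteriorAlgebra k L) (n : ℕ) : Prop :=
  ∃ φ : Matrix (Fin 3) (Fin 3) k → ExteriorAlgebra k L, IsLinearMap k φ ∧
    (∀ Y, IsCyc k d n (φ Y)) ∧
    (∀ X Y, trace X = 0 → trace Y = 0 → IsBdry k d n (φ (co k X Y) - ρ X (φ Y))) ∧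
    ∀ Y, trace Y = 0 → IsBdry k d n (φ Y) → Y = 0

end

end Run7.h547.SH
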