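import Pool.Agent.Run7.h547.SG.ALT

/-!
The Allison–Benkart–Gao Lie algebra `ABG(A) = sl₃ ⊗ A ⊕ B(A)` of an alternative algebra `A`.
-/

set_option autoImplicit false

namespace Run7.h547.SG

open TensorProduct

/-- `A` is an alternative algebra: `(pp)q = p(pq)` and `(qp)p = q(pp)`. -/
class IsAlternative (A : Type*) [NonUnitalNonAssocRing A] : Prop where
  left_alt : ∀ p q : A, (p * p) * q = p * (p * q)
  right_alt : ∀ p q : A, (q * p) * p = q * (p * p)

section

variable (k : Type*) [Field k] (A : Type*) [NonUnitalNonAssocRing A] [Module k A]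

/-- The relations defining `B(A)`: `p ⊗ p` (so that `A ⊗ A` becomes `Λ²A`) and
`pq ⊗ r + qr ⊗ p + rp ⊗ q`. -/
noncomputable def relB : Submodule k (A ⊗[k] A) :=
  Submodule.span k ({x | ∃ p : A, x = p ⊗ₜ p} ∪
    {x | ∃ p q r : A, x = (p * q) ⊗ₜ r + (q * r) ⊗ₜ p + (r * p) ⊗ₜ q})

/-- `B(A) = Λ²(A) / span {pq ∧ r + qr ∧ p + rp ∧ q}` -/
abbrev BB := (A ⊗[k] A) ⧸ relB k A

/-- `p ∧ q`, as an element of `B(A)`, bilinear in `p` and `q` -/
noncomputable def wd : A →ₗ[k] A →ₗ[k] BB k A := (TensorProduct.mk k A A).compr₂ (relB k A).mkQ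

variable {k A}

theorem wd_self (p : A) : wd k A p p = 0 := by
  change (relB k A).mkQ (p ⊗ₜ p) = 0
  rw [Submodule.mkQ_apply, Submodule.Quotient.mk_eq_zero]
  exact Submodule.subset_span (Or.inl ⟨p, rfl⟩)

theorem wd_cyc (p q r : A) : wd k A (p * q) r + wd k A (q * r) p + wd k A (r * p) q = 0 := by
  change (relB k A).mkQ ((p * q) ⊗ₜ r) + (relB k A).mkQ ((q * r) ⊗ₜ p)
    + (relB k A).mkQ ((r * p) ⊗ₜ q) = 0
  rw [← map_add, ← map_add, Submodule.mkQ_apply, Submodule.Quotient.mk_eq_zero]
  exact Submodule.subset_span (Or.inr ⟨p, q, r, rfl⟩)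

theorem wd_skew (p q : A) : wd k A p q = - wd k A q p := by
  have h := wd_self (k := k) (p + q)
  simp only [map_add, LinearMap.add_apply, wd_self, zero_add, add_zero] at h
  exact eq_neg_of_add_eq_zero_right h

/-- every element of `B(A)` is a sum of elements `p ∧ q` -/
theorem BB_induction {P : BB k A → Prop} (h0 : P 0) (h1 : ∀ p q, P (wd k A p q))
    (h2 : ∀ x y, P x → P y → P (x + y)) (x : BB k A) : P x := by
  induction x using Submodule.Quotient.induction_on with
  | H x =>
  induction x using TensorProduct.induction_on with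
  | zero => exact h0
  | tmul p q => exact h1 p q
  | add x y hx hy => exact h2 _ _ hx hy

/-- linear maps on `B(A)` agree if they agree on all `p ∧ q` -/
theorem BB_ext {M : Type*} [AddCommGroup M] [Module k M] {f g : BB k A →ₗ[k] M}
    (h : ∀ p q, f (wd k A p q) = g (wd k A p q)) : f = g := by
  refine LinearMap.ext fun x => ?_
  refine BB_induction (P := fun x => f x = g x) (by simp) h (fun x y hx hy => ?_) x
  rw [map_add, map_add, hx, hy]

end

section

variable (k : Type*) [Field k] (A : Type*) [NonUnitalNonAssocRing A] [Module k A]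
  [IsScalarTower k A A] [SMulCommClass k A A]

/-- `(p, q) ↦ D_{p,q} = [L_p,L_q]+[R_p,R_q]+[L_p,R_q]`, see `dd`. -/
noncomputable def dLin : A →ₗ[k] A →ₗ[k] (A →ₗ[k] A) :=
  LinearMap.mk₂ k (fun p q =>
    { toFun := fun r => dd p q r
      map_add' := fun r s => by simp only [dd, mul_add, add_mul]; abel
      map_smul' := fun c r => by
        simp only [dd, mul_smul_comm, smul_mul_assoc, RingHom.id_apply, smul_add, smul_sub] })
    (fun p p' q => by
      refine LinearMap.ext fun r => ?_
      simp only [dd, LinearMap.coe_mk, AddHom.coe_mk, LinearMap.add_apply, mul_add, add_mul]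
      abel)
    (fun c p q => by
      refine LinearMap.ext fun r => ?_
      simp only [dd, LinearMap.coe_mk, AddHom.coe_mk, LinearMap.smul_apply, mul_smul_comm,
        smul_mul_assoc, smul_add, smul_sub])
    (fun p q q' => by
      refine LinearMap.ext fun r => ?_
      simp only [dd, LinearMap.coe_mk, AddHom.coe_mk, LinearMap.add_apply, mul_add, add_mul]
      abel)
    (fun c p q => by
      refine LinearMap.ext fun r => ?_
      simp only [dd, LinearMap.coe_mk, AddHom.coe_mk, LinearMap.smul_apply, mul_smul_comm,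
        smul_mul_assoc, smul_add, smul_sub])

theorem dLin_apply (p q r : A) : dLin k A p q r = dd p q r := rfl

variable [IsAlternative A]

theorem dd_deriv {A : Type*} [NonUnitalNonAssocRing A] [IsAlternative A] (p q r s : A) :
    dd p q (r * s) = dd p q r * s + r * dd p q s :=
  (ALT.p_ALT.{_, 0} A IsAlternative.left_alt IsAlternative.right_alt).1 p q r s

theorem dd_cyc {A : Type*} [NonUnitalNonAssocRing A] [IsAlternative A] (p q r s : A) :
    dd (p * q) r s + dd (q * r) p s + dd (r * p) q s = 0 :=
  (ALT.p_ALT.{_, 0} A IsAlternative.left_alt IsAlternative.right_alt).2.1 p q r s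

theorem dd_diag {A : Type*} [NonUnitalNonAssocRing A] [IsAlternative A] (p q : A) :
    dd p p q = 0 :=
  (ALT.p_ALT.{_, 0} A IsAlternative.left_alt IsAlternative.right_alt).2.2.1 p q

/-- `b ↦ D_b`, the linear map `B(A) → End(A)` with `D_{p ∧ q} = D_{p,q}`. -/
noncomputable def dB : BB k A →ₗ[k] (A →ₗ[k] A) :=
  (relB k A).liftQ (TensorProduct.lift (dLin k A)) (by
    rw [relB, Submodule.span_le]
    rintro x (⟨p, rfl⟩ | ⟨p, q, r, rfl⟩)
    · rw [SetLike.mem_coe, LinearMap.mem_ker, TensorProduct.lift.tmul]
      refine LinearMap.ext fun s => ?_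
      rw [dLin_apply, dd_diag, LinearMap.zero_apply]
    · rw [SetLike.mem_coe, LinearMap.mem_ker, map_add, map_add, TensorProduct.lift.tmul,
        TensorProduct.lift.tmul, TensorProduct.lift.tmul]
      refine LinearMap.ext fun s => ?_
      rw [LinearMap.add_apply, LinearMap.add_apply, dLin_apply, dLin_apply, dLin_apply, dd_cyc,
        LinearMap.zero_apply])

variable {k A}

theorem dB_wd (p q r : A) : dB k A (wd k A p q) r = dd p q r := rfl

theorem dB_deriv (b : BB k A) (r s : A) :
    dB k A b (r * s) = dB k A b r * s + r * dB k A b s := by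
  refine BB_induction (P := fun b => dB k A b (r * s) = dB k A b r * s + r * dB k A b s)
    ?_ ?_ ?_ b
  · simp
  · intro p q
    rw [dB_wd, dB_wd, dB_wd, dd_deriv]
  · intro x y hx hy
    rw [map_add, LinearMap.add_apply, LinearMap.add_apply, LinearMap.add_apply, hx, hy, add_mul,
      mul_add]
    abel

/-- A derivation of `A` acts on `B(A)` by `δ(p ∧ q) = δp ∧ q + p ∧ δq`. -/
noncomputable def extB (δ : A →ₗ[k] A) (h : ∀ r s, δ (r * s) = δ r * s + r * δ s) :
    BB k A →ₗ[k] BB k A :=
  (relB k A).mapQ (relB k A) (LinearMap.rTensor A δ + LinearMap.lTensor A δ) (by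
    rw [relB, Submodule.span_le]
    rintro x (⟨p, rfl⟩ | ⟨p, q, r, rfl⟩)
    · rw [SetLike.mem_coe, Submodule.mem_comap, ← Submodule.Quotient.mk_eq_zero,
        ← Submodule.mkQ_apply, LinearMap.add_apply, LinearMap.rTensor_tmul,
        LinearMap.lTensor_tmul, map_add]
      change wd k A (δ p) p + wd k A p (δ p) = 0
      rw [wd_skew p (δ p), add_neg_cancel]
    · rw [SetLike.mem_coe, Submodule.mem_comap, ← Submodule.Quotient.mk_eq_zero,
        ← Submodule.mkQ_apply]
      simp only [LinearMap.add_apply, LinearMap.rTensor_tmul,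
        LinearMap.lTensor_tmul, map_add, h, TensorProduct.add_tmul]
      change wd k A (δ p * q) r + wd k A (p * δ q) r + wd k A (p * q) (δ r) +
        (wd k A (δ q * r) p + wd k A (q * δ r) p + wd k A (q * r) (δ p)) +
        (wd k A (δ r * p) q + wd k A (r * δ p) q + wd k A (r * p) (δ q)) = 0
      have h1 := wd_cyc (k := k) (δ p) q r
      have h2 := wd_cyc (k := k) p (δ q) r
      have h3 := wd_cyc (k := k) p q (δ r)
      linear_combination (norm := abel) h1 + h2 + h3)

omit [IsScalarTower k A A] [SMulCommClass k A A] [IsAlternative A] in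
theorem extB_wd (δ : A →ₗ[k] A) (h : ∀ r s, δ (r * s) = δ r * s + r * δ s) (p q : A) :
    extB δ h (wd k A p q) = wd k A (δ p) q + wd k A p (δ q) := by
  change (relB k A).mkQ ((LinearMap.rTensor A δ + LinearMap.lTensor A δ) (p ⊗ₜ q)) = _
  rw [LinearMap.add_apply, LinearMap.rTensor_tmul, LinearMap.lTensor_tmul, map_add]
  rfl

variable (k A) in
/-- the bracket `B(A) × B(A) → B(A)`, `[p ∧ q, r ∧ s] = D_{p,q}(r) ∧ s + r ∧ D_{p,q}(s)` -/
noncomputable def actB : BB k A →ₗ[k] BB k A →ₗ[k] BB k A :=
  LinearMap.mk₂ k (fun b c => extB (dB k A b) (dB_deriv b) c)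
    (fun b b' c => by
      refine BB_induction (P := fun c => extB (dB k A (b + b')) (dB_deriv (b + b')) c =
        extB (dB k A b) (dB_deriv b) c + extB (dB k A b') (dB_deriv b') c) (by simp) ?_ ?_ c
      · intro p q
        simp only [extB_wd, map_add, LinearMap.add_apply]
        abel
      · intro x y hx hy
        rw [LinearMap.map_add (extB (dB k A (b + b')) (dB_deriv (b + b'))) x y, hx, hy,
          LinearMap.map_add (extB (dB k A b) (dB_deriv b)) x y,
          LinearMap.map_add (extB (dB k A b') (dB_deriv b')) x y]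
        abel)
    (fun a b c => by
      refine BB_induction (P := fun c => extB (dB k A (a • b)) (dB_deriv (a • b)) c =
        a • extB (dB k A b) (dB_deriv b) c) (by simp) ?_ ?_ c
      · intro p q
        simp only [extB_wd, map_smul, LinearMap.smul_apply, smul_add]
      · intro x y hx hy
        rw [LinearMap.map_add (extB (dB k A (a • b)) (dB_deriv (a • b))) x y, hx, hy,
          LinearMap.map_add (extB (dB k A b) (dB_deriv b)) x y, smul_add])
    (fun b c c' => map_add _ _ _)
    (fun a b c => map_smul _ _ _)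

theorem actB_wd (b : BB k A) (p q : A) :
    actB k A b (wd k A p q) = wd k A (dB k A b p) q + wd k A p (dB k A b q) :=
  extB_wd (dB k A b) (dB_deriv b) p q

theorem actB_skew (b c : BB k A) : actB k A b c = - actB k A c b := by
  have key : ∀ p q r s : A, actB k A (wd k A p q) (wd k A r s)
      = - actB k A (wd k A r s) (wd k A p q) := by
    intro p q r s
    rw [actB_wd, actB_wd, dB_wd, dB_wd, dB_wd, dB_wd]
    have h := (ALT.p_ALT A IsAlternative.left_alt IsAlternative.right_alt).2.2.2 (BB k A)
      { toFun := fun x => (wd k A x).toAddMonoidHom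
        map_zero' := by ext; simp
        map_add' := fun x y => by ext; simp } wd_self wd_cyc p q r s
    exact eq_neg_of_add_eq_zero_left h
  refine BB_induction (P := fun b => actB k A b c = - actB k A c b) (by simp) ?_ ?_ b
  · intro p q
    refine BB_induction (P := fun c => actB k A (wd k A p q) c = - actB k A c (wd k A p q))
      (by simp) ?_ ?_ c
    · intro r s
      exact key p q r s
    · intro x y hx hy
      simp only [map_add, LinearMap.add_apply, hx, hy, neg_add]
  · intro x y hx hy
    simp only [map_add, LinearMap.add_apply, hx, hy, neg_add]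

/-- `D_{[b,c]} = [D_b, D_c]` -/
theorem dB_actB (b c : BB k A) (x : A) :
    dB k A (actB k A b c) x = dB k A b (dB k A c x) - dB k A c (dB k A b x) := by
  refine BB_induction (P := fun c => dB k A (actB k A b c) x =
    dB k A b (dB k A c x) - dB k A c (dB k A b x)) (by simp) ?_ ?_ c
  · intro p q
    rw [actB_wd, map_add, LinearMap.add_apply, dB_wd, dB_wd, dB_wd, dB_wd]
    simp only [dd, map_add, map_sub, dB_deriv, mul_add, add_mul]
    abel
  · intro y z hy hz
    simp only [map_add, LinearMap.add_apply, hy, hz]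
    abel

theorem actB_jac (a b c : BB k A) :
    actB k A a (actB k A b c) = actB k A (actB k A a b) c + actB k A b (actB k A a c) := by
  refine BB_induction (P := fun c => actB k A a (actB k A b c) =
    actB k A (actB k A a b) c + actB k A b (actB k A a c)) (by simp) ?_ ?_ c
  · intro p q
    simp only [actB_wd, map_add, dB_actB, map_sub, LinearMap.sub_apply]
    abel
  · intro y z hy hz
    simp only [map_add, hy, hz]
    abel

end

end Run7.h547.SG
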