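import Pool.Agent.Run7.h547.SG.ABG

/-!
The bracket of `ABG(A) = sl₃ ⊗ A ⊕ B(A)` and its Lie algebra axioms.
-/

set_option autoImplicit false

namespace Run7.h547.SG

open TensorProduct Matrix

section

variable (k : Type*) [Field k]

theorem Sl_trace (X : Sl k) : trace X.1 = 0 := X.2

theorem Sl_lie (X Y : Sl k) : (⁅X, Y⁆ : Sl k).1 = X.1 * Y.1 - Y.1 * X.1 := rfl

/-- the Lie bracket of `sl₃` as a bilinear map -/
noncomputable def lieS : Sl k →ₗ[k] Sl k →ₗ[k] Sl k :=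
  LinearMap.mk₂ k (fun X Y => ⁅X, Y⁆) add_lie smul_lie lie_add lie_smul

theorem lieS_val (X Y : Sl k) : (lieS k X Y).1 = X.1 * Y.1 - Y.1 * X.1 := rfl

variable [CharZero k]

/-- `{X,Y} = ½(XY + YX) - ⅓ tr(XY) I` -/
noncomputable def symS : Sl k →ₗ[k] Sl k →ₗ[k] Sl k :=
  LinearMap.mk₂ k (fun X Y => ⟨(1 / 2 : k) • (X.1 * Y.1 + Y.1 * X.1)
      - (1 / 3 : k) • (trace (X.1 * Y.1)) • (1 : Matrix (Fin 3) (Fin 3) k), by
        change trace ((1 / 2 : k) • (X.1 * Y.1 + Y.1 * X.1)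
          - (1 / 3 : k) • (trace (X.1 * Y.1)) • (1 : Matrix (Fin 3) (Fin 3) k)) = 0
        rw [trace_sub, trace_smul, trace_add, trace_mul_comm Y.1 X.1, trace_smul, trace_smul,
          trace_one]
        simp only [smul_eq_mul, Fintype.card_fin]
        push_cast
        ring⟩)
    (fun X X' Y => by
      apply Subtype.ext
      change _ = ((1 / 2 : k) • (X.1 * Y.1 + Y.1 * X.1)
        - (1 / 3 : k) • (trace (X.1 * Y.1)) • (1 : Matrix (Fin 3) (Fin 3) k)) +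
        ((1 / 2 : k) • (X'.1 * Y.1 + Y.1 * X'.1)
        - (1 / 3 : k) • (trace (X'.1 * Y.1)) • (1 : Matrix (Fin 3) (Fin 3) k))
      change (1 / 2 : k) • ((X.1 + X'.1) * Y.1 + Y.1 * (X.1 + X'.1))
        - (1 / 3 : k) • (trace ((X.1 + X'.1) * Y.1)) • (1 : Matrix (Fin 3) (Fin 3) k) = _
      rw [add_mul, mul_add, trace_add]
      module)
    (fun c X Y => by
      apply Subtype.ext
      change (1 / 2 : k) • ((c • X.1) * Y.1 + Y.1 * (c • X.1))
        - (1 / 3 : k) • (trace ((c • X.1) * Y.1)) • (1 : Matrix (Fin 3) (Fin 3) k) =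
        c • ((1 / 2 : k) • (X.1 * Y.1 + Y.1 * X.1)
        - (1 / 3 : k) • (trace (X.1 * Y.1)) • (1 : Matrix (Fin 3) (Fin 3) k))
      rw [smul_mul_assoc, mul_smul_comm, trace_smul, smul_eq_mul]
      module)
    (fun X Y Y' => by
      apply Subtype.ext
      change (1 / 2 : k) • (X.1 * (Y.1 + Y'.1) + (Y.1 + Y'.1) * X.1)
        - (1 / 3 : k) • (trace (X.1 * (Y.1 + Y'.1))) • (1 : Matrix (Fin 3) (Fin 3) k) =
        ((1 / 2 : k) • (X.1 * Y.1 + Y.1 * X.1)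
        - (1 / 3 : k) • (trace (X.1 * Y.1)) • (1 : Matrix (Fin 3) (Fin 3) k)) +
        ((1 / 2 : k) • (X.1 * Y'.1 + Y'.1 * X.1)
        - (1 / 3 : k) • (trace (X.1 * Y'.1)) • (1 : Matrix (Fin 3) (Fin 3) k))
      rw [add_mul, mul_add, trace_add]
      module)
    (fun c X Y => by
      apply Subtype.ext
      change (1 / 2 : k) • (X.1 * (c • Y.1) + (c • Y.1) * X.1)
        - (1 / 3 : k) • (trace (X.1 * (c • Y.1))) • (1 : Matrix (Fin 3) (Fin 3) k) =
        c • ((1 / 2 : k) • (X.1 * Y.1 + Y.1 * X.1)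
        - (1 / 3 : k) • (trace (X.1 * Y.1)) • (1 : Matrix (Fin 3) (Fin 3) k))
      rw [smul_mul_assoc, mul_smul_comm, trace_smul, smul_eq_mul]
      module)

theorem symS_val (X Y : Sl k) : (symS k X Y).1 = (1 / 2 : k) • (X.1 * Y.1 + Y.1 * X.1)
      - (1 / 3 : k) • (trace (X.1 * Y.1)) • (1 : Matrix (Fin 3) (Fin 3) k) := rfl

omit [CharZero k] in
/-- the trace form `(X, Y) ↦ tr(XY)` -/
noncomputable def trS : Sl k →ₗ[k] Sl k →ₗ[k] k :=
  LinearMap.mk₂ k (fun X Y => trace (X.1 * Y.1))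
    (fun X X' Y => by
      change trace ((X.1 + X'.1) * Y.1) = _
      rw [add_mul, trace_add])
    (fun c X Y => by
      change trace ((c • X.1) * Y.1) = _
      rw [smul_mul_assoc, trace_smul])
    (fun X Y Y' => by
      change trace (X.1 * (Y.1 + Y'.1)) = _
      rw [mul_add, trace_add])
    (fun c X Y => by
      change trace (X.1 * (c • Y.1)) = _
      rw [mul_smul_comm, trace_smul])

end

section

variable (k : Type*) [Field k] (A : Type*) [NonUnitalNonAssocRing A] [Module k A]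
  [IsScalarTower k A A] [SMulCommClass k A A]

/-- `p · q = ½(pq + qp)` -/
noncomputable def jor : A →ₗ[k] A →ₗ[k] A :=
  (1 / 2 : k) • (LinearMap.mul k A + (LinearMap.mul k A).flip)

/-- `[p, q] = pq - qp` -/
noncomputable def com : A →ₗ[k] A →ₗ[k] A := LinearMap.mul k A - (LinearMap.mul k A).flip

theorem jor_apply (p q : A) : jor k A p q = (1 / 2 : k) • (p * q + q * p) := rfl

theorem com_apply (p q : A) : com k A p q = p * q - q * p := rfl

variable [CharZero k]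

/-- `sl₃ ⊗ A`-component of the bracket of two elements of `sl₃ ⊗ A`:
`(X ⊗ p, Y ⊗ q) ↦ [X,Y] ⊗ (p · q) + {X,Y} ⊗ [p,q]` -/
noncomputable def slP : (Sl k ⊗[k] A) →ₗ[k] (Sl k ⊗[k] A) →ₗ[k] (Sl k ⊗[k] A) :=
  TensorProduct.map₂ (lieS k) (jor k A) + TensorProduct.map₂ (symS k) (com k A)

/-- `B(A)`-component of the bracket of two elements of `sl₃ ⊗ A`:
`(X ⊗ p, Y ⊗ q) ↦ ⅓ tr(XY) p ∧ q` -/
noncomputable def bP : (Sl k ⊗[k] A) →ₗ[k] (Sl k ⊗[k] A) →ₗ[k] BB k A :=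
  (1 / 3 : k) • (TensorProduct.map₂ (trS k) (wd k A)).compr₂
    (TensorProduct.lid k (BB k A)).toLinearMap

variable [IsAlternative A]

/-- the action of `B(A)` on `sl₃ ⊗ A`: `(p ∧ q, X ⊗ r) ↦ X ⊗ D_{p,q}(r)` -/
noncomputable def mP : BB k A →ₗ[k] (Sl k ⊗[k] A) →ₗ[k] (Sl k ⊗[k] A) :=
  (LinearMap.lTensorHom (Sl k)) ∘ₗ (dB k A)

variable {k A}

omit [IsAlternative A] in
theorem slP_tmul (X Y : Sl k) (p q : A) : slP k A (X ⊗ₜ p) (Y ⊗ₜ q) =
    (lieS k X Y) ⊗ₜ (jor k A p q) + (symS k X Y) ⊗ₜ (com k A p q) := rfl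

omit [IsAlternative A] [CharZero k] [IsScalarTower k A A] [SMulCommClass k A A] in
theorem bP_tmul (X Y : Sl k) (p q : A) : bP k A (X ⊗ₜ p) (Y ⊗ₜ q) =
    (1 / 3 : k) • (trace (X.1 * Y.1)) • wd k A p q := rfl

omit [CharZero k] in
theorem mP_tmul (b : BB k A) (X : Sl k) (p : A) : mP k A b (X ⊗ₜ p) = X ⊗ₜ (dB k A b p) := rfl

end

end Run7.h547.SG
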