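import Pool.Agent.Run7.h547.SG.ABG2

/-!
Jacobi identity for `ABG(A)`.
-/

set_option autoImplicit false

namespace Run7.h547.SG

open TensorProduct Matrix

section CH

variable {k : Type*} [Field k]

/-- polarised Cayley–Hamilton for traceless `3 × 3` matrices -/
theorem cayley (X Y Z : Matrix (Fin 3) (Fin 3) k) (hX : trace X = 0) (hY : trace Y = 0)
    (hZ : trace Z = 0) :
    X * (Y * Z) + Y * (Z * X) + Z * (X * Y) + (Y * (X * Z) + X * (Z * Y) + Z * (Y * X)) =
      trace (X * Y) • Z + trace (Y * Z) • X + trace (X * Z) • Y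
        + (trace (X * (Y * Z)) + trace (X * (Z * Y))) • (1 : Matrix (Fin 3) (Fin 3) k) := by
  rw [trace_fin_three] at hX hY hZ
  have hX' : X 2 2 = - X 0 0 - X 1 1 := by linear_combination hX
  have hY' : Y 2 2 = - Y 0 0 - Y 1 1 := by linear_combination hY
  have hZ' : Z 2 2 = - Z 0 0 - Z 1 1 := by linear_combination hZ
  ext i j
  simp only [trace_fin_three, Matrix.add_apply, Matrix.smul_apply, Matrix.mul_apply,
    Fin.sum_univ_three, smul_eq_mul, hX', hY', hZ']
  fin_cases i <;> fin_cases j <;>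
    simp [hX', hY', hZ'] <;> ring

end CH

/-! ### trilinear and bilinear extension -/

section Ext

variable {k : Type*} [Field k] {M N P Q : Type*} [AddCommGroup M] [Module k M] [AddCommGroup N]
  [Module k N] [AddCommGroup P] [Module k P] [AddCommGroup Q] [Module k Q]

theorem bil_ext {f g : (M ⊗[k] N) →ₗ[k] (M ⊗[k] N) →ₗ[k] P}
    (h : ∀ X p Y q, f (X ⊗ₜ p) (Y ⊗ₜ q) = g (X ⊗ₜ p) (Y ⊗ₜ q)) (x y : M ⊗[k] N) :
    f x y = g x y := by
  have : f = g := by
    apply TensorProduct.ext'
    intro X p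
    apply TensorProduct.ext'
    intro Y q
    exact h X p Y q
  rw [this]

end Ext

section J

variable {k : Type*} [Field k] {A : Type*} [NonUnitalNonAssocRing A] [Module k A]
  [IsScalarTower k A A] [SMulCommClass k A A] [CharZero k]

theorem lieS_skew (X Y : Sl k) : lieS k X Y = - lieS k Y X := by
  apply Subtype.ext
  change X.1 * Y.1 - Y.1 * X.1 = - (Y.1 * X.1 - X.1 * Y.1)
  abel

theorem symS_comm (X Y : Sl k) : symS k X Y = symS k Y X := by
  apply Subtype.ext
  rw [symS_val, symS_val, trace_mul_comm X.1 Y.1, add_comm (X.1 * Y.1)]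

theorem jor_comm (p q : A) : jor k A p q = jor k A q p := by
  rw [jor_apply, jor_apply, add_comm]

theorem com_skew (p q : A) : com k A p q = - com k A q p := by
  rw [com_apply, com_apply]; abel

theorem slP_skew (x y : Sl k ⊗[k] A) : slP k A x y = - slP k A y x := by
  have := bil_ext (k := k) (f := slP k A) (g := - (slP k A).flip) (fun X p Y q => by
    rw [LinearMap.neg_apply, LinearMap.neg_apply, LinearMap.flip_apply, slP_tmul, slP_tmul,
      lieS_skew X Y, jor_comm p q, symS_comm X Y, com_skew p q, neg_tmul, tmul_neg]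
    abel) x y
  rw [this]; rfl

theorem bP_skew (x y : Sl k ⊗[k] A) : bP k A x y = - bP k A y x := by
  have := bil_ext (k := k) (f := bP k A) (g := - (bP k A).flip) (fun X p Y q => by
    rw [LinearMap.neg_apply, LinearMap.neg_apply, LinearMap.flip_apply, bP_tmul, bP_tmul,
      wd_skew p q, trace_mul_comm X.1 Y.1, smul_neg, smul_neg]) x y
  rw [this]; rfl

variable (k) in
/-- the inclusion of `sl₃` into matrices -/
def slVal : Sl k →ₗ[k] Matrix (Fin 3) (Fin 3) k where
  toFun X := X.1
  map_add' _ _ := rfl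
  map_smul' _ _ := rfl

variable (k A) in
/-- the embedding of `sl₃ ⊗ A` into `M₃(k) ⊗ A` -/
noncomputable def em : (Sl k ⊗[k] A) →ₗ[k] (Matrix (Fin 3) (Fin 3) k ⊗[k] A) :=
  LinearMap.rTensor A (slVal k)

theorem em_tmul (X : Sl k) (p : A) : em k A (X ⊗ₜ p) = X.1 ⊗ₜ p := rfl

theorem em_inj : Function.Injective (em k A) :=
  Module.Flat.rTensor_preserves_injective_linearMap _ (fun _ _ h => Subtype.ext h)

variable (k) in
/-- matrix multiplication as a bilinear map -/
noncomputable def mulM : Matrix (Fin 3) (Fin 3) k →ₗ[k] Matrix (Fin 3) (Fin 3) k →ₗ[k]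
    Matrix (Fin 3) (Fin 3) k :=
  LinearMap.mk₂ k (fun M N => M * N) add_mul smul_mul_assoc mul_add
    (fun c M N => mul_smul_comm c M N)

variable (k) in
/-- `(M, N) ↦ tr(MN) I` -/
noncomputable def trOne : Matrix (Fin 3) (Fin 3) k →ₗ[k] Matrix (Fin 3) (Fin 3) k →ₗ[k]
    Matrix (Fin 3) (Fin 3) k :=
  LinearMap.mk₂ k (fun M N => trace (M * N) • (1 : Matrix (Fin 3) (Fin 3) k))
    (fun M M' N => by rw [add_mul, trace_add, add_smul])
    (fun c M N => by rw [smul_mul_assoc, trace_smul, smul_assoc])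
    (fun M N N' => by rw [mul_add, trace_add, add_smul])
    (fun c M N => by rw [mul_smul_comm, trace_smul, smul_assoc])

variable (k A) in
/-- the `sl`-part of the bracket, on `M₃(k) ⊗ A` -/
noncomputable def sM : (Matrix (Fin 3) (Fin 3) k ⊗[k] A) →ₗ[k]
    (Matrix (Fin 3) (Fin 3) k ⊗[k] A) →ₗ[k] (Matrix (Fin 3) (Fin 3) k ⊗[k] A) :=
  TensorProduct.map₂ (mulM k) (LinearMap.mul k A)
    + (-1 : k) • (TensorProduct.map₂ (mulM k) (LinearMap.mul k A)).flip
    + (-(1 / 3) : k) • TensorProduct.map₂ (trOne k) (com k A)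

theorem sM_tmul (M N : Matrix (Fin 3) (Fin 3) k) (p q : A) :
    sM k A (M ⊗ₜ p) (N ⊗ₜ q) = (M * N) ⊗ₜ (p * q) - (N * M) ⊗ₜ (q * p)
      - (1 / 3 : k) • trace (M * N) • ((1 : Matrix (Fin 3) (Fin 3) k) ⊗ₜ[k] (p * q))
      + (1 / 3 : k) • trace (M * N) • ((1 : Matrix (Fin 3) (Fin 3) k) ⊗ₜ[k] (q * p)) := by
  change (M * N) ⊗ₜ (p * q) + (-1 : k) • ((N * M) ⊗ₜ[k] (q * p))
      + (-(1 / 3) : k) • ((trace (M * N) • (1 : Matrix (Fin 3) (Fin 3) k)) ⊗ₜ[k] (p * q - q * p)) = _
  rw [tmul_sub, ← TensorProduct.smul_tmul', ← TensorProduct.smul_tmul']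
  module

theorem em_slP (x y : Sl k ⊗[k] A) : em k A (slP k A x y) = sM k A (em k A x) (em k A y) := by
  exact bil_ext (k := k) (f := (slP k A).compr₂ (em k A))
    (g := (sM k A).compl₁₂ (em k A) (em k A)) (fun X p Y q => by
    rw [LinearMap.compr₂_apply, LinearMap.compl₁₂_apply, slP_tmul, map_add, em_tmul, em_tmul,
      em_tmul, em_tmul, sM_tmul, lieS_val, symS_val, jor_apply, com_apply]
    simp only [add_tmul, sub_tmul, tmul_add, tmul_sub, smul_add, smul_sub, tmul_smul,
      TensorProduct.smul_tmul']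
    simp only [← TensorProduct.smul_tmul']
    module) x y

section Alt

variable [IsAlternative A]

omit [Module k A] [IsScalarTower k A A] [SMulCommClass k A A] [CharZero k] in
theorem al (x y z : A) : (x * y) * z - x * (y * z) + ((y * x) * z - y * (x * z)) = 0 :=
  ALT.la IsAlternative.left_alt x y z

omit [Module k A] [IsScalarTower k A A] [SMulCommClass k A A] [CharZero k] in
theorem ar (x y z : A) : (x * y) * z - x * (y * z) + ((x * z) * y - x * (z * y)) = 0 :=
  ALT.ra IsAlternative.right_alt x y z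

theorem J1M (X Y Z : Matrix (Fin 3) (Fin 3) k) (hX : trace X = 0) (hY : trace Y = 0)
    (hZ : trace Z = 0) (p q r : A) :
    sM k A (X ⊗ₜ p) (sM k A (Y ⊗ₜ q) (Z ⊗ₜ r)) - ((1 / 3 : k) * trace (Y * Z)) • X ⊗ₜ[k] dd q r p =
    sM k A (sM k A (X ⊗ₜ p) (Y ⊗ₜ q)) (Z ⊗ₜ r) + ((1 / 3 : k) * trace (X * Y)) • Z ⊗ₜ[k] dd p q r
    + sM k A (Y ⊗ₜ q) (sM k A (X ⊗ₜ p) (Z ⊗ₜ r))
    - ((1 / 3 : k) * trace (X * Z)) • Y ⊗ₜ[k] dd p r q := by
  obtain ⟨a, ha⟩ : ∃ a, a = (p * q) * r - p * (q * r) := ⟨_, rfl⟩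
  have w1 : (p * q) * r = p * (q * r) + a := by rw [ha]; abel
  have w2 : (q * p) * r = q * (p * r) - a := by
    have := al p q r; rw [ha]; linear_combination (norm := abel) this
  have w3 : (p * r) * q = p * (r * q) - a := by
    have := ar p q r; rw [ha]; linear_combination (norm := abel) this
  have w4 : (q * r) * p = q * (r * p) + a := by
    have := ar q p r; rw [w2] at this; linear_combination (norm := abel) this
  have w5 : (r * p) * q = r * (p * q) + a := by
    have := al r p q; rw [w3] at this; linear_combination (norm := abel) this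
  have w6 : (r * q) * p = r * (q * p) - a := by
    have := al r q p; rw [w4] at this; linear_combination (norm := abel) this
  have t4 : trace (Y * (Z * X)) = trace (X * (Y * Z)) := by
    rw [← Matrix.mul_assoc, trace_mul_comm]
  have t6 : trace (Y * (X * Z)) = trace (X * (Z * Y)) := by
    rw [trace_mul_comm, Matrix.mul_assoc]
  have ch := cayley X Y Z hX hY hZ
  have ch2 : (X * (Y * Z) + Y * (Z * X) + Z * (X * Y) + (Y * (X * Z) + X * (Z * Y) + Z * (Y * X)))
      ⊗ₜ[k] a = (trace (X * Y) • Z + trace (Y * Z) • X + trace (X * Z) • Y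
        + (trace (X * (Y * Z)) + trace (X * (Z * Y))) • (1 : Matrix (Fin 3) (Fin 3) k)) ⊗ₜ[k] a := by
    rw [ch]
  simp only [add_tmul, ← TensorProduct.smul_tmul', add_smul] at ch2
  simp only [sM_tmul, map_add, map_sub, map_smul, LinearMap.add_apply, LinearMap.sub_apply,
    LinearMap.smul_apply, Matrix.mul_assoc, Matrix.mul_one, Matrix.one_mul, hX, hY, hZ,
    t4, t6, dd, w1, w2, w3, w4, w5, w6, tmul_add, tmul_sub, zero_smul, smul_zero,
    sub_zero, add_zero]
  linear_combination (norm := module) (-1 : k) • ch2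

/-- trilinear identities on `sl₃ ⊗ A` may be checked on pure tensors -/
theorem tri_ext {P : Type*} [AddCommGroup P] {F G : (Sl k ⊗[k] A) → (Sl k ⊗[k] A) →
    (Sl k ⊗[k] A) → P}
    (h : ∀ X p Y q Z r, F (X ⊗ₜ p) (Y ⊗ₜ q) (Z ⊗ₜ r) = G (X ⊗ₜ p) (Y ⊗ₜ q) (Z ⊗ₜ r))
    (hF1 : ∀ x x' y z, F (x + x') y z = F x y z + F x' y z)
    (hF2 : ∀ x y y' z, F x (y + y') z = F x y z + F x y' z)
    (hF3 : ∀ x y z z', F x y (z + z') = F x y z + F x y z')
    (hG1 : ∀ x x' y z, G (x + x') y z = G x y z + G x' y z)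
    (hG2 : ∀ x y y' z, G x (y + y') z = G x y z + G x y' z)
    (hG3 : ∀ x y z z', G x y (z + z') = G x y z + G x y z')
    (x y z : Sl k ⊗[k] A) : F x y z = G x y z := by
  have z1 : ∀ y z, F 0 y z = G 0 y z := by
    intro y z
    have a := hF1 0 0 y z
    have b := hG1 0 0 y z
    rw [add_zero] at a b
    rw [left_eq_add.1 a, left_eq_add.1 b]
  have z2 : ∀ x z, F x 0 z = G x 0 z := by
    intro x z
    have a := hF2 x 0 0 z
    have b := hG2 x 0 0 z
    rw [add_zero] at a b
    rw [left_eq_add.1 a, left_eq_add.1 b]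
  have z3 : ∀ x y, F x y 0 = G x y 0 := by
    intro x y
    have a := hF3 x y 0 0
    have b := hG3 x y 0 0
    rw [add_zero] at a b
    rw [left_eq_add.1 a, left_eq_add.1 b]
  induction x using TensorProduct.induction_on with
  | zero => exact z1 y z
  | add x x' hx hx' => rw [hF1, hG1, hx, hx']
  | tmul X p =>
    induction y using TensorProduct.induction_on with
    | zero => exact z2 _ z
    | add y y' hy hy' => rw [hF2, hG2, hy, hy']
    | tmul Y q =>
      induction z using TensorProduct.induction_on with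
      | zero => exact z3 _ _
      | add z z' hz hz' => rw [hF3, hG3, hz, hz']
      | tmul Z r => exact h X p Y q Z r

theorem J1 (x y z : Sl k ⊗[k] A) :
    slP k A x (slP k A y z) - mP k A (bP k A y z) x =
    slP k A (slP k A x y) z + mP k A (bP k A x y) z + slP k A y (slP k A x z)
      - mP k A (bP k A x z) y := by
  refine tri_ext (k := k) (A := A)
    (F := fun x y z => slP k A x (slP k A y z) - mP k A (bP k A y z) x)
    (G := fun x y z => slP k A (slP k A x y) z + mP k A (bP k A x y) z + slP k A y (slP k A x z)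
      - mP k A (bP k A x z) y) ?_ ?_ ?_ ?_ ?_ ?_ ?_ x y z
  · intro X p Y q Z r
    apply em_inj (k := k) (A := A)
    simp only [map_sub, map_add, em_slP, bP_tmul, map_smul, LinearMap.smul_apply, mP_tmul, dB_wd,
      em_tmul]
    have h := J1M (k := k) X.1 Y.1 Z.1 X.2 Y.2 Z.2 p q r
    simp only [mul_smul] at h
    exact h
  all_goals
    intros
    simp only [map_add, LinearMap.add_apply]
    abel

theorem J2 (a : BB k A) (y z : Sl k ⊗[k] A) :
    mP k A a (slP k A y z) = slP k A (mP k A a y) z + slP k A y (mP k A a z) := by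
  exact bil_ext (k := k) (f := (slP k A).compr₂ (mP k A a))
    (g := (slP k A).compl₁₂ (mP k A a) LinearMap.id + (slP k A).compl₁₂ LinearMap.id (mP k A a))
    (fun Y q Z r => by
      rw [LinearMap.compr₂_apply, LinearMap.add_apply, LinearMap.add_apply,
        LinearMap.compl₁₂_apply, LinearMap.compl₁₂_apply, LinearMap.id_apply, LinearMap.id_apply,
        mP_tmul, mP_tmul, slP_tmul, slP_tmul, slP_tmul, map_add, mP_tmul, mP_tmul]
      simp only [jor_apply, com_apply, map_smul, map_add, map_sub, dB_deriv, tmul_add, tmul_sub,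
        tmul_smul, smul_add]
      abel) y z

theorem J3 (a b : BB k A) (z : Sl k ⊗[k] A) :
    mP k A a (mP k A b z) = mP k A (actB k A a b) z + mP k A b (mP k A a z) := by
  induction z using TensorProduct.induction_on with
  | zero => simp
  | add z z' hz hz' => simp only [map_add, hz, hz']; abel
  | tmul Z r =>
    rw [mP_tmul, mP_tmul, mP_tmul, mP_tmul, mP_tmul, dB_actB, tmul_sub]
    abel

theorem J4 (x y z : Sl k ⊗[k] A) :
    bP k A x (slP k A y z) = bP k A (slP k A x y) z + bP k A y (slP k A x z) := by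
  refine tri_ext (k := k) (A := A)
    (F := fun x y z => bP k A x (slP k A y z))
    (G := fun x y z => bP k A (slP k A x y) z + bP k A y (slP k A x z))
      ?_ ?_ ?_ ?_ ?_ ?_ ?_ x y z
  · intro X p Y q Z r
    have t4 : trace (Y.1 * (Z.1 * X.1)) = trace (X.1 * (Y.1 * Z.1)) := by
      rw [← Matrix.mul_assoc, trace_mul_comm]
    have t6 : trace (Y.1 * (X.1 * Z.1)) = trace (X.1 * (Z.1 * Y.1)) := by
      rw [trace_mul_comm, Matrix.mul_assoc]
    have hX : trace X.1 = 0 := X.2
    have hY : trace Y.1 = 0 := Y.2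
    have hZ : trace Z.1 = 0 := Z.2
    have c1 := wd_cyc (k := k) p q r
    have c2 := wd_cyc (k := k) q p r
    rw [wd_skew (q * r) p, wd_skew (r * p) q] at c1
    rw [wd_skew (p * r) q, wd_skew (r * q) p] at c2
    simp only [slP_tmul, map_add, LinearMap.add_apply, bP_tmul, lieS_val, symS_val, jor_apply,
      com_apply, map_smul, map_sub, LinearMap.smul_apply, LinearMap.sub_apply, Matrix.mul_sub,
      Matrix.sub_mul, Matrix.mul_add, Matrix.add_mul, Matrix.mul_smul, Matrix.smul_mul,
      trace_add, trace_sub, trace_smul, Matrix.mul_one, Matrix.one_mul, hX, hY, hZ,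
      Matrix.mul_assoc, smul_eq_mul, t4, t6]
    linear_combination (norm := module) (-(1 / 3 : k) * trace (X.1 * (Y.1 * Z.1))) • c1
      + ((1 / 3 : k) * trace (X.1 * (Z.1 * Y.1))) • c2
  all_goals
    intros
    simp only [map_add, LinearMap.add_apply]
    try abel

theorem J5 (a : BB k A) (y z : Sl k ⊗[k] A) :
    actB k A a (bP k A y z) = bP k A (mP k A a y) z + bP k A y (mP k A a z) := by
  exact bil_ext (k := k) (f := (bP k A).compr₂ (actB k A a))
    (g := (bP k A).compl₁₂ (mP k A a) LinearMap.id + (bP k A).compl₁₂ LinearMap.id (mP k A a))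
    (fun Y q Z r => by
      rw [LinearMap.compr₂_apply, LinearMap.add_apply, LinearMap.add_apply,
        LinearMap.compl₁₂_apply, LinearMap.compl₁₂_apply, LinearMap.id_apply, LinearMap.id_apply,
        mP_tmul, mP_tmul, bP_tmul, bP_tmul, bP_tmul, map_smul, map_smul, actB_wd, smul_add,
        smul_add]) y z

end Alt

end J

end Run7.h547.SG
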