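import Pool.Agent.Run7.h547.SG.ABG3

/-!
The Lie algebra `ABG(A)`.
-/

set_option autoImplicit false

namespace Run7.h547.SG

open TensorProduct

section

variable (k : Type*) [Field k] (A : Type*) [NonUnitalNonAssocRing A] [Module k A]

/-- The underlying vector space `sl₃ ⊗ A ⊕ B(A)` of the Allison–Benkart–Gao Lie algebra. -/
def ABG := (Sl k ⊗[k] A) × BB k A

noncomputable instance : AddCommGroup (ABG k A) :=
  inferInstanceAs (AddCommGroup ((Sl k ⊗[k] A) × BB k A))

noncomputable instance : Module k (ABG k A) :=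
  inferInstanceAs (Module k ((Sl k ⊗[k] A) × BB k A))

variable [CharZero k] [IsScalarTower k A A] [SMulCommClass k A A] [IsAlternative A]

/-- The bracket of `ABG(A)`: `[x + b, y + c]` for `x, y ∈ sl₃ ⊗ A`, `b, c ∈ B(A)`, with
`[X ⊗ p, Y ⊗ q] = [X,Y] ⊗ (p · q) + {X,Y} ⊗ [p,q] + ⅓ tr(XY) p ∧ q`,
`[p ∧ q, X ⊗ r] = X ⊗ D_{p,q}(r)`, `[p ∧ q, r ∧ s] = D_{p,q}(r) ∧ s + r ∧ D_{p,q}(s)`. -/
noncomputable instance : Bracket (ABG k A) (ABG k A) :=
  ⟨fun u v => (slP k A u.1 v.1 + mP k A u.2 v.1 - mP k A v.2 u.1,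
    bP k A u.1 v.1 + actB k A u.2 v.2)⟩

variable {k A}

theorem lie_fst (u v : ABG k A) :
    (⁅u, v⁆ : ABG k A).1 = slP k A u.1 v.1 + mP k A u.2 v.1 - mP k A v.2 u.1 := rfl

theorem lie_snd (u v : ABG k A) :
    (⁅u, v⁆ : ABG k A).2 = bP k A u.1 v.1 + actB k A u.2 v.2 := rfl

omit [CharZero k] [IsScalarTower k A A] [SMulCommClass k A A] [IsAlternative A] in
theorem ABG_ext {u v : ABG k A} (h1 : u.1 = v.1) (h2 : u.2 = v.2) : u = v := Prod.ext h1 h2

omit [CharZero k] [IsScalarTower k A A] [SMulCommClass k A A] [IsAlternative A] in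
theorem ABG_add_fst (u v : ABG k A) : (u + v).1 = u.1 + v.1 := rfl

omit [CharZero k] [IsScalarTower k A A] [SMulCommClass k A A] [IsAlternative A] in
theorem ABG_add_snd (u v : ABG k A) : (u + v).2 = u.2 + v.2 := rfl

omit [CharZero k] [IsScalarTower k A A] [SMulCommClass k A A] [IsAlternative A] in
theorem ABG_smul_fst (c : k) (v : ABG k A) : (c • v).1 = c • v.1 := rfl

omit [CharZero k] [IsScalarTower k A A] [SMulCommClass k A A] [IsAlternative A] in
theorem ABG_smul_snd (c : k) (v : ABG k A) : (c • v).2 = c • v.2 := rfl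

theorem self_of_skew {M N : Type*} [AddCommGroup M] [Module k M] [AddCommGroup N] [Module k N]
    (f : M →ₗ[k] M →ₗ[k] N) (h : ∀ x y, f x y = - f y x) (x : M) : f x x = 0 := by
  have h2 : (2 : k) • f x x = 0 := by
    rw [two_smul]
    exact add_eq_zero_iff_eq_neg.2 (h x x)
  exact (smul_eq_zero.1 h2).resolve_left two_ne_zero

noncomputable instance : LieRing (ABG k A) where
  add_lie u v w := by
    apply ABG_ext
    · simp only [lie_fst, ABG_add_fst, ABG_add_snd, map_add, LinearMap.add_apply]; abel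
    · simp only [lie_snd, ABG_add_fst, ABG_add_snd, map_add, LinearMap.add_apply]; abel
  lie_add u v w := by
    apply ABG_ext
    · simp only [lie_fst, ABG_add_fst, ABG_add_snd, map_add, LinearMap.add_apply]; abel
    · simp only [lie_snd, ABG_add_fst, ABG_add_snd, map_add]; abel
  lie_self u := by
    apply ABG_ext
    · rw [lie_fst, self_of_skew (slP k A) slP_skew]
      change 0 + _ - _ = (0 : Sl k ⊗[k] A)
      abel
    · rw [lie_snd, self_of_skew (bP k A) bP_skew, self_of_skew (actB k A) actB_skew]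
      exact add_zero 0
  leibniz_lie u v w := by
    apply ABG_ext
    · simp only [lie_fst, lie_snd, ABG_add_fst, map_add, map_sub, LinearMap.add_apply,
        LinearMap.sub_apply]
      have j1 := J1 (k := k) u.1 v.1 w.1
      have a1 := J2 (k := k) u.2 v.1 w.1
      have a2 := J2 (k := k) v.2 u.1 w.1
      have a3 := J2 (k := k) w.2 u.1 v.1
      have b1 := J3 (k := k) u.2 v.2 w.1
      have b2 := J3 (k := k) u.2 w.2 v.1
      have b3 := J3 (k := k) v.2 w.2 u.1
      have s1 := slP_skew (k := k) v.1 (mP k A w.2 u.1)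
      linear_combination (norm := module) j1 + a1 - a2 + a3 + b1 - b2 + b3 + s1
    · simp only [lie_fst, lie_snd, ABG_add_snd, map_add, map_sub, LinearMap.add_apply,
        LinearMap.sub_apply]
      have j4 := J4 (k := k) u.1 v.1 w.1
      have c1 := J5 (k := k) u.2 v.1 w.1
      have c2 := J5 (k := k) v.2 u.1 w.1
      have c3 := J5 (k := k) w.2 u.1 v.1
      have d1 := actB_jac (k := k) u.2 v.2 w.2
      have s1 := bP_skew (k := k) v.1 (mP k A w.2 u.1)
      have s2 := actB_skew (k := k) (bP k A u.1 v.1) w.2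
      linear_combination (norm := module) j4 + c1 - c2 + d1 + c3 + s1 - s2

noncomputable instance : LieAlgebra k (ABG k A) where
  lie_smul c u v := by
    apply ABG_ext
    · simp only [lie_fst, ABG_smul_fst, ABG_smul_snd, map_smul, LinearMap.smul_apply, smul_add,
        smul_sub]
    · simp only [lie_snd, ABG_smul_fst, ABG_smul_snd, map_smul, smul_add]

end

end Run7.h547.SG
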