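import Pool.Agent.Run7.h547.SG.Iface

/-! Identities in alternative algebras (certificates found by computer). -/

set_option autoImplicit false

namespace Run7.h547.SG.ALT

universe u v

section

variable {A : Type u} [NonUnitalNonAssocRing A]
  (hl : ∀ p q : A, (p * p) * q = p * (p * q)) (hr : ∀ p q : A, (q * p) * p = q * (p * p))

include hl in
theorem la (x y z : A) : (x * y) * z - x * (y * z) + ((y * x) * z - y * (x * z)) = 0 := by
  have h := hl (x + y) z
  have h1 := hl x z
  have h2 := hl y z
  simp only [mul_add, add_mul] at h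
  linear_combination (norm := abel) h - h1 - h2

include hr in
theorem ra (x y z : A) : (x * y) * z - x * (y * z) + ((x * z) * y - x * (z * y)) = 0 := by
  have h := hr (y + z) x
  have h1 := hr y x
  have h2 := hr z x
  simp only [mul_add, add_mul] at h
  linear_combination (norm := abel) h - h1 - h2

include hl in
theorem lar (x y z t : A) : ((x * y) * z - x * (y * z) + ((y * x) * z - y * (x * z))) * t = 0 := by
  rw [la hl, zero_mul]

include hl in
theorem lal (x y z t : A) : t * ((x * y) * z - x * (y * z) + ((y * x) * z - y * (x * z))) = 0 := by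
  rw [la hl, mul_zero]

include hr in
theorem rar (x y z t : A) : ((x * y) * z - x * (y * z) + ((x * z) * y - x * (z * y))) * t = 0 := by
  rw [ra hr, zero_mul]

include hr in
theorem ral (x y z t : A) : t * ((x * y) * z - x * (y * z) + ((x * z) * y - x * (z * y))) = 0 := by
  rw [ra hr, mul_zero]

include hl hr in
theorem deriv (p q r s : A) : dd p q (r * s) = dd p q r * s + r * dd p q s := by
  linear_combination (norm := skip) ra hr (r) (s * q) (p)
      + la hl (p) (r) (q * s)
      + ral hr (r) (p) (q) s
      + la hl (r * q) (s) (p)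
      + ra hr (r) (q * p) (s)
      + ra hr (q) (r * p) (s)
      + lar hl (q) (r) (p) s
      + lal hl (p) (r) (s) q
      + la hl (p * r) (q) (s)
      + ra hr (s) (r * p) (q)
      + ral hr (q) (p) (s) r
      + ral hr (s) (p) (q) r
      + ra hr (r * p) (q) (s)
      + rar hr (p) (r) (s) q
      + lar hl (r) (s) (q) p
      + rar hr (s) (p) (r) q
      - ra hr (r) (p * s) (q)
      - lal hl (q) (s) (p) r
      - la hl (q * r) (p) (s)
      - lal hl (q) (r) (s) p
      - la hl (r * s) (p) (q)
      - la hl (r) (s) (q * p)
      - la hl (q) (r) (p * s)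
      - la hl (r * q) (p) (s)
      - la hl (q) (s) (r * p)
      - la hl (r) (s) (p * q)
      - ra hr (r * q) (p) (s)
      - lar hl (p) (s) (r) q
      - lar hl (p) (r) (s) q
      - ra hr (s * r) (p) (q)
  simp only [dd, mul_add, add_mul, mul_sub, sub_mul]
  abel

include hl hr in
theorem cyc (p q r s : A) : dd (p * q) r s + dd (q * r) p s + dd (r * p) q s = 0 := by
  linear_combination (norm := skip) ral hr (r) (q) (s) p
      + lar hl (p) (q) (r) s
      + la hl (p * r) (q) (s)
      + ra hr (q) (s * p) (r)
      + la hl (s * r) (q) (p)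
      + rar hr (p) (r) (s) q
      + ral hr (p) (r) (s) q
      + lar hl (q) (s) (r) p
      + ra hr (q) (p * s) (r)
      + rar hr (q) (p) (s) r
      + rar hr (s) (p) (q) r
      + rar hr (s) (p) (r) q
      + la hl (p * q) (r) (s)
      + la hl (s * q) (p) (r)
      + lar hl (p) (r) (q) s
      + ra hr (p) (r * s) (q)
      - ra hr (p * q) (r) (s)
      - ra hr (p * r) (q) (s)
      - rar hr (p) (q) (r) s
      - ral hr (r) (p) (s) q
      - la hl (s * p) (q) (r)
      - lar hl (p) (s) (r) q
      - rar hr (q) (r) (s) p
      - lar hl (q) (s) (p) r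
      - ra hr (p) (s * q) (r)
      - ra hr (q * p) (r) (s)
      - ra hr (q) (s * r) (p)
      - ra hr (q) (r * s) (p)
      - ra hr (s * q) (p) (r)
      - ra hr (s * r) (p) (q)
      - lal hl (q) (r) (s) p
      - ra hr (r * p) (q) (s)
  simp only [dd, mul_add, add_mul, mul_sub, sub_mul]
  abel

include hl hr in
theorem diag (p q : A) : dd p p q = 0 := by
  have h1 := la hl p q p
  have h3 := hr p q
  simp only [dd]
  linear_combination (norm := abel) h3 - h1

end

section

variable {A : Type u} [NonUnitalNonAssocRing A]
  {B : Type v} [AddCommGroup B] (w : A →+ A →+ B)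
  (hl : ∀ p q : A, (p * p) * q = p * (p * q)) (hr : ∀ p q : A, (q * p) * p = q * (p * p))

include hl in
theorem wla (x y z t : A) :
    w ((x * y) * z - x * (y * z) + ((y * x) * z - y * (x * z))) t = 0 := by
  rw [la hl, map_zero, AddMonoidHom.zero_apply]

include hr in
theorem wra (x y z t : A) :
    w ((x * y) * z - x * (y * z) + ((x * z) * y - x * (z * y))) t = 0 := by
  rw [ra hr, map_zero, AddMonoidHom.zero_apply]

end

theorem p_ALT : S_ALT.{u, v} := by
  intro A _ hl hr
  refine ⟨deriv hl hr, cyc hl hr, diag hl hr, ?_⟩
  intro B _ w h0 hc p q r s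
  have sk : ∀ x y, w x y = - w y x := by
    intro x y
    have h := h0 (x + y)
    simp only [map_add, AddMonoidHom.add_apply, h0, zero_add, add_zero] at h
    exact eq_neg_of_add_eq_zero_right h
  linear_combination (norm := skip) wla w hl p s q r
      + hc (p * s) r q
      + hc (r * q) p s
      + hc (r * s) p q
      + hc (p * q) r s
      + wla w hl q r s p
      - wra w hr p q r s
      - hc (q * s) r p
      - hc (r * p) q s
      - hc (p * r) s q
      - hc (s * q) p r
      - wra w hr r p s q
  simp only [dd, map_add, map_sub, AddMonoidHom.add_apply, AddMonoidHom.sub_apply]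
  simp only [sk p (_ * _), sk r (_ * _)]
  simp only [sk (s * q) (p * r), sk (r * q) (p * s), sk (p * q) (r * s), sk (q * s) (r * p)]
  abel

end Run7.h547.SG.ALT
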