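import Mathlib

/-!
The Chevalley–Eilenberg complex `Λ L` of a Lie algebra `L` with trivial coefficients.
-/

set_option autoImplicit false

namespace Run7.h547.SG

open ExteriorAlgebra

section

variable {R L : Type*} [CommRing R] [LieRing L] [LieAlgebra R L]

theorem ι_anti (x y : L) (w : ExteriorAlgebra R L) : ι R x * (ι R y * w) = - (ι R y * (ι R x * w)) := by
  have h := ExteriorAlgebra.ι_add_mul_swap (R := R) x y
  rw [← mul_assoc, ← mul_assoc, ← neg_mul]
  congr 1
  exact eq_neg_of_add_eq_zero_left h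

theorem ι_sq (x : L) (w : ExteriorAlgebra R L) : ι R x * (ι R x * w) = 0 := by
  rw [← mul_assoc, ExteriorAlgebra.ι_sq_zero, zero_mul]

/-- auxiliary bilinear map for `th` -/
noncomputable def thAux (δ : L →ₗ[R] L) :
    L →ₗ[R] (ExteriorAlgebra R L × ExteriorAlgebra R L) →ₗ[R] ExteriorAlgebra R L :=
  LinearMap.mk₂ R (fun y p => ι R (δ y) * p.1 + ι R y * p.2)
    (fun y y' p => by simp only [map_add, add_mul]; abel)
    (fun c y p => by simp only [map_smul, smul_mul_assoc, smul_add])
    (fun y p p' => by simp only [Prod.fst_add, Prod.snd_add, mul_add]; abel)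
    (fun c y p => by simp only [Prod.smul_fst, Prod.smul_snd, mul_smul_comm, smul_add])

/-- The derivation of `Λ L` which extends the linear map `δ : L → L`. -/
noncomputable def th (δ : L →ₗ[R] L) : ExteriorAlgebra R L →ₗ[R] ExteriorAlgebra R L :=
  CliffordAlgebra.foldr' (0 : QuadraticForm R L) (thAux δ) (by
    intro y w v
    change ι R (δ y) * (ι R y * w) + ι R y * (ι R (δ y) * w + ι R y * v) = _
    rw [mul_add, ι_sq, add_zero, ι_anti (δ y) y, neg_add_cancel, zero_apply,
      zero_smul]) 0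

theorem th_algebraMap (δ : L →ₗ[R] L) (r : R) : th δ (algebraMap R _ r) = 0 := by
  rw [th]
  exact (CliffordAlgebra.foldr'_algebraMap _ _ _ _ _).trans (smul_zero r)

theorem th_ι_mul (δ : L →ₗ[R] L) (y : L) (w : ExteriorAlgebra R L) :
    th δ (ι R y * w) = ι R (δ y) * w + ι R y * th δ w :=
  CliffordAlgebra.foldr'_ι_mul _ _ _ _ _ _

/-- linear maps on `Λ L` agree if they agree on scalars and satisfy the same recursion -/
theorem ext_induction {P : ExteriorAlgebra R L → Prop} (h0 : ∀ r, P (algebraMap R _ r))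
    (h1 : ∀ w v, P w → P v → P (w + v)) (h2 : ∀ (y : L) w, P w → P (ι R y * w))
    (w : ExteriorAlgebra R L) : P w :=
  CliffordAlgebra.left_induction (0 : QuadraticForm R L) h0 h1 (fun w y h => h2 y w h) w

theorem th_add (δ δ' : L →ₗ[R] L) : th (δ + δ') = th δ + th δ' := by
  refine LinearMap.ext fun w => ?_
  refine ext_induction (P := fun w => th (δ + δ') w = (th δ + th δ') w) ?_ ?_ ?_ w
  · intro r; simp only [th_algebraMap, LinearMap.add_apply, add_zero]
  · intro w v hw hv; rw [map_add, map_add, hw, hv]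
  · intro y w hw
    rw [th_ι_mul, hw, LinearMap.add_apply, LinearMap.add_apply, LinearMap.add_apply, th_ι_mul,
      th_ι_mul, map_add, add_mul, mul_add]
    abel

theorem th_smul (c : R) (δ : L →ₗ[R] L) : th (c • δ) = c • th δ := by
  refine LinearMap.ext fun w => ?_
  refine ext_induction (P := fun w => th (c • δ) w = (c • th δ) w) ?_ ?_ ?_ w
  · intro r; simp only [th_algebraMap, LinearMap.smul_apply, smul_zero]
  · intro w v hw hv; rw [map_add, map_add, hw, hv]
  · intro y w hw
    rw [th_ι_mul, hw, LinearMap.smul_apply, LinearMap.smul_apply, LinearMap.smul_apply, th_ι_mul,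
      map_smul, smul_mul_assoc, mul_smul_comm, smul_add]

/-- `th` as a linear map -/
noncomputable def thL : (L →ₗ[R] L) →ₗ[R] Module.End R (ExteriorAlgebra R L) where
  toFun := th
  map_add' := th_add
  map_smul' := th_smul

theorem th_comm (δ δ' : Module.End R L) (w : ExteriorAlgebra R L) :
    th (δ * δ' - δ' * δ) w = th δ (th δ' w) - th δ' (th δ w) := by
  refine ext_induction (P := fun w => th (δ * δ' - δ' * δ) w =
    th δ (th δ' w) - th δ' (th δ w)) ?_ ?_ ?_ w
  · intro r; simp only [th_algebraMap, map_zero, sub_zero]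
  · intro w v hw hv; rw [map_add, hw, hv]; simp only [map_add]; abel
  · intro y w hw
    rw [th_ι_mul, hw]
    simp only [th_ι_mul, map_add, LinearMap.sub_apply, Module.End.mul_apply, map_sub, sub_mul,
      mul_sub]
    abel

/-- `ad x` -/
noncomputable def adm (x : L) : L →ₗ[R] L := LieModule.toEnd R L L x

theorem adm_apply (x y : L) : adm (R := R) x y = ⁅x, y⁆ := rfl

/-- auxiliary bilinear map for `bd` -/
noncomputable def bdAux :
    L →ₗ[R] (ExteriorAlgebra R L × ExteriorAlgebra R L) →ₗ[R] ExteriorAlgebra R L :=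
  LinearMap.mk₂ R (fun x p => th (adm x) p.1 - ι R x * p.2)
    (fun x x' p => by
      have : adm (R := R) (x + x') = adm x + adm x' := by ext y; simp [adm_apply]
      rw [this, th_add, map_add, add_mul, LinearMap.add_apply]; abel)
    (fun c x p => by
      have : adm (R := R) (c • x) = c • adm x := by ext y; simp [adm_apply]
      rw [this, th_smul, map_smul, smul_mul_assoc, LinearMap.smul_apply, smul_sub])
    (fun x p p' => by simp only [Prod.fst_add, Prod.snd_add, mul_add, map_add]; abel)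
    (fun c x p => by simp only [Prod.smul_fst, Prod.smul_snd, mul_smul_comm, map_smul, smul_sub])

variable (R L) in
/-- The Chevalley–Eilenberg boundary `∂ : Λ L → Λ L`: `∂ 1 = 0` and
`∂(x ∧ w) = θ_x w - x ∧ ∂ w`, where `θ_x` is the derivation of `Λ L` extending `ad x`. -/
noncomputable def bd : ExteriorAlgebra R L →ₗ[R] ExteriorAlgebra R L :=
  CliffordAlgebra.foldr' (0 : QuadraticForm R L) bdAux (by
    intro x w v
    change th (adm x) (ι R x * w) - ι R x * (th (adm x) w - ι R x * v) = _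
    rw [th_ι_mul, mul_sub, ι_sq, adm_apply, lie_self, map_zero, zero_mul, zero_add, sub_zero,
      sub_self, zero_apply, zero_smul]) 0

theorem bd_algebraMap (r : R) : bd R L (algebraMap R _ r) = 0 := by
  rw [bd]
  exact (CliffordAlgebra.foldr'_algebraMap _ _ _ _ _).trans (smul_zero r)

theorem bd_ι_mul (x : L) (w : ExteriorAlgebra R L) :
    bd R L (ι R x * w) = th (adm x) w - ι R x * bd R L w :=
  CliffordAlgebra.foldr'_ι_mul _ _ _ _ _ _

/-- derivations of `L` commute with the boundary -/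
theorem th_bd (δ : Module.End R L) (h : ∀ x y, δ ⁅x, y⁆ = ⁅δ x, y⁆ + ⁅x, δ y⁆)
    (w : ExteriorAlgebra R L) : th δ (bd R L w) = bd R L (th δ w) := by
  refine ext_induction (P := fun w => th δ (bd R L w) = bd R L (th δ w)) ?_ ?_ ?_ w
  · intro r; simp only [th_algebraMap, bd_algebraMap, map_zero]
  · intro w v hw hv; simp only [map_add, hw, hv]
  · intro x w hw
    have e : (adm (δ x) : Module.End R L) = δ * adm x - adm x * δ := by
      refine LinearMap.ext fun y => ?_
      change ⁅δ x, y⁆ = δ ⁅x, y⁆ - ⁅x, δ y⁆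
      rw [h]; abel
    rw [bd_ι_mul, th_ι_mul, map_sub, th_ι_mul, map_add, bd_ι_mul, bd_ι_mul, hw, e, th_comm]
    abel

theorem bd_bd (w : ExteriorAlgebra R L) : bd R L (bd R L w) = 0 := by
  refine ext_induction (P := fun w => bd R L (bd R L w) = 0) ?_ ?_ ?_ w
  · intro r; simp only [bd_algebraMap, map_zero]
  · intro w v hw hv; simp only [map_add, hw, hv, add_zero]
  · intro x w hw
    rw [bd_ι_mul, map_sub, bd_ι_mul, hw, mul_zero, sub_zero,
      th_bd (adm x) (fun y z => leibniz_lie x y z), sub_self]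

/-! ### degrees -/

theorem mem_power_succ {n : ℕ} {P : ExteriorAlgebra R L → Prop}
    (ha : ∀ w v, P w → P v → P (w + v))
    (h : ∀ (x : L), ∀ w ∈ (⋀[R]^n L), P (ι R x * w)) : ∀ w ∈ (⋀[R]^(n + 1) L), P w := by
  intro w hw
  rw [ExteriorAlgebra.exteriorPower, pow_succ'] at hw
  refine Submodule.mul_induction_on hw ?_ ha
  rintro _ ⟨x, rfl⟩ v hv
  exact h x v hv

theorem ι_mul_mem {n : ℕ} (x : L) {w : ExteriorAlgebra R L} (hw : w ∈ (⋀[R]^n L)) :
    ι R x * w ∈ (⋀[R]^(n + 1) L) := by
  rw [ExteriorAlgebra.exteriorPower, pow_succ']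
  exact Submodule.mul_mem_mul ⟨x, rfl⟩ hw

theorem mem_power_zero {w : ExteriorAlgebra R L} (hw : w ∈ (⋀[R]^0 L)) :
    ∃ r, w = algebraMap R _ r := by
  rw [ExteriorAlgebra.exteriorPower, pow_zero, Submodule.mem_one] at hw
  obtain ⟨r, hr⟩ := hw
  exact ⟨r, hr.symm⟩

theorem th_mem (δ : L →ₗ[R] L) (n : ℕ) : ∀ w ∈ (⋀[R]^n L), th δ w ∈ (⋀[R]^n L) := by
  induction n with
  | zero =>
    intro w hw
    obtain ⟨r, rfl⟩ := mem_power_zero hw
    rw [th_algebraMap]
    exact Submodule.zero_mem _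
  | succ n ih =>
    refine mem_power_succ ?_ ?_
    · intro w v hw hv; rw [map_add]; exact Submodule.add_mem _ hw hv
    · intro x w hw
      rw [th_ι_mul]
      exact Submodule.add_mem _ (ι_mul_mem _ hw) (ι_mul_mem _ (ih w hw))

theorem bd_mem (n : ℕ) : ∀ w ∈ (⋀[R]^(n + 1) L), bd R L w ∈ (⋀[R]^n L) := by
  induction n with
  | zero =>
    refine mem_power_succ ?_ ?_
    · intro w v hw hv; rw [map_add]; exact Submodule.add_mem _ hw hv
    · intro x w hw
      obtain ⟨r, rfl⟩ := mem_power_zero hw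
      rw [bd_ι_mul, bd_algebraMap, th_algebraMap, mul_zero, sub_zero]
      exact Submodule.zero_mem _
  | succ n ih =>
    refine mem_power_succ ?_ ?_
    · intro w v hw hv; rw [map_add]; exact Submodule.add_mem _ hw hv
    · intro x w hw
      rw [bd_ι_mul]
      exact Submodule.sub_mem _ (th_mem _ _ _ hw) (ι_mul_mem _ (ih w hw))

end

/-! ### homology -/

section

variable (R L : Type*) [CommRing R] [LieRing L] [LieAlgebra R L]

/-- The cycles of degree `n`. -/
noncomputable def cyc (n : ℕ) : Submodule R (ExteriorAlgebra R L) :=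
  (⋀[R]^n L) ⊓ LinearMap.ker (bd R L)

/-- The boundaries of degree `n`. -/
noncomputable def bnd (n : ℕ) : Submodule R (ExteriorAlgebra R L) :=
  (⋀[R]^(n + 1) L).map (bd R L)

/-- The homology `H_n(L)` of the Lie algebra `L` with trivial coefficients, from the
Chevalley–Eilenberg complex. -/
abbrev Hn (n : ℕ) := cyc R L n ⧸ (bnd R L n).submoduleOf (cyc R L n)

variable {R L}

/-- A derivation `δ` of `L` acts on the cycles. -/
noncomputable def cycMap (δ : Module.End R L) (h : ∀ x y, δ ⁅x, y⁆ = ⁅δ x, y⁆ + ⁅x, δ y⁆)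
    (n : ℕ) : cyc R L n →ₗ[R] cyc R L n :=
  (th δ).restrict (fun w hw => ⟨th_mem δ n w hw.1, by
    rw [SetLike.mem_coe, LinearMap.mem_ker, ← th_bd δ h, LinearMap.mem_ker.1 hw.2, map_zero]⟩)

/-- A derivation `δ` of `L` acts on the homology of `L`. -/
noncomputable def hMap (δ : Module.End R L) (h : ∀ x y, δ ⁅x, y⁆ = ⁅δ x, y⁆ + ⁅x, δ y⁆)
    (n : ℕ) : Hn R L n →ₗ[R] Hn R L n :=
  Submodule.mapQ _ _ (cycMap δ h n) (by
    rintro ⟨w, hw⟩ hb
    obtain ⟨v, hv, e⟩ := hb
    refine ⟨th δ v, th_mem δ _ v hv, ?_⟩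
    have e' : bd R L v = w := e
    rw [← th_bd δ h, e']
    rfl)

theorem hMap_mk (δ : Module.End R L) (h : ∀ x y, δ ⁅x, y⁆ = ⁅δ x, y⁆ + ⁅x, δ y⁆) (n : ℕ)
    (w : cyc R L n) : hMap δ h n (Submodule.Quotient.mk w) =
      Submodule.Quotient.mk (cycMap δ h n w) := rfl

end

end Run7.h547.SG
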