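import Pool.Agent.Run7.h547.SG.Iface
import Pool.Agent.Run7.h187.ShDim

/-!
Piece GRA for `MP_894cc0_al` (project of helper547): the multigrading of the free alternative
algebra on three generators.
-/

set_option autoImplicit false

namespace Run7.h547.SG.GRA

open Run7.h187.Sh Run7.h547.SG

universe u

section

variable (k : Type u) [Field k]

/-- the derivation of the free algebra counting the generator `j` -/
noncomputable def N0 (j : Fin 3) : FreeNonUnitalNonAssocAlgebra k (Fin 3) →ₗ[k] FreeNonUnitalNonAssocAlgebra k (Fin 3) :=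
  (Finsupp.linearCombination k
    (fun w : FreeMagma (Fin 3) => (MonoidAlgebra.single w ((mdeg w j : ℕ) : k) : FreeNonUnitalNonAssocAlgebra k (Fin 3)))).comp
    (MonoidAlgebra.coeffLinearEquiv (R := k) (S := k) (M := FreeMagma (Fin 3))).toLinearMap

theorem N0_single (j : Fin 3) (w : FreeMagma (Fin 3)) (c : k) :
    N0 k j (MonoidAlgebra.single w c) = ((mdeg w j : ℕ) : k) • MonoidAlgebra.single w c := by
  have h : (MonoidAlgebra.coeffLinearEquiv (R := k) (S := k) (M := FreeMagma (Fin 3)))
      (MonoidAlgebra.single w c) = Finsupp.single w c := rfl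
  simp only [N0, LinearMap.comp_apply, LinearEquiv.coe_coe, h]
  rw [Finsupp.linearCombination_single, MonoidAlgebra.smul_single, MonoidAlgebra.smul_single,
    smul_eq_mul, smul_eq_mul, mul_comm]

theorem N0_mul (j : Fin 3) (x y : FreeNonUnitalNonAssocAlgebra k (Fin 3)) : N0 k j (x * y) = N0 k j x * y + x * N0 k j y := by
  induction x using MonoidAlgebra.induction_linear with
  | zero => simp
  | add x x' hx hx' => rw [add_mul, map_add, hx, hx', map_add]; simp only [add_mul]; abel
  | single u c =>
    induction y using MonoidAlgebra.induction_linear with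
    | zero => simp
    | add y y' hy hy' => rw [mul_add, map_add, hy, hy', map_add]; simp only [mul_add]; abel
    | single v d =>
      have hm : mdeg (u * v) j = mdeg u j + mdeg v j := rfl
      rw [MonoidAlgebra.single_mul_single, N0_single, N0_single, N0_single, hm, Nat.cast_add,
        add_smul, smul_mul_assoc, mul_smul_comm, MonoidAlgebra.single_mul_single]

/-- `{x ∈ J | N x ∈ J}` -/
noncomputable def JJ (j : Fin 3) : Submodule k (FreeNonUnitalNonAssocAlgebra k (Fin 3)) := altIdeal k ⊓ (altIdeal k).comap (N0 k j)

theorem isAltIdeal_JJ (j : Fin 3) : IsAltIdeal k (JJ k j) := by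
  have hJ := isAltIdeal_altIdeal k
  have hpolL : ∀ a a' b : FreeNonUnitalNonAssocAlgebra k (Fin 3), (a * a') * b + (a' * a) * b - a * (a' * b) - a' * (a * b) ∈
      altIdeal k := by
    intro a a' b
    have h1 := hJ.left_alt (a + a') b
    have h2 := hJ.left_alt a b
    have h3 := hJ.left_alt a' b
    have h4 := (altIdeal k).sub_mem ((altIdeal k).sub_mem h1 h2) h3
    have h5 : (a * a') * b + (a' * a) * b - a * (a' * b) - a' * (a * b) =
        ((a + a') * (a + a')) * b - (a + a') * ((a + a') * b) - ((a * a) * b - a * (a * b)) -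
          ((a' * a') * b - a' * (a' * b)) := by
      simp only [add_mul, mul_add]
      abel
    rw [h5]
    exact h4
  have hpolR : ∀ a a' b : FreeNonUnitalNonAssocAlgebra k (Fin 3), (b * a) * a' + (b * a') * a - b * (a * a') - b * (a' * a) ∈
      altIdeal k := by
    intro a a' b
    have h1 := hJ.right_alt (a + a') b
    have h2 := hJ.right_alt a b
    have h3 := hJ.right_alt a' b
    have h4 := (altIdeal k).sub_mem ((altIdeal k).sub_mem h1 h2) h3
    have h5 : (b * a) * a' + (b * a') * a - b * (a * a') - b * (a' * a) =
        (b * (a + a')) * (a + a') - b * ((a + a') * (a + a')) - ((b * a) * a - b * (a * a)) -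
          ((b * a') * a' - b * (a' * a')) := by
      simp only [add_mul, mul_add]
      abel
    rw [h5]
    exact h4
  constructor
  · intro a x hx
    refine ⟨hJ.mul_left a x hx.1, ?_⟩
    change N0 k j (a * x) ∈ altIdeal k
    rw [N0_mul]
    exact (altIdeal k).add_mem (hJ.mul_left _ _ hx.1) (hJ.mul_left _ _ hx.2)
  · intro a x hx
    refine ⟨hJ.mul_right a x hx.1, ?_⟩
    change N0 k j (x * a) ∈ altIdeal k
    rw [N0_mul]
    exact (altIdeal k).add_mem (hJ.mul_right _ _ hx.2) (hJ.mul_right _ _ hx.1)
  · intro a b
    refine ⟨hJ.left_alt a b, ?_⟩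
    change N0 k j ((a * a) * b - a * (a * b)) ∈ altIdeal k
    have h1 := hJ.left_alt a (N0 k j b)
    have h2 := hpolL a (N0 k j a) b
    have h3 : N0 k j ((a * a) * b - a * (a * b)) = ((a * a) * N0 k j b - a * (a * N0 k j b)) +
        ((a * N0 k j a) * b + (N0 k j a * a) * b - a * (N0 k j a * b) - N0 k j a * (a * b)) := by
      rw [map_sub, N0_mul, N0_mul, N0_mul, N0_mul]
      simp only [add_mul, mul_add]
      abel
    rw [h3]
    exact (altIdeal k).add_mem h1 h2
  · intro a b
    refine ⟨hJ.right_alt a b, ?_⟩
    change N0 k j ((b * a) * a - b * (a * a)) ∈ altIdeal k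
    have h1 := hJ.right_alt a (N0 k j b)
    have h2 := hpolR a (N0 k j a) b
    have h3 : N0 k j ((b * a) * a - b * (a * a)) = ((N0 k j b * a) * a - N0 k j b * (a * a)) +
        ((b * a) * N0 k j a + (b * N0 k j a) * a - b * (a * N0 k j a) - b * (N0 k j a * a)) := by
      rw [map_sub, N0_mul, N0_mul, N0_mul, N0_mul]
      simp only [add_mul, mul_add]
      abel
    rw [h3]
    exact (altIdeal k).add_mem h1 h2

theorem N0_mem (j : Fin 3) (x : FreeNonUnitalNonAssocAlgebra k (Fin 3)) (hx : x ∈ altIdeal k) : N0 k j x ∈ altIdeal k := by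
  have h : altIdeal k ≤ JJ k j := sInf_le (isAltIdeal_JJ k j)
  exact (h hx).2

/-- the derivation of the free alternative algebra -/
noncomputable def NN (j : Fin 3) : Alt k →ₗ[k] Alt k :=
  (altIdeal k).mapQ (altIdeal k) (N0 k j) (fun x hx => N0_mem k j x hx)

theorem NN_mk (j : Fin 3) (x : FreeNonUnitalNonAssocAlgebra k (Fin 3)) : NN k j ((altIdeal k).mkQ x) = (altIdeal k).mkQ (N0 k j x) :=
  rfl

theorem NN_cls (j : Fin 3) (w : FreeMagma (Fin 3)) :
    NN k j (cls k w) = ((mdeg w j : ℕ) : k) • cls k w := by
  rw [cls, NN_mk, N0_single, map_smul]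

theorem NN_mul (j : Fin 3) (x y : Alt k) : NN k j (x * y) = NN k j x * y + x * NN k j y := by
  obtain ⟨x, rfl⟩ := (altIdeal k).mkQ_surjective x
  obtain ⟨y, rfl⟩ := (altIdeal k).mkQ_surjective y
  rw [mk_mul_mk, NN_mk, NN_mk, NN_mk, N0_mul, map_add, mk_mul_mk, mk_mul_mk]

theorem NN_piece (j : Fin 3) (p : Deg) (x : Alt k) (hx : x ∈ altPiece k p) :
    NN k j x = ((p j : ℕ) : k) • x := by
  unfold altPiece at hx
  induction hx using Submodule.span_induction with
  | mem x hx =>
    obtain ⟨w, hw, rfl⟩ := hx
    rw [NN_cls, hw]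
  | zero => simp
  | add x y _ _ hx hy => rw [map_add, hx, hy, smul_add]
  | smul c x _ hx => rw [map_smul, hx, smul_comm]

theorem cls_mul (u v : FreeMagma (Fin 3)) : cls k u * cls k v = cls k (u.mul v) := by
  rw [cls, cls, mk_mul_mk, MonoidAlgebra.single_mul_single, mul_one]
  rfl

theorem mdeg_ne_zero (w : FreeMagma (Fin 3)) : mdeg w ≠ 0 := by
  induction w with
  | ih1 i =>
    intro h
    have h' : (Finsupp.single i 1 : Deg) = 0 := h
    have := DFunLike.congr_fun h' i
    simp at this
  | ih2 u v hu _ =>
    intro h
    apply hu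
    ext i
    have h' : mdeg u + mdeg v = 0 := h
    have := DFunLike.congr_fun h' i
    simp only [Finsupp.coe_add, Pi.add_apply, Finsupp.coe_zero, Pi.zero_apply] at this ⊢
    omega

theorem iSup_altPiece : ⨆ p, altPiece k p = ⊤ := by
  rw [eq_top_iff]
  rintro x -
  obtain ⟨x, rfl⟩ := (altIdeal k).mkQ_surjective x
  induction x using MonoidAlgebra.induction_linear with
  | zero => simp
  | add x y hx hy => rw [map_add]; exact Submodule.add_mem _ hx hy
  | single w c =>
    have h1 : (MonoidAlgebra.single w c : FreeNonUnitalNonAssocAlgebra k (Fin 3)) = c • MonoidAlgebra.single w 1 := by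
      rw [MonoidAlgebra.smul_single, smul_eq_mul, mul_one]
    rw [h1, map_smul]
    refine Submodule.smul_mem _ _ ?_
    refine Submodule.mem_iSup_of_mem (mdeg w) (Submodule.subset_span ⟨w, rfl, rfl⟩)

theorem comm_NN (i j : Fin 3) : Commute (NN k i) (NN k j) := by
  change NN k i * NN k j = NN k j * NN k i
  refine LinearMap.ext fun x => ?_
  change NN k i (NN k j x) = NN k j (NN k i x)
  have hx : x ∈ ⨆ p, altPiece k p := by rw [iSup_altPiece]; trivial
  induction hx using Submodule.iSup_induction' with
  | mem p x hx =>
    rw [NN_piece k j p x hx, NN_piece k i p x hx, map_smul, map_smul, NN_piece k j p x hx,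
      NN_piece k i p x hx, smul_comm]
  | zero => simp
  | add x y _ _ hx hy => rw [map_add, map_add, map_add, map_add, hx, hy]

theorem iSupIndep_altPiece [CharZero k] : iSupIndep (altPiece k) := by
  have h1 := Module.End.independent_iInf_maxGenEigenspace_of_forall_mapsTo
    (f := fun j : Fin 3 => NN k j) (by
      intro i j φ
      exact Module.End.mapsTo_maxGenEigenspace_of_comm (comm_NN k j i) φ)
  have h2 : Function.Injective (fun (p : Deg) (j : Fin 3) => ((p j : ℕ) : k)) := by
    intro p q h
    ext j
    have := congrFun h j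
    exact Nat.cast_injective this
  refine (h1.comp h2).mono fun p x hx => ?_
  simp only [Function.comp_apply, Submodule.mem_iInf]
  intro j
  have h3 : x ∈ Module.End.eigenspace (NN k j) ((p j : ℕ) : k) := by
    rw [Module.End.mem_eigenspace_iff]
    exact NN_piece k j p x hx
  exact Module.End.eigenspace_le_maxGenEigenspace h3

end

theorem p_GRA : S_GRA.{u} := by
  intro k _ _
  have hJ := isAltIdeal_altIdeal k
  refine ⟨?_, ?_, ⟨NN k, NN_mul k, fun j p x hx => NN_piece k j p x hx⟩, ?_,
    finiteDimensional_altPiece k, ?_, ?_, ?_, ?_⟩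
  · intro p q
    obtain ⟨p, rfl⟩ := (altIdeal k).mkQ_surjective p
    obtain ⟨q, rfl⟩ := (altIdeal k).mkQ_surjective q
    rw [mk_mul_mk, mk_mul_mk, mk_mul_mk, mk_mul_mk, ← sub_eq_zero, ← map_sub,
      Submodule.mkQ_apply, Submodule.Quotient.mk_eq_zero]
    exact hJ.left_alt p q
  · intro p q
    obtain ⟨p, rfl⟩ := (altIdeal k).mkQ_surjective p
    obtain ⟨q, rfl⟩ := (altIdeal k).mkQ_surjective q
    rw [mk_mul_mk, mk_mul_mk, mk_mul_mk, mk_mul_mk, ← sub_eq_zero, ← map_sub,
      Submodule.mkQ_apply, Submodule.Quotient.mk_eq_zero]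
    exact hJ.right_alt p q
  · rw [DirectSum.isInternal_submodule_iff_iSupIndep_and_iSup_eq_top]
    exact ⟨iSupIndep_altPiece k, iSup_altPiece k⟩
  · intro p q x hx y hy
    unfold altPiece at hx
    induction hx using Submodule.span_induction with
    | mem x hx =>
      obtain ⟨u, hu, rfl⟩ := hx
      unfold altPiece at hy
      induction hy using Submodule.span_induction with
      | mem y hy =>
        obtain ⟨v, hv, rfl⟩ := hy
        refine Submodule.subset_span ⟨u.mul v, ?_, cls_mul k u v⟩
        rw [← hu, ← hv]
        rfl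
      | zero => rw [mul_zero]; exact Submodule.zero_mem _
      | add a b _ _ ha hb => rw [mul_add]; exact Submodule.add_mem _ ha hb
      | smul c a _ ha => rw [mul_smul_comm]; exact Submodule.smul_mem _ _ ha
    | zero => rw [zero_mul]; exact Submodule.zero_mem _
    | add a b _ _ ha hb => rw [add_mul]; exact Submodule.add_mem _ ha hb
    | smul c a _ ha => rw [smul_mul_assoc]; exact Submodule.smul_mem _ _ ha
  · unfold altPiece
    rw [Submodule.span_eq_bot]
    rintro x ⟨w, hw, rfl⟩
    exact absurd hw (mdeg_ne_zero w)
  · intro j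
    have h1 : {x : Alt k | ∃ w, mdeg w = Finsupp.single j 1 ∧ x = cls k w} =
        {cls k (FreeMagma.of j)} := by
      ext x
      constructor
      · rintro ⟨w, hw, rfl⟩
        cases w with
        | of i =>
          have h2 : (Finsupp.single i 1 : Deg) = Finsupp.single j 1 := hw
          rw [Finsupp.single_left_inj (by norm_num)] at h2
          rw [h2]
          rfl
        | mul u v =>
          exfalso
          have h2 : mdeg u + mdeg v = Finsupp.single j 1 := hw
          have h3 := mdeg_ne_zero u
          have h4 := mdeg_ne_zero v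
          have h5 : ∀ i, i ≠ j → mdeg u i = 0 ∧ mdeg v i = 0 := by
            intro i hi
            have := DFunLike.congr_fun h2 i
            rw [Finsupp.single_eq_of_ne hi] at this
            simp only [Finsupp.coe_add, Pi.add_apply] at this
            omega
          have h6 : mdeg u j ≠ 0 := by
            intro h0
            apply h3
            ext i
            by_cases hi : i = j
            · rw [hi, h0]; rfl
            · rw [(h5 i hi).1]; rfl
          have h7 : mdeg v j ≠ 0 := by
            intro h0
            apply h4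
            ext i
            by_cases hi : i = j
            · rw [hi, h0]; rfl
            · rw [(h5 i hi).2]; rfl
          have := DFunLike.congr_fun h2 j
          rw [Finsupp.single_eq_same] at this
          simp only [Finsupp.coe_add, Pi.add_apply] at this
          omega
      · rintro rfl
        exact ⟨FreeMagma.of j, rfl, rfl⟩
    unfold altPiece
    rw [h1]
    apply finrank_span_singleton
    intro h0
    have h2 := asc_cls k (FreeMagma.of j)
    rw [h0, map_zero] at h2
    have h3 := congrArg MonoidAlgebra.coeff h2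
    rw [MonoidAlgebra.coeff_single, MonoidAlgebra.coeff_zero] at h3
    exact one_ne_zero (Finsupp.single_eq_zero.1 h3.symm)
  · intro p hp x hx
    unfold altPiece at hx
    induction hx using Submodule.span_induction with
    | mem x hx =>
      obtain ⟨w, hw, rfl⟩ := hx
      cases w with
      | of i =>
        exfalso
        have h2 : (Finsupp.single i 1 : Deg) = p := hw
        rw [← h2] at hp
        fin_cases i <;> simp at hp
      | mul u v => exact Submodule.subset_span ⟨cls k u, cls k v, (cls_mul k u v).symm⟩
    | zero => exact Submodule.zero_mem _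
    | add a b _ _ ha hb => exact Submodule.add_mem _ ha hb
    | smul c a _ ha => exact Submodule.smul_mem _ _ ha

end Run7.h547.SG.GRA
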