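import Pool.Agent.Run7.h547.SG.Der
import Pool.Agent.Run7.h547.SG.CE
import Pool.Agent.Run7.h547.SG.GRA

/-! The statement: trivial and adjoint components in the homology of `ABG(Alt(k³))`. -/

set_option autoImplicit false

namespace Run7.h547.SG

open Run7.h187.Sh

section

variable (k : Type*) [Field k] [CharZero k]

/-- The free alternative algebra is alternative. -/
instance altAlternative : IsAlternative (Alt k) :=
  ⟨(GRA.p_GRA k).1, (GRA.p_GRA k).2.1⟩

/-- The Lie algebra `ABG(Alt(V))` for `V = k³`. -/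
abbrev LL := ABG k (Alt k)

/-- The action of `X ∈ sl₃` on the homology `H_n(ABG(Alt(V)), k)`. -/
noncomputable def act (n : ℕ) (X : Sl k) : Hn k (LL k) n →ₗ[k] Hn k (LL k) n :=
  hMap (slD k (Alt k) X) (slD_deriv X) n

/-- `H_n(ABG(Alt(V)), k)` contains a trivial `sl₃`-submodule of dimension one. -/
def HasTrivial (n : ℕ) : Prop :=
  ∃ v : Hn k (LL k) n, v ≠ 0 ∧ ∀ X : Sl k, act k n X v = 0

/-- `H_n(ABG(Alt(V)), k)` contains an `sl₃`-submodule isomorphic to the adjoint module `sl₃`. -/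
def HasAdjoint (n : ℕ) : Prop :=
  ∃ φ : Sl k →ₗ[k] Hn k (LL k) n, Function.Injective φ ∧
    ∀ X Y : Sl k, φ ⁅X, Y⁆ = act k n X (φ Y)

end

end Run7.h547.SG
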