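import Pool.Agent.Run7.h547.SG.SlBas
import Pool.Agent.Run7.h547.SG.Stmt

/-! A multihomogeneous basis of weight vectors of `ABG(Alt(k³))`. -/

set_option autoImplicit false

namespace Run7.h547.SG

open TensorProduct Run7.h187.Sh

section

variable (k : Type*) [Field k] [CharZero k]

theorem altPiece_internal : DirectSum.IsInternal (altPiece k) := (GRA.p_GRA k).2.2.2.1

instance (p : Deg) : FiniteDimensional k (altPiece k p) := (GRA.p_GRA k).2.2.2.2.1 p

theorem altPiece_zero : altPiece k 0 = ⊥ := (GRA.p_GRA k).2.2.2.2.2.2.1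

theorem altPiece_single (j : Fin 3) : Module.finrank k (altPiece k (Finsupp.single j 1)) = 1 :=
  (GRA.p_GRA k).2.2.2.2.2.2.2.1 j

theorem altPiece_prod (p : Deg) (hp : 2 ≤ p 0 + p 1 + p 2) (x : Alt k) (hx : x ∈ altPiece k p) :
    x ∈ Submodule.span k {z | ∃ a b : Alt k, z = a * b} :=
  (GRA.p_GRA k).2.2.2.2.2.2.2.2 p hp x hx

/-- the component of multidegree `p` of `B(Alt)` -/
noncomputable def bbPiece (p : Deg) : Submodule k (BB k (Alt k)) :=
  ⨆ qr ∈ Finset.HasAntidiagonal.antidiagonal p, Submodule.map₂ (wd k (Alt k)) (altPiece k qr.1) (altPiece k qr.2)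

theorem wd_mem_bbPiece {q r : Deg} {x y : Alt k} (hx : x ∈ altPiece k q) (hy : y ∈ altPiece k r) :
    wd k (Alt k) x y ∈ bbPiece k (q + r) := by
  rw [bbPiece]
  exact Submodule.mem_iSup_of_mem (q, r) (Submodule.mem_iSup_of_mem
    (Finset.HasAntidiagonal.mem_antidiagonal.2 rfl) (Submodule.apply_mem_map₂ _ hx hy))

instance bbPiece_fin (p : Deg) : FiniteDimensional k (bbPiece k p) := by
  rw [bbPiece]
  refine Module.Finite.iff_fg.2 ?_
  refine Submodule.fg_biSup _ _ fun qr _ => ?_
  exact Submodule.FG.map₂ _ (Module.Finite.iff_fg.1 inferInstance)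
    (Module.Finite.iff_fg.1 inferInstance)

/-- the grading derivations on `B(Alt)` -/
noncomputable def NB (j : Fin 3) : BB k (Alt k) →ₗ[k] BB k (Alt k) :=
  extB (GRA.NN k j) (GRA.NN_mul k j)

theorem NB_piece (j : Fin 3) (p : Deg) (x : BB k (Alt k)) (hx : x ∈ bbPiece k p) :
    NB k j x = ((p j : ℕ) : k) • x := by
  have h : bbPiece k p ≤ LinearMap.ker (NB k j - ((p j : ℕ) : k) • LinearMap.id) := by
    rw [bbPiece]
    refine iSup₂_le fun qr hqr => ?_
    rw [Submodule.map₂_le]
    intro x hx y hy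
    rw [LinearMap.mem_ker, LinearMap.sub_apply, LinearMap.smul_apply, LinearMap.id_apply, NB,
      extB_wd, GRA.NN_piece k j _ x hx, GRA.NN_piece k j _ y hy, map_smul, map_smul,
      LinearMap.smul_apply, ← add_smul, ← Finset.HasAntidiagonal.mem_antidiagonal.1 hqr, Finsupp.add_apply,
      Nat.cast_add, sub_self]
  have := h hx
  rw [LinearMap.mem_ker, LinearMap.sub_apply, sub_eq_zero] at this
  exact this

theorem iSup_bbPiece : ⨆ p, bbPiece k p = ⊤ := by
  rw [eq_top_iff]
  rintro x -
  refine BB_induction (P := fun x => x ∈ ⨆ p, bbPiece k p) (Submodule.zero_mem _) ?_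
    (fun x y hx hy => Submodule.add_mem _ hx hy) x
  intro u v
  have hu : u ∈ ⨆ p, altPiece k p := by rw [GRA.iSup_altPiece]; trivial
  have hv : v ∈ ⨆ p, altPiece k p := by rw [GRA.iSup_altPiece]; trivial
  refine Submodule.iSup_induction (altPiece k)
    (motive := fun u => wd k (Alt k) u v ∈ ⨆ p, bbPiece k p) hu ?_ ?_ ?_
  · intro p u hu
    refine Submodule.iSup_induction (altPiece k)
      (motive := fun v => wd k (Alt k) u v ∈ ⨆ p, bbPiece k p) hv ?_ ?_ ?_
    · intro q v hv
      exact Submodule.mem_iSup_of_mem (p + q) (wd_mem_bbPiece k hu hv)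
    · rw [map_zero]; exact Submodule.zero_mem _
    · intro v v' hv hv'; rw [map_add]; exact Submodule.add_mem _ hv hv'
  · rw [map_zero, LinearMap.zero_apply]; exact Submodule.zero_mem _
  · intro u u' hu hu'; rw [map_add, LinearMap.add_apply]; exact Submodule.add_mem _ hu hu'

theorem comm_NB (i j : Fin 3) : Commute (NB k i) (NB k j) := by
  change NB k i * NB k j = NB k j * NB k i
  refine LinearMap.ext fun x => ?_
  change NB k i (NB k j x) = NB k j (NB k i x)
  have hx : x ∈ ⨆ p, bbPiece k p := by rw [iSup_bbPiece]; trivial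
  refine Submodule.iSup_induction (bbPiece k)
    (motive := fun x => NB k i (NB k j x) = NB k j (NB k i x)) hx ?_ (by simp) ?_
  · intro p x hx
    rw [NB_piece k j p x hx, NB_piece k i p x hx, map_smul, map_smul, NB_piece k j p x hx,
      NB_piece k i p x hx, smul_comm]
  · intro x y hx hy
    simp only [map_add, hx, hy]

theorem bbPiece_indep : iSupIndep (bbPiece k) := by
  have h1 := Module.End.independent_iInf_maxGenEigenspace_of_forall_mapsTo
    (f := fun j : Fin 3 => NB k j) (by
      intro i j φ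
      exact Module.End.mapsTo_maxGenEigenspace_of_comm (comm_NB k j i) φ)
  have h2 : Function.Injective (fun (p : Deg) (j : Fin 3) => ((p j : ℕ) : k)) := by
    intro p q h
    ext j
    have := congrFun h j
    exact Nat.cast_injective this
  refine (h1.comp h2).mono fun p x hx => ?_
  simp only [Function.comp_apply, Submodule.mem_iInf]
  intro j
  have h3 : x ∈ Module.End.eigenspace (NB k j) ((p j : ℕ) : k) := by
    rw [Module.End.mem_eigenspace_iff]
    exact NB_piece k j p x hx
  exact Module.End.eigenspace_le_maxGenEigenspace h3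

theorem bbPiece_internal : DirectSum.IsInternal (bbPiece k) := by
  rw [DirectSum.isInternal_submodule_iff_iSupIndep_and_iSup_eq_top]
  exact ⟨bbPiece_indep k, iSup_bbPiece k⟩

/-- the dimension of the component of multidegree `p` of `B(Alt)` -/
noncomputable def charB (p : Deg) : ℕ := Module.finrank k (bbPiece k p)

/-- homogeneous basis of `Alt` -/
noncomputable def bA : Module.Basis (Σ p : Deg, Fin (charAlt k p)) k (Alt k) :=
  (altPiece_internal k).collectedBasis
    (fun p => (Module.finBasis k (altPiece k p) : Module.Basis (Fin (charAlt k p)) k _))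

theorem bA_mem (a : Σ p : Deg, Fin (charAlt k p)) : bA k a ∈ altPiece k a.1 :=
  (altPiece_internal k).collectedBasis_mem _ a

/-- homogeneous basis of `B(Alt)` -/
noncomputable def bB : Module.Basis (Σ p : Deg, Fin (charB k p)) k (BB k (Alt k)) :=
  (bbPiece_internal k).collectedBasis
    (fun p => (Module.finBasis k (bbPiece k p) : Module.Basis (Fin (charB k p)) k _))

theorem bB_mem (a : Σ p : Deg, Fin (charB k p)) : bB k a ∈ bbPiece k a.1 :=
  (bbPiece_internal k).collectedBasis_mem _ a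

/-- index set of the basis of `ABG(Alt)` -/
abbrev Idx := (Fin 8 × (Σ p : Deg, Fin (charAlt k p))) ⊕ (Σ p : Deg, Fin (charB k p))

/-- homogeneous basis of weight vectors of `ABG(Alt)` -/
noncomputable def bL : Module.Basis (Idx k) k (ABG k (Alt k)) :=
  ((bSl k).tensorProduct (bA k)).prod (bB k)

/-- multidegree of a basis vector -/
def dgI : Idx k → Deg := Sum.elim (fun x => x.2.1) (fun x => x.1)

/-- weight of a basis vector -/
def wtI : Idx k → ℤ × ℤ := Sum.elim (fun x => wS x.1) (fun _ => 0)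

theorem bL_inl (s : Fin 8) (a : Σ p : Deg, Fin (charAlt k p)) :
    bL k (Sum.inl (s, a)) = ((bSl k s ⊗ₜ[k] bA k a, 0) : (Sl k ⊗[k] Alt k) × BB k (Alt k)) := by
  have h := Module.Basis.prod_apply ((bSl k).tensorProduct (bA k)) (bB k) (Sum.inl (s, a))
  refine h.trans ?_
  rw [Sum.elim_inl, Function.comp_apply, Module.Basis.tensorProduct_apply]
  rfl

theorem bL_inr (a : Σ p : Deg, Fin (charB k p)) :
    bL k (Sum.inr a) = ((0, bB k a) : (Sl k ⊗[k] Alt k) × BB k (Alt k)) := by
  have h := Module.Basis.prod_apply ((bSl k).tensorProduct (bA k)) (bB k) (Sum.inr a)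
  refine h.trans ?_
  rw [Sum.elim_inr, Function.comp_apply]
  rfl

/-- the grading derivations of `ABG(Alt)` -/
noncomputable def NL (j : Fin 3) : Module.End k (ABG k (Alt k)) :=
  grD (GRA.NN k j) (GRA.NN_mul k j)

theorem NL_bL (j : Fin 3) (i : Idx k) : NL k j (bL k i) = ((dgI k i j : ℕ) : k) • bL k i := by
  rcases i with ⟨s, a⟩ | a
  · rw [bL_inl]
    apply ABG_ext
    · change LinearMap.lTensor (Sl k) (GRA.NN k j) (bSl k s ⊗ₜ[k] bA k a) =
        ((a.1 j : ℕ) : k) • (bSl k s ⊗ₜ[k] bA k a)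
      rw [LinearMap.lTensor_tmul, GRA.NN_piece k j a.1 _ (bA_mem k a), tmul_smul]
    · change extB (GRA.NN k j) (GRA.NN_mul k j) 0 = ((a.1 j : ℕ) : k) • (0 : BB k (Alt k))
      rw [map_zero, smul_zero]
  · rw [bL_inr]
    apply ABG_ext
    · change LinearMap.lTensor (Sl k) (GRA.NN k j) 0 = ((a.1 j : ℕ) : k) • (0 : Sl k ⊗[k] Alt k)
      rw [map_zero, smul_zero]
    · exact NB_piece k j a.1 _ (bB_mem k a)

theorem slD_cw1_bL (i : Idx k) :
    slD k (Alt k) (cw1 k) (bL k i) = ((wtI k i).1 : k) • bL k i := by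
  rcases i with ⟨s, a⟩ | a
  · rw [bL_inl]
    apply ABG_ext
    · change LinearMap.rTensor (Alt k) (lieS k (cw1 k)) (bSl k s ⊗ₜ[k] bA k a) =
        ((wS s).1 : k) • (bSl k s ⊗ₜ[k] bA k a)
      rw [LinearMap.rTensor_tmul, lie_cw1, ← TensorProduct.smul_tmul']
    · exact (smul_zero (A := BB k (Alt k)) _).symm
  · rw [bL_inr]
    apply ABG_ext
    · change LinearMap.rTensor (Alt k) (lieS k (cw1 k)) 0 = (((0 : ℤ) : k)) • (0 : Sl k ⊗[k] Alt k)
      rw [map_zero, smul_zero]
    · change (0 : BB k (Alt k)) = ((0 : ℤ) : k) • bB k a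
      rw [Int.cast_zero, zero_smul]

theorem slD_cw2_bL (i : Idx k) :
    slD k (Alt k) (cw2 k) (bL k i) = ((wtI k i).2 : k) • bL k i := by
  rcases i with ⟨s, a⟩ | a
  · rw [bL_inl]
    apply ABG_ext
    · change LinearMap.rTensor (Alt k) (lieS k (cw2 k)) (bSl k s ⊗ₜ[k] bA k a) =
        ((wS s).2 : k) • (bSl k s ⊗ₜ[k] bA k a)
      rw [LinearMap.rTensor_tmul, lie_cw2, ← TensorProduct.smul_tmul']
    · exact (smul_zero (A := BB k (Alt k)) _).symm
  · rw [bL_inr]
    apply ABG_ext
    · change LinearMap.rTensor (Alt k) (lieS k (cw2 k)) 0 = (((0 : ℤ) : k)) • (0 : Sl k ⊗[k] Alt k)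
      rw [map_zero, smul_zero]
    · change (0 : BB k (Alt k)) = ((0 : ℤ) : k) • bB k a
      rw [Int.cast_zero, zero_smul]

end

end Run7.h547.SG
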