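import Pool.Agent.Run7.h547.SG.Spec
import Pool.Agent.Run7.h547.SG.Stmt

/-! `Alt k` is a free alternative algebra on three generators in the sense of `Spec`. -/

set_option autoImplicit false

namespace Run7.h547.SG

open Run7.h187.Sh TensorProduct Matrix

universe u

section

variable (k : Type u) [Field k]

/-- the ring structure of an alternative multiplication -/
@[reducible]
def ringOf {B : Type u} [AddCommGroup B] [Module k B] (n : B → B → B) (h : SH.IsAlt k n) :
    NonUnitalNonAssocRing B :=
  { (inferInstance : AddCommGroup B) with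
    mul := n
    left_distrib := fun a b c => (h.bil.2 a).map_add b c
    right_distrib := fun a b c => (h.bil.1 c).map_add a b
    zero_mul := fun a => (h.bil.1 a).map_zero
    mul_zero := fun a => (h.bil.2 a).map_zero }

theorem exists_lift {B : Type u} [AddCommGroup B] [Module k B] (n : B → B → B) (y : Fin 3 → B)
    (h : SH.IsAlt k n) : ∃ F : FreeNonUnitalNonAssocAlgebra k (Fin 3) →ₗ[k] B,
      (∀ a b, F (a * b) = n (F a) (F b)) ∧
      (∀ i, F (FreeNonUnitalNonAssocAlgebra.of k i) = y i) ∧
      ∀ G : FreeNonUnitalNonAssocAlgebra k (Fin 3) →ₗ[k] B,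
        (∀ a b, G (a * b) = n (G a) (G b)) →
        (∀ i, G (FreeNonUnitalNonAssocAlgebra.of k i) = y i) → G = F := by
  let _ := ringOf k n h
  have : IsScalarTower k B B := ⟨fun c x z => (h.bil.1 z).map_smul c x⟩
  have : SMulCommClass k B B := ⟨fun c x z => ((h.bil.2 x).map_smul c z).symm⟩
  let F := FreeNonUnitalNonAssocAlgebra.lift k y
  refine ⟨{ toFun := F, map_add' := F.map_add', map_smul' := F.map_smul' }, ?_, ?_, ?_⟩
  · intro a b
    exact F.map_mul' a b
  · intro i
    exact FreeNonUnitalNonAssocAlgebra.lift_of_apply k y i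
  · intro G h1 h2
    let G' : FreeNonUnitalNonAssocAlgebra k (Fin 3) →ₙₐ[k] B :=
      { toFun := G
        map_smul' := G.map_smul'
        map_zero' := map_zero G
        map_add' := G.map_add'
        map_mul' := h1 }
    have e : G' = F := by
      apply FreeNonUnitalNonAssocAlgebra.hom_ext
      intro i
      exact (h2 i).trans (FreeNonUnitalNonAssocAlgebra.lift_of_apply k y i).symm
    refine LinearMap.ext fun a => ?_
    exact DFunLike.congr_fun e a

/-- the generators of `Alt k` -/
noncomputable def gen (i : Fin 3) : Alt k := (altIdeal k).mkQ (FreeNonUnitalNonAssocAlgebra.of k i)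

theorem alt_mul_mk (a b : FreeNonUnitalNonAssocAlgebra k (Fin 3)) :
    (altIdeal k).mkQ a * (altIdeal k).mkQ b = (altIdeal k).mkQ (a * b) := rfl

theorem isAlt_alt [CharZero k] : SH.IsAlt k (fun p q : Alt k => p * q) where
  bil := ⟨fun v => ⟨fun a b => add_mul a b v, fun c a => smul_mul_assoc c a v⟩,
    fun a => ⟨fun u v => mul_add a u v, fun c u => mul_smul_comm c a u⟩⟩
  left_alt := IsAlternative.left_alt
  right_alt := IsAlternative.right_alt

theorem isFreeAlt_alt [CharZero k] : SH.IsFreeAlt k (fun p q : Alt k => p * q) (gen k) where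
  alt := isAlt_alt k
  free B _ _ n y h := by
    obtain ⟨F, h1, h2, h3⟩ := exists_lift k n y h
    have hJ : IsAltIdeal k (LinearMap.ker F) := by
      constructor
      · intro a x hx
        rw [LinearMap.mem_ker] at hx ⊢
        rw [h1, hx]
        exact (h.bil.2 _).map_zero
      · intro a x hx
        rw [LinearMap.mem_ker] at hx ⊢
        rw [h1, hx]
        exact (h.bil.1 _).map_zero
      · intro a b
        rw [LinearMap.mem_ker, map_sub, h1, h1, h1, h1, h.left_alt, sub_self]
      · intro a b
        rw [LinearMap.mem_ker, map_sub, h1, h1, h1, h1, h.right_alt, sub_self]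
    have hle : altIdeal k ≤ LinearMap.ker F := sInf_le hJ
    have hq : ∀ a, (altIdeal k).liftQ F hle ((altIdeal k).mkQ a) = F a := fun a => rfl
    refine ⟨(altIdeal k).liftQ F hle, ⟨⟨map_add _, map_smul _⟩, ?_, ?_⟩, ?_⟩
    · intro p q
      obtain ⟨a, rfl⟩ := (altIdeal k).mkQ_surjective p
      obtain ⟨b, rfl⟩ := (altIdeal k).mkQ_surjective q
      rw [alt_mul_mk, hq, hq, hq, h1]
    · intro i
      exact h2 i
    · rintro g ⟨g1, g2, g3⟩
      have e := h3 ((g1.mk' g).comp (altIdeal k).mkQ) (by
        intro a b
        exact g2 ((altIdeal k).mkQ a) ((altIdeal k).mkQ b)) (by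
        intro i
        exact g3 i)
      funext p
      obtain ⟨a, rfl⟩ := (altIdeal k).mkQ_surjective p
      rw [hq, ← e]
      rfl

end

end Run7.h547.SG
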