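import Pool.Agent.Run7.h547.SG.Brg1

/-! `ABG k (Alt k)` is the Allison–Benkart–Gao Lie algebra of `Alt k` in the sense of `Spec`. -/

set_option autoImplicit false

namespace Run7.h547.SG

open Run7.h187.Sh TensorProduct Matrix

universe u

section

variable (k : Type u) [Field k] [CharZero k]

/-- the projection of `M₃(k)` onto `sl₃` -/
noncomputable def toSl : Matrix (Fin 3) (Fin 3) k →ₗ[k] Sl k where
  toFun X := ⟨X - (1 / 3 * trace X : k) • (1 : Matrix (Fin 3) (Fin 3) k), by
    change trace (X - (1 / 3 * trace X : k) • (1 : Matrix (Fin 3) (Fin 3) k)) = 0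
    rw [trace_sub, trace_smul, trace_one]
    simp only [smul_eq_mul, Fintype.card_fin]
    push_cast
    ring⟩
  map_add' X Y := by
    apply Subtype.ext
    change X + Y - (1 / 3 * trace (X + Y) : k) • (1 : Matrix (Fin 3) (Fin 3) k) =
      (X - (1 / 3 * trace X : k) • (1 : Matrix (Fin 3) (Fin 3) k)) +
      (Y - (1 / 3 * trace Y : k) • (1 : Matrix (Fin 3) (Fin 3) k))
    rw [trace_add]
    module
  map_smul' c X := by
    apply Subtype.ext
    change c • X - (1 / 3 * trace (c • X) : k) • (1 : Matrix (Fin 3) (Fin 3) k) =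
      c • (X - (1 / 3 * trace X : k) • (1 : Matrix (Fin 3) (Fin 3) k))
    rw [trace_smul, smul_eq_mul]
    module

theorem toSl_val (X : Matrix (Fin 3) (Fin 3) k) :
    (toSl k X).1 = X - (1 / 3 * trace X : k) • (1 : Matrix (Fin 3) (Fin 3) k) := rfl

theorem toSl_of (X : Sl k) : toSl k X.1 = X := by
  apply Subtype.ext
  rw [toSl_val, Sl_trace, mul_zero, zero_smul, sub_zero]

theorem toSl_of_trace (X : Matrix (Fin 3) (Fin 3) k) (h : trace X = 0) : (toSl k X).1 = X := by
  rw [toSl_val, h, mul_zero, zero_smul, sub_zero]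

theorem toSl_one : toSl k 1 = 0 := by
  apply Subtype.ext
  rw [toSl_val, trace_one]
  simp only [Fintype.card_fin]
  push_cast
  rw [one_div, inv_mul_cancel₀ (by norm_num), one_smul, sub_self]

variable {k} in
/-- `X ⊗ p` -/
noncomputable def tt (X : Matrix (Fin 3) (Fin 3) k) (p : Alt k) : ABG k (Alt k) :=
  ((toSl k X ⊗ₜ[k] p, 0) : (Sl k ⊗[k] Alt k) × BB k (Alt k))

variable {k} in
/-- `p ∧ q` -/
noncomputable def ww (p q : Alt k) : ABG k (Alt k) :=
  ((0, wd k (Alt k) p q) : (Sl k ⊗[k] Alt k) × BB k (Alt k))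

theorem ABG_induction {P : ABG k (Alt k) → Prop} (h0 : P 0) (h1 : ∀ X p, P (tt X p))
    (h2 : ∀ p q, P (ww p q)) (h3 : ∀ u v, P u → P v → P (u + v)) (u : ABG k (Alt k)) : P u := by
  obtain ⟨a, b⟩ := u
  have e : ((a, b) : (Sl k ⊗[k] Alt k) × BB k (Alt k)) =
      ((a, 0) : (Sl k ⊗[k] Alt k) × BB k (Alt k)) + ((0, b) : (Sl k ⊗[k] Alt k) × BB k (Alt k)) := by
    rw [Prod.mk_add_mk, add_zero, zero_add]
  have ha : P ((a, 0) : (Sl k ⊗[k] Alt k) × BB k (Alt k)) := by
    clear e
    induction a using TensorProduct.induction_on with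
    | zero => exact h0
    | tmul X p =>
      have := h1 X.1 p
      rw [tt, toSl_of] at this
      exact this
    | add x y hx hy =>
      have e' : ((x + y, 0) : (Sl k ⊗[k] Alt k) × BB k (Alt k)) =
        ((x, 0) : (Sl k ⊗[k] Alt k) × BB k (Alt k)) +
          ((y, 0) : (Sl k ⊗[k] Alt k) × BB k (Alt k)) := by
        rw [Prod.mk_add_mk, add_zero]
      have := h3 _ _ hx hy
      exact e' ▸ this
  have hb : P ((0, b) : (Sl k ⊗[k] Alt k) × BB k (Alt k)) := by
    refine BB_induction (P := fun b => P ((0, b) : (Sl k ⊗[k] Alt k) × BB k (Alt k))) h0 h2 ?_ b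
    intro x y hx hy
    have e' : ((0, x + y) : (Sl k ⊗[k] Alt k) × BB k (Alt k)) =
        ((0, x) : (Sl k ⊗[k] Alt k) × BB k (Alt k)) +
          ((0, y) : (Sl k ⊗[k] Alt k) × BB k (Alt k)) := by
      rw [Prod.mk_add_mk, add_zero]
    have := h3 _ _ hx hy
    exact e' ▸ this
  have := h3 _ _ ha hb
  exact e ▸ this

theorem isPair_tw : SH.IsPair k (fun p q : Alt k => p * q) (tt (k := k)) (ww (k := k)) where
  t_bil := by
    refine ⟨fun p => ⟨fun X Y => ?_, fun c X => ?_⟩, fun X => ⟨fun p q => ?_, fun c p => ?_⟩⟩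
    · apply ABG_ext
      · change toSl k (X + Y) ⊗ₜ[k] p = toSl k X ⊗ₜ[k] p + toSl k Y ⊗ₜ[k] p
        rw [map_add, TensorProduct.add_tmul]
      · exact (add_zero (0 : BB k (Alt k))).symm
    · apply ABG_ext
      · change toSl k (c • X) ⊗ₜ[k] p = c • (toSl k X ⊗ₜ[k] p)
        rw [map_smul, TensorProduct.smul_tmul']
      · exact (smul_zero (A := BB k (Alt k)) c).symm
    · apply ABG_ext
      · exact TensorProduct.tmul_add _ _ _
      · exact (add_zero (0 : BB k (Alt k))).symm
    · apply ABG_ext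
      · exact TensorProduct.tmul_smul _ _ _
      · exact (smul_zero (A := BB k (Alt k)) c).symm
  t_one p := by
    apply ABG_ext
    · change toSl k 1 ⊗ₜ[k] p = 0
      rw [toSl_one, TensorProduct.zero_tmul]
    · rfl
  w_bil := by
    refine ⟨fun p => ⟨fun X Y => ?_, fun c X => ?_⟩, fun X => ⟨fun p q => ?_, fun c p => ?_⟩⟩
    · apply ABG_ext
      · exact (add_zero (0 : Sl k ⊗[k] Alt k)).symm
      · change wd k (Alt k) (X + Y) p = wd k (Alt k) X p + wd k (Alt k) Y p
        rw [map_add, LinearMap.add_apply]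
    · apply ABG_ext
      · exact (smul_zero (A := Sl k ⊗[k] Alt k) c).symm
      · change wd k (Alt k) (c • X) p = c • wd k (Alt k) X p
        rw [map_smul, LinearMap.smul_apply]
    · apply ABG_ext
      · exact (add_zero (0 : Sl k ⊗[k] Alt k)).symm
      · exact map_add (wd k (Alt k) X) p q
    · apply ABG_ext
      · exact (smul_zero (A := Sl k ⊗[k] Alt k) c).symm
      · exact map_smul (wd k (Alt k) X) c p
  w_self p := by
    apply ABG_ext
    · rfl
    · exact wd_self p
  w_cyc p q r := by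
    apply ABG_ext
    · change (0 : Sl k ⊗[k] Alt k) + 0 + 0 = 0
      rw [add_zero, add_zero]
    · exact wd_cyc p q r

/-- existence in the universal property -/
theorem exists_univ {V : Type u} [AddCommGroup V] [Module k V]
    (t' : Matrix (Fin 3) (Fin 3) k → Alt k → V) (w' : Alt k → Alt k → V)
    (h : SH.IsPair k (fun p q : Alt k => p * q) t' w') :
    ∃ f : ABG k (Alt k) → V, IsLinearMap k f ∧ (∀ X p, f (tt X p) = t' X p) ∧
      ∀ p q, f (ww p q) = w' p q := by
  let T : Sl k →ₗ[k] Alt k →ₗ[k] V :=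
    LinearMap.mk₂ k (fun X p => t' X.1 p) (fun X Y p => (h.t_bil.1 p).map_add X.1 Y.1)
      (fun c X p => (h.t_bil.1 p).map_smul c X.1) (fun X p q => (h.t_bil.2 X.1).map_add p q)
      (fun c X p => (h.t_bil.2 X.1).map_smul c p)
  let W : Alt k →ₗ[k] Alt k →ₗ[k] V :=
    LinearMap.mk₂ k w' (fun p q r => (h.w_bil.1 r).map_add p q)
      (fun c p q => (h.w_bil.1 q).map_smul c p) (fun p q r => (h.w_bil.2 p).map_add q r)
      (fun c p q => (h.w_bil.2 p).map_smul c q)
  have hW : relB k (Alt k) ≤ LinearMap.ker (TensorProduct.lift W) := by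
    rw [relB, Submodule.span_le]
    rintro x (⟨p, rfl⟩ | ⟨p, q, r, rfl⟩)
    · rw [SetLike.mem_coe, LinearMap.mem_ker, TensorProduct.lift.tmul]
      exact h.w_self p
    · rw [SetLike.mem_coe, LinearMap.mem_ker, map_add, map_add, TensorProduct.lift.tmul,
        TensorProduct.lift.tmul, TensorProduct.lift.tmul]
      exact h.w_cyc p q r
  let f : ((Sl k ⊗[k] Alt k) × BB k (Alt k)) →ₗ[k] V :=
    (TensorProduct.lift T).coprod ((relB k (Alt k)).liftQ (TensorProduct.lift W) hW)
  refine ⟨f, ⟨f.map_add, f.map_smul⟩, ?_, ?_⟩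
  · intro X p
    have e : f ((toSl k X ⊗ₜ[k] p, 0) : (Sl k ⊗[k] Alt k) × BB k (Alt k)) =
        t' (X - (1 / 3 * trace X : k) • (1 : Matrix (Fin 3) (Fin 3) k)) p := by
      rw [LinearMap.coprod_apply, map_zero, add_zero, TensorProduct.lift.tmul]
      rfl
    refine e.trans ?_
    rw [(h.t_bil.1 p).map_sub, (h.t_bil.1 p).map_smul, h.t_one, smul_zero, sub_zero]
  · intro p q
    have e : f ((0, wd k (Alt k) p q) : (Sl k ⊗[k] Alt k) × BB k (Alt k)) = w' p q := by
      rw [LinearMap.coprod_apply, map_zero, zero_add]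
      rfl
    exact e

theorem isABG_alt : SH.IsABG k (fun p q : Alt k => p * q) (tt (k := k)) (ww (k := k))
    (fun u v : ABG k (Alt k) => ⁅u, v⁆) where
  pair := isPair_tw k
  univ V _ _ t' w' h := by
    obtain ⟨f, h1, h2, h3⟩ := exists_univ k t' w' h
    refine ⟨f, ⟨h1, h2, h3⟩, ?_⟩
    rintro g ⟨g1, g2, g3⟩
    funext u
    refine ABG_induction k (P := fun u => g u = f u) ?_ ?_ ?_ ?_ u
    · exact g1.map_zero.trans h1.map_zero.symm
    · intro X p
      rw [g2, h2]
    · intro p q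
      rw [g3, h3]
    · intro u v hu hv
      rw [g1.map_add, h1.map_add, hu, hv]
  br_bil := ⟨fun v => ⟨fun a b => add_lie a b v, fun c a => smul_lie c a v⟩,
    fun a => ⟨fun u v => lie_add a u v, fun c u => lie_smul c a u⟩⟩
  br_self x := lie_self x
  br_tt X Y p q hX hY := by
    have e1 : lieS k (toSl k X) (toSl k Y) = toSl k (SH.co k X Y) := by
      apply Subtype.ext
      rw [lieS_val, toSl_of_trace k X hX, toSl_of_trace k Y hY, SH.co, toSl_of_trace]
      rw [trace_sub, trace_mul_comm, sub_self]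
    have e2 : symS k (toSl k X) (toSl k Y) = toSl k (SH.sy k X Y) := by
      have h := symS_val k (toSl k X) (toSl k Y)
      rw [toSl_of_trace k X hX, toSl_of_trace k Y hY] at h
      have h' : (symS k (toSl k X) (toSl k Y)).1 = SH.sy k X Y := by
        rw [h, SH.sy, mul_smul]
      rw [← h', toSl_of]
    apply ABG_ext
    · rw [lie_fst, ABG_add_fst, ABG_add_fst, ABG_smul_fst]
      change slP k (Alt k) (toSl k X ⊗ₜ p) (toSl k Y ⊗ₜ q) + mP k (Alt k) 0 (toSl k Y ⊗ₜ q)
        - mP k (Alt k) 0 (toSl k X ⊗ₜ p) = toSl k (SH.co k X Y) ⊗ₜ ((1 / 2 : k) • (p * q + q * p))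
        + toSl k (SH.sy k X Y) ⊗ₜ (p * q - q * p)
        + (1 / 3 * trace (X * Y) : k) • (0 : Sl k ⊗[k] Alt k)
      rw [slP_tmul, jor_apply, com_apply, e1, e2, map_zero, LinearMap.zero_apply,
        LinearMap.zero_apply, smul_zero, add_zero]
      exact sub_zero _
    · rw [lie_snd, ABG_add_snd, ABG_add_snd, ABG_smul_snd]
      change bP k (Alt k) (toSl k X ⊗ₜ p) (toSl k Y ⊗ₜ q) + actB k (Alt k) 0 0 =
        (0 : BB k (Alt k)) + 0 + (1 / 3 * trace (X * Y) : k) • wd k (Alt k) p q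
      rw [bP_tmul, map_zero, add_zero, add_zero, zero_add, toSl_of_trace k X hX,
        toSl_of_trace k Y hY, mul_smul]
  br_wt X p q r := by
    apply ABG_ext
    · rw [lie_fst]
      change slP k (Alt k) 0 (toSl k X ⊗ₜ r) + mP k (Alt k) (wd k (Alt k) p q) (toSl k X ⊗ₜ r)
        - mP k (Alt k) 0 0 = toSl k X ⊗ₜ dd p q r
      rw [mP_tmul, map_zero, LinearMap.zero_apply, map_zero, zero_add, sub_zero, dB_wd]
    · rw [lie_snd]
      change bP k (Alt k) 0 (toSl k X ⊗ₜ r) + actB k (Alt k) (wd k (Alt k) p q) 0 = 0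
      rw [map_zero, map_zero, LinearMap.zero_apply, add_zero]
  br_ww p q r s := by
    apply ABG_ext
    · rw [lie_fst, ABG_add_fst]
      change slP k (Alt k) 0 0 + mP k (Alt k) (wd k (Alt k) p q) 0
        - mP k (Alt k) (wd k (Alt k) r s) 0 = (0 : Sl k ⊗[k] Alt k) + 0
      rw [map_zero, map_zero, map_zero, add_zero, sub_zero]
    · rw [lie_snd, ABG_add_snd]
      change bP k (Alt k) 0 0 + actB k (Alt k) (wd k (Alt k) p q) (wd k (Alt k) r s) =
        wd k (Alt k) (dd p q r) s + wd k (Alt k) r (dd p q s)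
      rw [actB_wd, dB_wd, dB_wd, map_zero, zero_add]

end

end Run7.h547.SG
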