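import Pool.Agent.Run7.h547.SG.Iface

/-! Piece CNT: the coefficients of `λ(a[adj]+b[triv])` as signed numbers of subsets. -/

set_option autoImplicit false

namespace Run7.h547.SG.CNT

universe u

open Run7.h187.Sh MvPowerSeries

theorem pw_nat (f : Ser) (n : ℕ) : pw f (n : ℤ) = f ^ n := by
  rw [pw]
  simp

theorem zz_mul' (v w : ℤ × ℤ) : zz v * zz w = zz (v + w) := by
  rw [zz, zz, AddMonoidAlgebra.single_mul_single, one_mul, zz]

theorem prod_mono {I : Type u} [DecidableEq I] (dg : I → Deg) (wt : I → ℤ × ℤ) (S : Finset I) :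
    ∏ i ∈ S, (monomial (dg i) (zz (wt i)) : Ser) =
      monomial (∑ i ∈ S, dg i) (zz (∑ i ∈ S, wt i)) := by
  induction S using Finset.induction_on with
  | empty =>
    rw [Finset.prod_empty, Finset.sum_empty, Finset.sum_empty]
    rfl
  | insert i S hi ih =>
    rw [Finset.prod_insert hi, Finset.sum_insert hi, Finset.sum_insert hi, ih,
      monomial_mul_monomial, zz_mul']

theorem factor_nat (p : Deg) (a b : ℕ) :
    factor p a b = ∏ w ∈ insert 0 roots, bin p w ^ (if w ∈ roots then a else 2 * a + b) := by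
  rw [Finset.prod_insert (by decide), factor]
  have h2 : (2 * (a : ℤ) + (b : ℤ)) = ((2 * a + b : ℕ) : ℤ) := by push_cast; ring
  have h3 : ∏ w ∈ roots, pw (bin p w) (a : ℤ) =
      ∏ w ∈ roots, bin p w ^ (if w ∈ roots then a else 2 * a + b) :=
    Finset.prod_congr rfl fun w hw => by rw [pw_nat, if_pos hw]
  have h4 : bin p 0 ^ (if (0 : ℤ × ℤ) ∈ roots then a else 2 * a + b) = bin p 0 ^ (2 * a + b) := by
    rw [if_neg (by decide)]
  rw [h2, pw_nat, h3, h4, mul_comm]

theorem p_CNT : S_CNT.{u} := by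
  intro m a b I _ _ dg wt h0 hm hcard w
  have hmem : ∀ i : I, (dg i, wt i) ∈ ((Finset.Iic m).erase 0) ×ˢ (insert 0 roots) := by
    intro i
    refine Finset.mem_product.2 ⟨Finset.mem_erase.2 ⟨h0 i, Finset.mem_Iic.2 (hm i)⟩, ?_⟩
    by_contra hw
    rw [Finset.mem_insert, not_or] at hw
    have h1 := hcard (dg i) (h0 i) (hm i) (wt i)
    rw [if_neg hw.2, if_neg hw.1] at h1
    have h2 : Nonempty {j // dg j = dg i ∧ wt j = wt i} := ⟨⟨i, rfl, rfl⟩⟩
    have h3 : 0 < Nat.card {j // dg j = dg i ∧ wt j = wt i} := Nat.card_pos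
    omega
  have hprod : ∏ p ∈ (Finset.Iic m).erase 0, factor p (a p : ℤ) (b p : ℤ) =
      ∏ i : I, bin (dg i) (wt i) := by
    rw [← Finset.prod_fiberwise_of_maps_to (s := Finset.univ)
      (t := ((Finset.Iic m).erase 0) ×ˢ (insert 0 roots)) (g := fun i => (dg i, wt i))
      (fun i _ => hmem i), Finset.prod_product]
    refine Finset.prod_congr rfl fun p hp => ?_
    rw [factor_nat]
    refine Finset.prod_congr rfl fun v hv => ?_
    have h1 : ∏ i : I with (dg i, wt i) = (p, v), bin (dg i) (wt i) =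
        ∏ i : I with (dg i, wt i) = (p, v), bin p v := by
      refine Finset.prod_congr rfl fun i hi => ?_
      have h2 := (Finset.mem_filter.1 hi).2
      rw [Prod.mk.injEq] at h2
      rw [h2.1, h2.2]
    rw [h1, Finset.prod_const]
    congr 1
    have hp' := Finset.mem_erase.1 hp
    have h3 := hcard p hp'.1 (Finset.mem_Iic.1 hp'.2) v
    have h4 : Nat.card {i // dg i = p ∧ wt i = v} =
        (Finset.univ.filter fun i : I => (dg i, wt i) = (p, v)).card := by
      rw [Nat.card_eq_fintype_card, Fintype.card_subtype]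
      congr 1
      ext i
      simp [Prod.mk.injEq]
    rw [← h4, h3]
    by_cases hv' : v ∈ roots
    · rw [if_pos hv', if_pos hv']
    · rw [if_neg hv', if_neg hv', if_pos ((Finset.mem_insert.1 hv).resolve_right hv')]
  rw [lamCoeff, hprod]
  have hexp : ∏ i : I, bin (dg i) (wt i) = ∑ S : Finset I,
      ((-1 : ℤ) ^ S.card) • (monomial (∑ i ∈ S, dg i) (zz (∑ i ∈ S, wt i)) : Ser) := by
    simp only [bin, sub_eq_add_neg]
    rw [Finset.prod_one_add, Finset.powerset_univ]
    refine Finset.sum_congr rfl fun S _ => ?_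
    rw [Finset.prod_neg, prod_mono, zsmul_eq_mul]
    congr 1
    push_cast
    rfl
  rw [hexp, map_sum, AddMonoidAlgebra.coeff_sum, Finsupp.finsetSum_apply, Finset.sum_filter]
  refine Finset.sum_congr rfl fun S _ => ?_
  rw [map_zsmul, AddMonoidAlgebra.coeff_smul, Finsupp.smul_apply, coeff_monomial]
  by_cases h1 : ∑ i ∈ S, dg i = m
  · rw [if_pos h1.symm, zz, AddMonoidAlgebra.coeff_single]
    by_cases h2 : ∑ i ∈ S, wt i = w
    · rw [if_pos ⟨h1, h2⟩, h2, Finsupp.single_eq_same, smul_eq_mul, mul_one]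
    · rw [if_neg (fun h => h2 h.2), Finsupp.single_eq_of_ne (Ne.symm h2), smul_zero]
  · rw [if_neg (Ne.symm h1), if_neg (fun h => h1 h.1)]
    simp

end Run7.h547.SG.CNT
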