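import Pool.Agent.Run7.h547.SG.Iface

/-! Piece EUL: vanishing supertrace of an exact complex. -/

set_option autoImplicit false

namespace Run7.h547.SG.EUL

universe u v

theorem p_EUL : S_EUL.{u, v} := by
  intro k _ _ U _ _ _ π ε d hπ _ _ hdπ hdε hdd hex
  have hππ : ∀ x, π (π x) = π x := fun x => LinearMap.congr_fun hπ x
  have hdp : ∀ x, π (d x) = d (π x) := fun x => (LinearMap.congr_fun hdπ.eq x).symm
  have hdd' : ∀ x, d (d x) = 0 := fun x => LinearMap.congr_fun hdd x
  set d' : Module.End k U := d * π with hd'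
  obtain ⟨g0, hg0⟩ := LinearMap.exists_rightInverse_of_surjective d'.rangeRestrict
    (LinearMap.range_rangeRestrict d')
  obtain ⟨g, hg⟩ := LinearMap.exists_extend g0
  set s : Module.End k U := π * g with hs
  have hds : ∀ z ∈ LinearMap.range d', d (s z) = z := by
    intro z hz
    have h1 : g z = g0 ⟨z, hz⟩ := LinearMap.congr_fun hg ⟨z, hz⟩
    have h2 : d' (g0 ⟨z, hz⟩) = z := congrArg Subtype.val (LinearMap.congr_fun hg0 ⟨z, hz⟩)
    rw [← h1] at h2
    exact h2
  have hπs : ∀ z, π (s z) = s z := fun z => hππ _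
  set h : Module.End k U := s * (1 - s * d) * π with hh
  have key : π = d * h + h * d := by
    refine LinearMap.ext fun x => ?_
    have hv : d (π x) ∈ LinearMap.range d' := ⟨x, rfl⟩
    have e1 : π (π x - s (d (π x))) = π x - s (d (π x)) := by
      rw [map_sub, hππ, hπs]
    have e2 : d (π x - s (d (π x))) = 0 := by
      rw [map_sub, hds _ hv, sub_self]
    obtain ⟨y, hy⟩ := hex _ e1 e2
    have e3 : π x - s (d (π x)) ∈ LinearMap.range d' := by
      refine ⟨y, ?_⟩
      show d (π y) = _
      rw [← hdp, hy, e1]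
    have e4 : d (h x) = π x - s (d (π x)) := hds _ e3
    have e5 : h (d x) = s (d (π x)) := by
      show s (π (d x) - s (d (π (d x)))) = _
      rw [hdp, hdd', map_zero, sub_zero]
    show π x = d (h x) + h (d x)
    rw [e4, e5]
    abel
  have e6 : LinearMap.trace k U (ε * (h * d)) = -LinearMap.trace k U (ε * (d * h)) := by
    rw [← mul_assoc, LinearMap.trace_mul_comm, ← mul_assoc, hdε, neg_mul, map_neg, mul_assoc]
  rw [key, mul_add, map_add, e6]
  exact add_neg_cancel _

end Run7.h547.SG.EUL
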