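import Pool.Agent.Run7.h547.SG.CE

/-!
Diagonal operators on the exterior algebra in a monomial basis, homogeneous components.
-/

set_option autoImplicit false

namespace Run7.h547.SG

open ExteriorAlgebra

section

variable {k L : Type*} [Field k] [LieRing L] [LieAlgebra k L] {I : Type*} [LinearOrder I]
  (b : Module.Basis I k L)

/-- the exterior monomial basis -/
theorem bE_eq (S : Finset I) : b.ExteriorAlgebra S =
    ((List.ofFn (S.orderEmbOfFin rfl)).map (fun i => ι k (b i))).prod := by
  rw [ExteriorAlgebra.basis_apply, ιMulti_family, ιMulti_apply, List.map_ofFn]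
  rfl

theorem th_list (δ : L →ₗ[k] L) (lam : I → k) (h : ∀ i, δ (b i) = lam i • b i) (l : List I) :
    th δ (l.map (fun i => ι k (b i))).prod
      = (l.map lam).sum • (l.map (fun i => ι k (b i))).prod := by
  induction l with
  | nil =>
    simp only [List.map_nil, List.prod_nil, List.sum_nil, zero_smul]
    rw [← map_one (algebraMap k _), th_algebraMap]
  | cons i l ih =>
    simp only [List.map_cons, List.prod_cons, List.sum_cons]
    rw [th_ι_mul, ih, h, map_smul, add_smul, smul_mul_assoc, mul_smul_comm]

theorem sum_ofFn_map (S : Finset I) {M : Type*} [AddCommMonoid M] (f : I → M) :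
    ((List.ofFn (S.orderEmbOfFin rfl)).map f).sum = ∑ i ∈ S, f i := by
  rw [List.map_ofFn, List.sum_ofFn]
  conv_rhs => rw [← Finset.map_orderEmbOfFin_univ S rfl, Finset.sum_map]
  rfl

theorem th_bE (δ : L →ₗ[k] L) (lam : I → k) (h : ∀ i, δ (b i) = lam i • b i) (S : Finset I) :
    th δ (b.ExteriorAlgebra S) = (∑ i ∈ S, lam i) • b.ExteriorAlgebra S := by
  rw [bE_eq, th_list b δ lam h, sum_ofFn_map]

variable (k L) in
/-- the sign operator: `(-1)^n` on `Λⁿ` -/
noncomputable def sg : Module.End k (ExteriorAlgebra k L) :=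
  (CliffordAlgebra.involute : CliffordAlgebra (0 : QuadraticForm k L) →ₐ[k] _).toLinearMap

theorem sg_algebraMap (r : k) : sg k L (algebraMap k _ r) = algebraMap k _ r :=
  AlgHom.commutes (CliffordAlgebra.involute : CliffordAlgebra (0 : QuadraticForm k L) →ₐ[k] _) r

theorem sg_ι_mul (x : L) (w : ExteriorAlgebra k L) : sg k L (ι k x * w) = - (ι k x * sg k L w) := by
  change CliffordAlgebra.involute (CliffordAlgebra.ι (0 : QuadraticForm k L) x * w) = _
  rw [map_mul, CliffordAlgebra.involute_ι, neg_mul]
  rfl

theorem sg_sg (w : ExteriorAlgebra k L) : sg k L (sg k L w) = w :=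
  CliffordAlgebra.involute_involute (Q := (0 : QuadraticForm k L)) w

theorem sg_th (δ : L →ₗ[k] L) (w : ExteriorAlgebra k L) : sg k L (th δ w) = th δ (sg k L w) := by
  refine ext_induction (P := fun w => sg k L (th δ w) = th δ (sg k L w)) ?_ ?_ ?_ w
  · intro r; simp only [th_algebraMap, sg_algebraMap, map_zero]
  · intro w v hw hv; simp only [map_add, hw, hv]
  · intro y w hw
    rw [th_ι_mul, map_add, sg_ι_mul, sg_ι_mul, sg_ι_mul, hw, map_neg, th_ι_mul, neg_add]

theorem sg_bd (w : ExteriorAlgebra k L) : bd k L (sg k L w) = - sg k L (bd k L w) := by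
  refine ext_induction (P := fun w => bd k L (sg k L w) = - sg k L (bd k L w)) ?_ ?_ ?_ w
  · intro r; simp only [bd_algebraMap, sg_algebraMap, map_zero, neg_zero]
  · intro w v hw hv; simp only [map_add, hw, hv, neg_add]
  · intro y w hw
    rw [sg_ι_mul, map_neg, bd_ι_mul, bd_ι_mul, map_sub, sg_ι_mul, hw, sg_th, mul_neg]

theorem sg_bE (S : Finset I) : sg k L (b.ExteriorAlgebra S) =
    ((-1 : k) ^ S.card) • b.ExteriorAlgebra S := by
  have key : ∀ l : List I, sg k L (l.map (fun i => ι k (b i))).prod =
      ((-1 : k) ^ l.length) • (l.map (fun i => ι k (b i))).prod := by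
    intro l
    induction l with
    | nil =>
      simp only [List.map_nil, List.prod_nil, List.length_nil, pow_zero, one_smul]
      rw [← map_one (algebraMap k _), sg_algebraMap]
    | cons i l ih =>
      simp only [List.map_cons, List.prod_cons, List.length_cons]
      rw [sg_ι_mul, ih, pow_succ, mul_smul_comm, mul_neg_one, neg_smul]
  rw [bE_eq, key, List.length_ofFn]

/-! ### degrees -/

/-- `w` only involves the monomials `S` with `P S` -/
def Sup (P : Finset I → Prop) (w : ExteriorAlgebra k L) : Prop :=
  ∀ S, b.ExteriorAlgebra.repr w S ≠ 0 → P S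

theorem Sup_of_eigen {T : Module.End k (ExteriorAlgebra k L)} {c : Finset I → k} {μ : k}
    (hT : ∀ S, T (b.ExteriorAlgebra S) = c S • b.ExteriorAlgebra S)
    {w : ExteriorAlgebra k L} (hw : T w = μ • w) : Sup b (fun S => c S = μ) w := by
  have key : ∀ (w : ExteriorAlgebra k L) (S : Finset I), b.ExteriorAlgebra.repr (T w) S =
      c S * b.ExteriorAlgebra.repr w S := by
    intro w S
    have e : (Finsupp.lapply S) ∘ₗ b.ExteriorAlgebra.repr.toLinearMap ∘ₗ T =
        c S • ((Finsupp.lapply S) ∘ₗ b.ExteriorAlgebra.repr.toLinearMap) := by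
      apply b.ExteriorAlgebra.ext
      intro S'
      simp only [LinearMap.comp_apply, hT, LinearMap.smul_apply, map_smul, LinearEquiv.coe_coe,
        Module.Basis.repr_self, Finsupp.lapply_apply, smul_eq_mul]
      by_cases hS : S' = S
      · rw [hS]
      · rw [Finsupp.single_eq_of_ne (Ne.symm hS), mul_zero, mul_zero]
    exact LinearMap.congr_fun e w
  intro S hS
  have h := key w S
  rw [hw, map_smul, Finsupp.smul_apply, smul_eq_mul] at h
  exact (mul_right_cancel₀ hS h).symm

/-- projection onto the span of the monomials `S` with `P S` -/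
noncomputable def Pr (P : Finset I → Prop) : Module.End k (ExteriorAlgebra k L) := by
  classical
  exact b.ExteriorAlgebra.constr k (fun S => if P S then b.ExteriorAlgebra S else 0)

theorem Pr_bE_pos {P : Finset I → Prop} {S : Finset I} (h : P S) :
    Pr b P (b.ExteriorAlgebra S) = b.ExteriorAlgebra S := by
  classical
  rw [Pr, Module.Basis.constr_basis, if_pos h]

theorem Pr_bE_neg {P : Finset I → Prop} {S : Finset I} (h : ¬ P S) :
    Pr b P (b.ExteriorAlgebra S) = 0 := by
  classical
  rw [Pr, Module.Basis.constr_basis, if_neg h]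

theorem Sup_iff_mem (P : Finset I → Prop) (w : ExteriorAlgebra k L) :
    Sup b P w ↔ w ∈ Submodule.span k (Set.range (fun S : {S // P S} => b.ExteriorAlgebra S.1)) := by
  constructor
  · intro h
    rw [← b.ExteriorAlgebra.linearCombination_repr w, Finsupp.linearCombination_apply,
      Finsupp.sum]
    refine Submodule.sum_mem _ fun S hS => Submodule.smul_mem _ _ ?_
    exact Submodule.subset_span ⟨⟨S, h S (Finsupp.mem_support_iff.1 hS)⟩, rfl⟩
  · intro h
    refine Submodule.span_induction (p := fun w _ => Sup b P w) ?_ ?_ ?_ ?_ h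
    · rintro _ ⟨S, rfl⟩ S' hS'
      rw [Module.Basis.repr_self] at hS'
      by_contra hne
      apply hS'
      rw [Finsupp.single_eq_of_ne]
      rintro rfl
      exact hne S.2
    · intro S hS
      simp at hS
    · intro x y _ _ hx hy S hS
      rw [map_add, Finsupp.add_apply] at hS
      by_contra hne
      apply hS
      rw [of_not_not fun h' => hne (hx S h'), of_not_not fun h' => hne (hy S h'), add_zero]
    · intro c x _ hx S hS
      rw [map_smul, Finsupp.smul_apply] at hS
      by_contra hne
      apply hS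
      rw [of_not_not fun h' => hne (hx S h'), smul_zero]

theorem Pr_of_Sup {P : Finset I → Prop} {w : ExteriorAlgebra k L} (h : Sup b P w) :
    Pr b P w = w := by
  rw [Sup_iff_mem] at h
  refine Submodule.span_induction (p := fun w _ => Pr b P w = w) ?_ ?_ ?_ ?_ h
  · rintro _ ⟨S, rfl⟩
    exact Pr_bE_pos b S.2
  · exact map_zero _
  · intro x y _ _ hx hy; rw [map_add, hx, hy]
  · intro c x _ hx; rw [map_smul, hx]

theorem Pr_of_Sup_not {P Q : Finset I → Prop} (hPQ : ∀ S, Q S → ¬ P S)
    {w : ExteriorAlgebra k L} (h : Sup b Q w) : Pr b P w = 0 := by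
  rw [Sup_iff_mem] at h
  refine Submodule.span_induction (p := fun w _ => Pr b P w = 0) ?_ ?_ ?_ ?_ h
  · rintro _ ⟨S, rfl⟩
    exact Pr_bE_neg b (hPQ _ S.2)
  · exact map_zero _
  · intro x y _ _ hx hy; rw [map_add, hx, hy, add_zero]
  · intro c x _ hx; rw [map_smul, hx, smul_zero]

theorem Sup_Pr (P : Finset I → Prop) (w : ExteriorAlgebra k L) : Sup b P (Pr b P w) := by
  rw [Sup_iff_mem]
  have : ∀ S, Pr b P (b.ExteriorAlgebra S) ∈
      Submodule.span k (Set.range (fun S : {S // P S} => b.ExteriorAlgebra S.1)) := by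
    intro S
    by_cases h : P S
    · rw [Pr_bE_pos b h]; exact Submodule.subset_span ⟨⟨S, h⟩, rfl⟩
    · rw [Pr_bE_neg b h]; exact Submodule.zero_mem _
  rw [← b.ExteriorAlgebra.linearCombination_repr w, Finsupp.linearCombination_apply,
    Finsupp.sum, map_sum]
  refine Submodule.sum_mem _ fun S hS => ?_
  rw [map_smul]
  exact Submodule.smul_mem _ _ (this S)

/-- an operator which maps the monomial `S` into degree `g (deg S)` intertwines projections -/
theorem Pr_comm {Γ : Type*} (G : Finset I → Γ) (T : Module.End k (ExteriorAlgebra k L))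
    (g : Γ → Γ) (hg : Function.Injective g)
    (hT : ∀ S, Sup b (fun S' => G S' = g (G S)) (T (b.ExteriorAlgebra S))) (c : Γ)
    (w : ExteriorAlgebra k L) :
    T (Pr b (fun S => G S = c) w) = Pr b (fun S => G S = g c) (T w) := by
  have e : T ∘ₗ Pr b (fun S => G S = c) = Pr b (fun S => G S = g c) ∘ₗ T := by
    apply b.ExteriorAlgebra.ext
    intro S
    rw [LinearMap.comp_apply, LinearMap.comp_apply]
    by_cases h : G S = c
    · rw [Pr_bE_pos b (P := fun S => G S = c) h]
      symm
      apply Pr_of_Sup
      intro S' hS'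
      rw [hT S S' hS', h]
    · rw [Pr_bE_neg b (P := fun S => G S = c) h, map_zero]
      symm
      refine Pr_of_Sup_not b ?_ (hT S)
      intro S' h1 h2
      exact h (hg (h1.symm.trans h2))
  exact LinearMap.congr_fun e w

end

end Run7.h547.SG
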