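import Pool.Agent.Run7.h547.SG.Iface

/-! Piece HWA: highest weight vectors of weight `0` and `α₁ + α₂`. -/

set_option autoImplicit false

namespace Run7.h547.SG.HWA

universe u v

open Matrix LieAlgebra.SpecialLinear

/-! ### `sl₂` -/

section

attribute [local instance 100] LieRing.ofAssociativeRing

variable {k : Type u} [Field k] [CharZero k] {U : Type v} [AddCommGroup U] [Module k U]
  [FiniteDimensional k U]

theorem sl2_kill (E H F : Module.End k U) (hEF : E * F - F * E = H)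
    (hHE : H * E - E * H = (2 : k) • E) (hHF : H * F - F * H = -((2 : k) • F)) (n : ℕ) (x : U)
    (hE : E x = 0) (hH : H x = (n : k) • x) : (F ^ (n + 1)) x = 0 := by
  by_cases hx : x = 0
  · rw [hx, map_zero]
  by_cases hH0 : H = 0
  · have h1 : F = 0 := by
      rw [hH0, zero_mul, mul_zero, sub_zero] at hHF
      have h2 : (2 : k) • F = 0 := neg_eq_zero.1 hHF.symm
      exact (smul_eq_zero.1 h2).resolve_left (by norm_num)
    rw [h1, zero_pow (Nat.succ_ne_zero n), LinearMap.zero_apply]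
  · have t : IsSl2Triple (L := Module.End k U) H E F :=
      { h_ne_zero := hH0
        lie_e_f := by rw [Ring.lie_def, hEF]
        lie_h_e_nsmul := by rw [Ring.lie_def, hHE, ← Nat.cast_smul_eq_nsmul k]; norm_num
        lie_h_f_nsmul := by rw [Ring.lie_def, hHF, ← Nat.cast_smul_eq_nsmul k]; norm_num }
    have P : t.HasPrimitiveVectorWith (R := k) x (n : k) :=
      { ne_zero := hx
        lie_h := hH
        lie_e := hE }
    have h1 := P.pow_toEnd_f_eq_zero_of_eq_nat rfl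
    rwa [LieModule.toEnd_module_end] at h1

end

/-! ### The Lie algebra -/

section

variable {k : Type u} [Field k]

theorem el_val (i j : Fin 3) (h : i ≠ j) :
    ((el k i j h : Sl k) : Matrix (Fin 3) (Fin 3) k) = Matrix.single i j 1 := rfl

theorem v01 : ((el k 0 1 (by decide) : Sl k) : Matrix (Fin 3) (Fin 3) k) =
    !![0, 1, 0; 0, 0, 0; 0, 0, 0] := by
  rw [el_val]; ext i j; fin_cases i <;> fin_cases j <;> simp

theorem v12 : ((el k 1 2 (by decide) : Sl k) : Matrix (Fin 3) (Fin 3) k) =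
    !![0, 0, 0; 0, 0, 1; 0, 0, 0] := by
  rw [el_val]; ext i j; fin_cases i <;> fin_cases j <;> simp

theorem v02 : ((el k 0 2 (by decide) : Sl k) : Matrix (Fin 3) (Fin 3) k) =
    !![0, 0, 1; 0, 0, 0; 0, 0, 0] := by
  rw [el_val]; ext i j; fin_cases i <;> fin_cases j <;> simp

theorem v10 : ((el k 1 0 (by decide) : Sl k) : Matrix (Fin 3) (Fin 3) k) =
    !![0, 0, 0; 1, 0, 0; 0, 0, 0] := by
  rw [el_val]; ext i j; fin_cases i <;> fin_cases j <;> simp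

theorem v21 : ((el k 2 1 (by decide) : Sl k) : Matrix (Fin 3) (Fin 3) k) =
    !![0, 0, 0; 0, 0, 0; 0, 1, 0] := by
  rw [el_val]; ext i j; fin_cases i <;> fin_cases j <;> simp

theorem v20 : ((el k 2 0 (by decide) : Sl k) : Matrix (Fin 3) (Fin 3) k) =
    !![0, 0, 0; 0, 0, 0; 1, 0, 0] := by
  rw [el_val]; ext i j; fin_cases i <;> fin_cases j <;> simp

variable (k) in
/-- `h₁` -/
noncomputable def H1 : Sl k := (2 : k) • cw1 k - cw2 k

variable (k) in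
/-- `h₂` -/
noncomputable def H2 : Sl k := (2 : k) • cw2 k - cw1 k

theorem vH1 [CharZero k] : ((H1 k : Sl k) : Matrix (Fin 3) (Fin 3) k) =
    !![1, 0, 0; 0, -1, 0; 0, 0, 0] := by
  have h3 : (3 : k) ≠ 0 := by norm_num
  change (2 : k) • ((1 / 3 : k) • ((singleSubSingle 0 1 (1 : k)).val +
    (singleSubSingle 0 2 (1 : k)).val)) - (1 / 3 : k) • ((singleSubSingle 0 2 (1 : k)).val +
    (singleSubSingle 1 2 (1 : k)).val) = _
  simp only [val_singleSubSingle]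
  ext i j
  fin_cases i <;> fin_cases j <;> simp <;> field_simp <;> norm_num

theorem vH2 [CharZero k] : ((H2 k : Sl k) : Matrix (Fin 3) (Fin 3) k) =
    !![0, 0, 0; 0, 1, 0; 0, 0, -1] := by
  have h3 : (3 : k) ≠ 0 := by norm_num
  change (2 : k) • ((1 / 3 : k) • ((singleSubSingle 0 2 (1 : k)).val +
    (singleSubSingle 1 2 (1 : k)).val)) - (1 / 3 : k) • ((singleSubSingle 0 1 (1 : k)).val +
    (singleSubSingle 0 2 (1 : k)).val) = _
  simp only [val_singleSubSingle]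
  ext i j
  fin_cases i <;> fin_cases j <;> simp <;> field_simp <;> norm_num

theorem brk (X Y Z : Sl k) (h : (X : Matrix (Fin 3) (Fin 3) k) * (Y : Matrix (Fin 3) (Fin 3) k) -
    (Y : Matrix (Fin 3) (Fin 3) k) * (X : Matrix (Fin 3) (Fin 3) k) =
    (Z : Matrix (Fin 3) (Fin 3) k)) : ⁅X, Y⁆ = Z := Subtype.ext (by rw [sl_bracket, h])

theorem brs (X Y Z : Sl k) (r : k) (h : (X : Matrix (Fin 3) (Fin 3) k) * (Y : Matrix (Fin 3) (Fin 3) k) -
    (Y : Matrix (Fin 3) (Fin 3) k) * (X : Matrix (Fin 3) (Fin 3) k) =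
    r • (Z : Matrix (Fin 3) (Fin 3) k)) : ⁅X, Y⁆ = r • Z := Subtype.ext (by rw [sl_bracket, h]; rfl)

theorem b_e1f1 [CharZero k] : ⁅el k 0 1 (by decide), el k 1 0 (by decide)⁆ = H1 k :=
  brk _ _ _ (by rw [v01, v10, vH1]; ext i j; fin_cases i <;> fin_cases j <;>
    simp [Matrix.mul_apply, Fin.sum_univ_three] <;> norm_num)

theorem b_e2f2 [CharZero k] : ⁅el k 1 2 (by decide), el k 2 1 (by decide)⁆ = H2 k :=
  brk _ _ _ (by rw [v12, v21, vH2]; ext i j; fin_cases i <;> fin_cases j <;>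
    simp [Matrix.mul_apply, Fin.sum_univ_three] <;> norm_num)

theorem b_e1f2 : ⁅el k 0 1 (by decide), el k 2 1 (by decide)⁆ = 0 :=
  brk _ _ _ (by rw [v01, v21, ZeroMemClass.coe_zero]; ext i j; fin_cases i <;> fin_cases j <;>
    simp [Matrix.mul_apply, Fin.sum_univ_three] <;> norm_num)

theorem b_e2f1 : ⁅el k 1 2 (by decide), el k 1 0 (by decide)⁆ = 0 :=
  brk _ _ _ (by rw [v12, v10, ZeroMemClass.coe_zero]; ext i j; fin_cases i <;> fin_cases j <;>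
    simp [Matrix.mul_apply, Fin.sum_univ_three] <;> norm_num)

theorem b_h1e1 [CharZero k] : ⁅H1 k, el k 0 1 (by decide)⁆ = (2 : k) • el k 0 1 (by decide) :=
  brs _ _ _ _ (by rw [v01, vH1]; ext i j; fin_cases i <;> fin_cases j <;>
    simp [Matrix.mul_apply, Fin.sum_univ_three] <;> norm_num)

theorem b_h2e2 [CharZero k] : ⁅H2 k, el k 1 2 (by decide)⁆ = (2 : k) • el k 1 2 (by decide) :=
  brs _ _ _ _ (by rw [v12, vH2]; ext i j; fin_cases i <;> fin_cases j <;>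
    simp [Matrix.mul_apply, Fin.sum_univ_three] <;> norm_num)

theorem b_h1f1 [CharZero k] : ⁅H1 k, el k 1 0 (by decide)⁆ = (-2 : k) • el k 1 0 (by decide) :=
  brs _ _ _ _ (by rw [v10, vH1]; ext i j; fin_cases i <;> fin_cases j <;>
    simp [Matrix.mul_apply, Fin.sum_univ_three] <;> norm_num)

theorem b_h2f2 [CharZero k] : ⁅H2 k, el k 2 1 (by decide)⁆ = (-2 : k) • el k 2 1 (by decide) :=
  brs _ _ _ _ (by rw [v21, vH2]; ext i j; fin_cases i <;> fin_cases j <;>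
    simp [Matrix.mul_apply, Fin.sum_univ_three] <;> norm_num)

theorem b_h1f2 [CharZero k] : ⁅H1 k, el k 2 1 (by decide)⁆ = (1 : k) • el k 2 1 (by decide) :=
  brs _ _ _ _ (by rw [v21, vH1]; ext i j; fin_cases i <;> fin_cases j <;>
    simp [Matrix.mul_apply, Fin.sum_univ_three] <;> norm_num)

theorem b_h2f1 [CharZero k] : ⁅H2 k, el k 1 0 (by decide)⁆ = (1 : k) • el k 1 0 (by decide) :=
  brs _ _ _ _ (by rw [v10, vH2]; ext i j; fin_cases i <;> fin_cases j <;>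
    simp [Matrix.mul_apply, Fin.sum_univ_three] <;> norm_num)

theorem b_e1e2 : ⁅el k 0 1 (by decide), el k 1 2 (by decide)⁆ = el k 0 2 (by decide) :=
  brk _ _ _ (by rw [v01, v12, v02]; ext i j; fin_cases i <;> fin_cases j <;>
    simp [Matrix.mul_apply, Fin.sum_univ_three] <;> norm_num)

theorem b_f2f1 : ⁅el k 2 1 (by decide), el k 1 0 (by decide)⁆ = el k 2 0 (by decide) :=
  brk _ _ _ (by rw [v21, v10, v20]; ext i j; fin_cases i <;> fin_cases j <;>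
    simp [Matrix.mul_apply, Fin.sum_univ_three] <;> norm_num)

theorem b_f1f3 : ⁅el k 1 0 (by decide), el k 2 0 (by decide)⁆ = 0 :=
  brk _ _ _ (by rw [v10, v20, ZeroMemClass.coe_zero]; ext i j; fin_cases i <;> fin_cases j <;>
    simp [Matrix.mul_apply, Fin.sum_univ_three] <;> norm_num)

theorem b_f2f3 : ⁅el k 2 1 (by decide), el k 2 0 (by decide)⁆ = 0 :=
  brk _ _ _ (by rw [v21, v20, ZeroMemClass.coe_zero]; ext i j; fin_cases i <;> fin_cases j <;>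
    simp [Matrix.mul_apply, Fin.sum_univ_three] <;> norm_num)

variable (k) in
/-- `h₁ + h₂` -/
noncomputable def H3 : Sl k := H1 k + H2 k

theorem vH3 [CharZero k] : ((H3 k : Sl k) : Matrix (Fin 3) (Fin 3) k) =
    !![1, 0, 0; 0, 0, 0; 0, 0, -1] := by
  change ((H1 k : Sl k) : Matrix (Fin 3) (Fin 3) k) + ((H2 k : Sl k) : Matrix (Fin 3) (Fin 3) k) = _
  rw [vH1, vH2]
  ext i j
  fin_cases i <;> fin_cases j <;> simp

theorem b_e3f3 [CharZero k] : ⁅el k 0 2 (by decide), el k 2 0 (by decide)⁆ = H3 k :=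
  brk _ _ _ (by rw [v02, v20, vH3]; ext i j; fin_cases i <;> fin_cases j <;>
    simp [Matrix.mul_apply, Fin.sum_univ_three] <;> norm_num)

theorem b_h3e3 [CharZero k] : ⁅H3 k, el k 0 2 (by decide)⁆ = (2 : k) • el k 0 2 (by decide) :=
  brs _ _ _ _ (by rw [v02, vH3]; ext i j; fin_cases i <;> fin_cases j <;>
    simp [Matrix.mul_apply, Fin.sum_univ_three] <;> norm_num)

theorem b_h3f3 [CharZero k] : ⁅H3 k, el k 2 0 (by decide)⁆ = (-2 : k) • el k 2 0 (by decide) :=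
  brs _ _ _ _ (by rw [v20, vH3]; ext i j; fin_cases i <;> fin_cases j <;>
    simp [Matrix.mul_apply, Fin.sum_univ_three] <;> norm_num)

/-- `sl₃` is spanned by the root vectors and `h₁, h₂`. -/
theorem decomp [CharZero k] (X : Sl k) : X =
    (X : Matrix (Fin 3) (Fin 3) k) 0 1 • el k 0 1 (by decide) +
    (X : Matrix (Fin 3) (Fin 3) k) 1 2 • el k 1 2 (by decide) +
    (X : Matrix (Fin 3) (Fin 3) k) 0 2 • el k 0 2 (by decide) +
    (X : Matrix (Fin 3) (Fin 3) k) 1 0 • el k 1 0 (by decide) +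
    (X : Matrix (Fin 3) (Fin 3) k) 2 1 • el k 2 1 (by decide) +
    (X : Matrix (Fin 3) (Fin 3) k) 2 0 • el k 2 0 (by decide) +
    (X : Matrix (Fin 3) (Fin 3) k) 0 0 • H1 k +
    ((X : Matrix (Fin 3) (Fin 3) k) 0 0 + (X : Matrix (Fin 3) (Fin 3) k) 1 1) • H2 k := by
  have htr : (X : Matrix (Fin 3) (Fin 3) k).trace = 0 := X.2
  rw [Matrix.trace_fin_three] at htr
  apply Subtype.ext
  change (X : Matrix (Fin 3) (Fin 3) k) =
    (X : Matrix (Fin 3) (Fin 3) k) 0 1 • ((el k 0 1 (by decide) : Sl k) : Matrix (Fin 3) (Fin 3) k) +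
    (X : Matrix (Fin 3) (Fin 3) k) 1 2 • ((el k 1 2 (by decide) : Sl k) : Matrix (Fin 3) (Fin 3) k) +
    (X : Matrix (Fin 3) (Fin 3) k) 0 2 • ((el k 0 2 (by decide) : Sl k) : Matrix (Fin 3) (Fin 3) k) +
    (X : Matrix (Fin 3) (Fin 3) k) 1 0 • ((el k 1 0 (by decide) : Sl k) : Matrix (Fin 3) (Fin 3) k) +
    (X : Matrix (Fin 3) (Fin 3) k) 2 1 • ((el k 2 1 (by decide) : Sl k) : Matrix (Fin 3) (Fin 3) k) +
    (X : Matrix (Fin 3) (Fin 3) k) 2 0 • ((el k 2 0 (by decide) : Sl k) : Matrix (Fin 3) (Fin 3) k) +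
    (X : Matrix (Fin 3) (Fin 3) k) 0 0 • ((H1 k : Sl k) : Matrix (Fin 3) (Fin 3) k) +
    ((X : Matrix (Fin 3) (Fin 3) k) 0 0 + (X : Matrix (Fin 3) (Fin 3) k) 1 1) •
      ((H2 k : Sl k) : Matrix (Fin 3) (Fin 3) k)
  rw [v01, v12, v02, v10, v21, v20, vH1, vH2]
  ext i j
  fin_cases i <;> fin_cases j <;> simp
  linear_combination htr

end

/-! ### Pure algebra -/

section Core

variable {k : Type u} [Field k] [CharZero k] {U : Type v} [AddCommGroup U] [Module k U]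

omit [CharZero k] in
/-- The first relations (no use of the sum formula). -/
theorem core1 (E1 E2 F1 F2 G1 G2 : U →ₗ[k] U) (x : U)
    (R1 : ∀ y, E1 (F1 y) = F1 (E1 y) + G1 y) (R2 : ∀ y, E2 (F2 y) = F2 (E2 y) + G2 y)
    (R3 : ∀ y, E1 (F2 y) = F2 (E1 y)) (R4 : ∀ y, E2 (F1 y) = F1 (E2 y))
    (R5 : ∀ y, G1 (F1 y) = F1 (G1 y) + (-2 : k) • F1 y)
    (R6 : ∀ y, G1 (F2 y) = F2 (G1 y) + (1 : k) • F2 y)
    (R7 : ∀ y, G2 (F1 y) = F1 (G2 y) + (1 : k) • F1 y)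
    (R8 : ∀ y, G2 (F2 y) = F2 (G2 y) + (-2 : k) • F2 y)
    (hE1 : E1 x = 0) (hE2 : E2 x = 0) (hG1 : G1 x = x) (hG2 : G2 x = x) :
    E1 (F1 x) = x ∧ E1 (F2 x) = 0 ∧ E2 (F1 x) = 0 ∧ E2 (F2 x) = x ∧
    E1 (F2 (F1 x)) = F2 x ∧ E1 (F1 (F2 x)) = (2 : k) • F2 x ∧
    E2 (F2 (F1 x)) = (2 : k) • F1 x ∧ E2 (F1 (F2 x)) = F1 x ∧
    G1 (F2 (F1 x)) = 0 ∧ G2 (F2 (F1 x)) = 0 ∧ G1 (F1 (F2 x)) = 0 ∧ G2 (F1 (F2 x)) = 0 := by
  refine ⟨?_, ?_, ?_, ?_, ?_, ?_, ?_, ?_, ?_, ?_, ?_, ?_⟩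
  · rw [R1, hE1, hG1, map_zero, zero_add]
  · rw [R3, hE1, map_zero]
  · rw [R4, hE2, map_zero]
  · rw [R2, hE2, hG2, map_zero, zero_add]
  · rw [R3, R1, hE1, hG1, map_zero, zero_add]
  · rw [R1, R3, hE1, R6, hG1, map_zero, map_zero]
    module
  · rw [R2, R4, hE2, R7, hG2, map_zero, map_zero]
    module
  · rw [R4, R2, hE2, hG2, map_zero, zero_add]
  · rw [R6, R5, hG1]
    simp only [map_add, map_smul]
    module
  · rw [R8, R7, hG2]
    simp only [map_add, map_smul]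
    module
  · rw [R5, R6, hG1]
    simp only [map_add, map_smul]
    module
  · rw [R7, R8, hG2]
    simp only [map_add, map_smul]
    module

/-- The remaining relations. -/
theorem core2 (E1 E2 F1 F2 G1 G2 : U →ₗ[k] U) (x : U)
    (R1 : ∀ y, E1 (F1 y) = F1 (E1 y) + G1 y) (R2 : ∀ y, E2 (F2 y) = F2 (E2 y) + G2 y)
    (R3 : ∀ y, E1 (F2 y) = F2 (E1 y)) (R4 : ∀ y, E2 (F1 y) = F1 (E2 y))
    (R5 : ∀ y, G1 (F1 y) = F1 (G1 y) + (-2 : k) • F1 y)
    (R6 : ∀ y, G1 (F2 y) = F2 (G1 y) + (1 : k) • F2 y)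
    (R7 : ∀ y, G2 (F1 y) = F1 (G2 y) + (1 : k) • F1 y)
    (R8 : ∀ y, G2 (F2 y) = F2 (G2 y) + (-2 : k) • F2 y)
    (S1 : ∀ y, F1 (F1 (F2 y)) = (2 : k) • F1 (F2 (F1 y)) - F2 (F1 (F1 y)))
    (S2 : ∀ y, F2 (F2 (F1 y)) = (2 : k) • F2 (F1 (F2 y)) - F1 (F2 (F2 y)))
    (hE1 : E1 x = 0) (hE2 : E2 x = 0) (hG1 : G1 x = x) (hG2 : G2 x = x)
    (Q1 : F1 (F1 x) = 0) (Q2 : F2 (F2 x) = 0)
    (Q3 : F2 (F1 (F2 (F1 x) + F1 (F2 x))) - F1 (F2 (F2 (F1 x) + F1 (F2 x))) = 0) :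
    F1 (F1 (F2 x)) = (2 : k) • F1 (F2 (F1 x)) ∧ F1 (F1 (F2 (F1 x))) = 0 ∧
    F1 (F2 (F1 (F2 x))) = F2 (F1 (F2 (F1 x))) ∧ F1 (F2 (F1 (F2 (F1 x)))) = 0 ∧
    F2 (F2 (F1 x)) = (2 : k) • F2 (F1 (F2 x)) ∧ F2 (F2 (F1 (F2 x))) = 0 ∧
    F2 (F2 (F1 (F2 (F1 x)))) = 0 ∧
    E1 (F1 (F2 (F1 x))) = F1 (F2 x) ∧ E1 (F2 (F1 (F2 x))) = 0 ∧
    E1 (F2 (F1 (F2 (F1 x)))) = F2 (F1 (F2 x)) ∧
    E2 (F1 (F2 (F1 x))) = 0 ∧ E2 (F2 (F1 (F2 x))) = F2 (F1 x) ∧
    E2 (F2 (F1 (F2 (F1 x)))) = F1 (F2 (F1 x)) := by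
  obtain ⟨a1, a2, a3, a4, a5, a6, a7, a8, a9, a10, a11, a12⟩ :=
    core1 E1 E2 F1 F2 G1 G2 x R1 R2 R3 R4 R5 R6 R7 R8 hE1 hE2 hG1 hG2
  have c1 : F1 (F1 (F2 x)) = (2 : k) • F1 (F2 (F1 x)) := by
    rw [S1, Q1, map_zero, sub_zero]
  have c2 : F2 (F2 (F1 x)) = (2 : k) • F2 (F1 (F2 x)) := by
    rw [S2, Q2, map_zero, sub_zero]
  have c3 : F1 (F1 (F2 (F1 x))) = 0 := by
    rw [S1, Q1]
    simp only [map_zero, smul_zero, sub_zero]
  have c4 : F2 (F2 (F1 (F2 x))) = 0 := by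
    rw [S2, Q2]
    simp only [map_zero, smul_zero, sub_zero]
  have c5 : F1 (F2 (F1 (F2 x))) = F2 (F1 (F2 (F1 x))) := by
    simp only [map_add] at Q3
    rw [c1, c2, map_smul, map_smul] at Q3
    have h3 : (3 : k) • (F1 (F2 (F1 (F2 x))) - F2 (F1 (F2 (F1 x)))) = 0 := by
      rw [← neg_eq_zero, ← Q3]
      module
    exact sub_eq_zero.1 ((smul_eq_zero.1 h3).resolve_left (by norm_num))
  have c6 : F1 (F2 (F1 (F2 (F1 x)))) = 0 := by
    have h1 : F1 (F1 (F2 (F1 (F2 x)))) = (4 : k) • F1 (F2 (F1 (F2 (F1 x)))) := by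
      rw [S1 (F1 (F2 x)), c1, map_smul, map_smul, map_smul, c3, smul_zero, map_zero, sub_zero,
        smul_smul]
      norm_num
    rw [c5] at h1
    have h3 : (3 : k) • F1 (F2 (F1 (F2 (F1 x)))) = 0 := by
      have h4 : (4 : k) • F1 (F2 (F1 (F2 (F1 x)))) - F1 (F2 (F1 (F2 (F1 x)))) = 0 := by
        rw [← h1, sub_self]
      rw [← h4]
      module
    exact (smul_eq_zero.1 h3).resolve_left (by norm_num)
  have c7 : F2 (F2 (F1 (F2 (F1 x)))) = 0 := by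
    have h1 : F2 (F2 (F1 (F2 (F1 x)))) = (4 : k) • F2 (F1 (F2 (F1 (F2 x)))) := by
      rw [S2 (F2 (F1 x)), c2, map_smul, map_smul, map_smul, c4, smul_zero, map_zero, sub_zero,
        smul_smul]
      norm_num
    rw [c5] at h1
    have h3 : (3 : k) • F2 (F2 (F1 (F2 (F1 x)))) = 0 := by
      have h4 : (4 : k) • F2 (F2 (F1 (F2 (F1 x)))) - F2 (F2 (F1 (F2 (F1 x)))) = 0 := by
        rw [← h1, sub_self]
      rw [← h4]
      module
    exact (smul_eq_zero.1 h3).resolve_left (by norm_num)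
  have d1 : E1 (F1 (F2 (F1 x))) = F1 (F2 x) := by rw [R1, a5, a9, add_zero]
  have d2 : E1 (F2 (F1 (F2 x))) = 0 := by rw [R3, a6, map_smul, Q2, smul_zero]
  have d3 : E2 (F1 (F2 (F1 x))) = 0 := by rw [R4, a7, map_smul, Q1, smul_zero]
  have d4 : E2 (F2 (F1 (F2 x))) = F2 (F1 x) := by rw [R2, a8, a12, add_zero]
  refine ⟨c1, c3, c5, c6, c2, c4, c7, d1, d2, ?_, d3, d4, ?_⟩
  · rw [R3, d1]
  · rw [R2, d3, map_zero, zero_add, R7, a10, map_zero, zero_add, one_smul]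

end Core

/-! ### The theorem -/

section Main

variable {k : Type u} [Field k] [CharZero k] {U : Type v} [AddCommGroup U] [Module k U]
  {ρ : Sl k →ₗ[k] Module.End k U}

omit [CharZero k] in
theorem sw (hρ : IsRep ρ) (X Y : Sl k) (x : U) : ρ X (ρ Y x) = ρ Y (ρ X x) + ρ ⁅X, Y⁆ x := by
  rw [hρ, LinearMap.sub_apply]
  change ρ X (ρ Y x) = ρ Y (ρ X x) + (ρ X (ρ Y x) - ρ Y (ρ X x))
  abel

omit [CharZero k] in
theorem br_op (hρ : IsRep ρ) {X Y Z : Sl k} (h : ⁅X, Y⁆ = Z) : ρ X * ρ Y - ρ Y * ρ X = ρ Z := by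
  rw [← hρ, h]

theorem part_b [FiniteDimensional k U] (hρ : IsRep ρ) (x : U)
    (hE1 : ρ (el k 0 1 (by decide)) x = 0) (hE2 : ρ (el k 1 2 (by decide)) x = 0)
    (hG1 : ρ (H1 k) x = x) (hG2 : ρ (H2 k) x = x) :
    ∃ φ : Sl k →ₗ[k] U, φ (el k 0 2 (by decide)) = x ∧ ∀ X Y : Sl k, φ ⁅X, Y⁆ = ρ X (φ Y) := by
  have R1 : ∀ y, ρ (el k 0 1 (by decide)) (ρ (el k 1 0 (by decide)) y) =
      ρ (el k 1 0 (by decide)) (ρ (el k 0 1 (by decide)) y) + ρ (H1 k) y := fun y => by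
    rw [sw hρ, b_e1f1]
  have R2 : ∀ y, ρ (el k 1 2 (by decide)) (ρ (el k 2 1 (by decide)) y) =
      ρ (el k 2 1 (by decide)) (ρ (el k 1 2 (by decide)) y) + ρ (H2 k) y := fun y => by
    rw [sw hρ, b_e2f2]
  have R3 : ∀ y, ρ (el k 0 1 (by decide)) (ρ (el k 2 1 (by decide)) y) =
      ρ (el k 2 1 (by decide)) (ρ (el k 0 1 (by decide)) y) := fun y => by
    rw [sw hρ, b_e1f2, map_zero, LinearMap.zero_apply, add_zero]
  have R4 : ∀ y, ρ (el k 1 2 (by decide)) (ρ (el k 1 0 (by decide)) y) =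
      ρ (el k 1 0 (by decide)) (ρ (el k 1 2 (by decide)) y) := fun y => by
    rw [sw hρ, b_e2f1, map_zero, LinearMap.zero_apply, add_zero]
  have R5 : ∀ y, ρ (H1 k) (ρ (el k 1 0 (by decide)) y) =
      ρ (el k 1 0 (by decide)) (ρ (H1 k) y) + (-2 : k) • ρ (el k 1 0 (by decide)) y := fun y => by
    rw [sw hρ, b_h1f1, map_smul, LinearMap.smul_apply]
  have R6 : ∀ y, ρ (H1 k) (ρ (el k 2 1 (by decide)) y) =
      ρ (el k 2 1 (by decide)) (ρ (H1 k) y) + (1 : k) • ρ (el k 2 1 (by decide)) y := fun y => by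
    rw [sw hρ, b_h1f2, map_smul, LinearMap.smul_apply]
  have R7 : ∀ y, ρ (H2 k) (ρ (el k 1 0 (by decide)) y) =
      ρ (el k 1 0 (by decide)) (ρ (H2 k) y) + (1 : k) • ρ (el k 1 0 (by decide)) y := fun y => by
    rw [sw hρ, b_h2f1, map_smul, LinearMap.smul_apply]
  have R8 : ∀ y, ρ (H2 k) (ρ (el k 2 1 (by decide)) y) =
      ρ (el k 2 1 (by decide)) (ρ (H2 k) y) + (-2 : k) • ρ (el k 2 1 (by decide)) y := fun y => by
    rw [sw hρ, b_h2f2, map_smul, LinearMap.smul_apply]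
  have hF3 : ∀ y, ρ (el k 2 0 (by decide)) y =
      ρ (el k 2 1 (by decide)) (ρ (el k 1 0 (by decide)) y) -
        ρ (el k 1 0 (by decide)) (ρ (el k 2 1 (by decide)) y) := fun y => by
    rw [sw hρ (el k 2 1 _), b_f2f1]
    abel
  have hE3 : ∀ y, ρ (el k 0 2 (by decide)) y =
      ρ (el k 0 1 (by decide)) (ρ (el k 1 2 (by decide)) y) -
        ρ (el k 1 2 (by decide)) (ρ (el k 0 1 (by decide)) y) := fun y => by
    rw [sw hρ (el k 0 1 _), b_e1e2]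
    abel
  have S1 : ∀ y, ρ (el k 1 0 (by decide)) (ρ (el k 1 0 (by decide)) (ρ (el k 2 1 (by decide)) y)) =
      (2 : k) • ρ (el k 1 0 (by decide)) (ρ (el k 2 1 (by decide)) (ρ (el k 1 0 (by decide)) y)) -
        ρ (el k 2 1 (by decide)) (ρ (el k 1 0 (by decide)) (ρ (el k 1 0 (by decide)) y)) := by
    intro y
    have h1 := sw hρ (el k 1 0 (by decide)) (el k 2 0 (by decide)) y
    rw [b_f1f3, map_zero, LinearMap.zero_apply, add_zero, hF3, hF3, map_sub] at h1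
    have h2 := sub_eq_zero.2 h1
    rw [← sub_eq_zero, ← neg_eq_zero, ← h2]
    module
  have S2 : ∀ y, ρ (el k 2 1 (by decide)) (ρ (el k 2 1 (by decide)) (ρ (el k 1 0 (by decide)) y)) =
      (2 : k) • ρ (el k 2 1 (by decide)) (ρ (el k 1 0 (by decide)) (ρ (el k 2 1 (by decide)) y)) -
        ρ (el k 1 0 (by decide)) (ρ (el k 2 1 (by decide)) (ρ (el k 2 1 (by decide)) y)) := by
    intro y
    have h1 := sw hρ (el k 2 1 (by decide)) (el k 2 0 (by decide)) y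
    rw [b_f2f3, map_zero, LinearMap.zero_apply, add_zero, hF3, hF3, map_sub] at h1
    have h2 := sub_eq_zero.2 h1
    rw [← sub_eq_zero, ← h2]
    module
  have Q1 : ρ (el k 1 0 (by decide)) (ρ (el k 1 0 (by decide)) x) = 0 := by
    have h1 := sl2_kill _ _ _ (br_op hρ b_e1f1) ((br_op hρ b_h1e1).trans (map_smul _ _ _))
      ((br_op hρ b_h1f1).trans (by rw [map_smul, neg_smul])) 1 x hE1
      (by rw [hG1, Nat.cast_one, one_smul])
    rwa [pow_succ, pow_one] at h1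
  have Q2 : ρ (el k 2 1 (by decide)) (ρ (el k 2 1 (by decide)) x) = 0 := by
    have h1 := sl2_kill _ _ _ (br_op hρ b_e2f2) ((br_op hρ b_h2e2).trans (map_smul _ _ _))
      ((br_op hρ b_h2f2).trans (by rw [map_smul, neg_smul])) 1 x hE2
      (by rw [hG2, Nat.cast_one, one_smul])
    rwa [pow_succ, pow_one] at h1
  obtain ⟨a1, a2, a3, a4, a5, a6, a7, a8, a9, a10, a11, a12⟩ :=
    core1 _ _ _ _ _ _ x R1 R2 R3 R4 R5 R6 R7 R8 hE1 hE2 hG1 hG2
  have Q3 : ρ (el k 2 0 (by decide)) (ρ (el k 2 1 (by decide)) (ρ (el k 1 0 (by decide)) x) +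
      ρ (el k 1 0 (by decide)) (ρ (el k 2 1 (by decide)) x)) = 0 := by
    have h1 := sl2_kill _ _ _ (br_op hρ b_e3f3) ((br_op hρ b_h3e3).trans (map_smul _ _ _))
      ((br_op hρ b_h3f3).trans (by rw [map_smul, neg_smul])) 0
      (ρ (el k 2 1 (by decide)) (ρ (el k 1 0 (by decide)) x) +
        ρ (el k 1 0 (by decide)) (ρ (el k 2 1 (by decide)) x)) (by
        rw [hE3]
        simp only [map_add, a5, a6, a7, a8, map_smul, a1, a4]
        module) (by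
        simp only [H3, map_add, LinearMap.add_apply, a9, a10, a11, a12]
        simp)
    rwa [zero_add, pow_one] at h1
  rw [hF3] at Q3
  obtain ⟨b1, b2, b3, b4, b5, b6, b7, b8, b9, b10, b11, b12, b13⟩ :=
    core2 _ _ _ _ _ _ x R1 R2 R3 R4 R5 R6 R7 R8 S1 S2 hE1 hE2 hG1 hG2 Q1 Q2 Q3
  set E1 := ρ (el k 0 1 (by decide)) with hE1d
  set E2 := ρ (el k 1 2 (by decide)) with hE2d
  set F1 := ρ (el k 1 0 (by decide)) with hF1d
  set F2 := ρ (el k 2 1 (by decide)) with hF2d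
  set φ : Sl k →ₗ[k] U :=
    { toFun := fun X => (X : Matrix (Fin 3) (Fin 3) k) 0 2 • x +
        (X : Matrix (Fin 3) (Fin 3) k) 1 2 • F1 x - (X : Matrix (Fin 3) (Fin 3) k) 0 1 • F2 x +
        (X : Matrix (Fin 3) (Fin 3) k) 1 0 • F1 (F2 (F1 x)) -
        (X : Matrix (Fin 3) (Fin 3) k) 2 1 • F2 (F1 (F2 x)) +
        (X : Matrix (Fin 3) (Fin 3) k) 2 0 • F2 (F1 (F2 (F1 x))) +
        (X : Matrix (Fin 3) (Fin 3) k) 0 0 • F1 (F2 x) -
        ((X : Matrix (Fin 3) (Fin 3) k) 0 0 + (X : Matrix (Fin 3) (Fin 3) k) 1 1) • F2 (F1 x)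
      map_add' := by
        intro X Y
        have h : ∀ i j, ((X + Y : Sl k) : Matrix (Fin 3) (Fin 3) k) i j =
          (X : Matrix (Fin 3) (Fin 3) k) i j + (Y : Matrix (Fin 3) (Fin 3) k) i j := fun _ _ => rfl
        simp only [h]
        module
      map_smul' := by
        intro c X
        have h : ∀ i j, ((c • X : Sl k) : Matrix (Fin 3) (Fin 3) k) i j =
          c * (X : Matrix (Fin 3) (Fin 3) k) i j := fun _ _ => rfl
        simp only [h, RingHom.id_apply]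
        module } with hφ
  have hφa : ∀ X : Sl k, φ X = (X : Matrix (Fin 3) (Fin 3) k) 0 2 • x +
        (X : Matrix (Fin 3) (Fin 3) k) 1 2 • F1 x - (X : Matrix (Fin 3) (Fin 3) k) 0 1 • F2 x +
        (X : Matrix (Fin 3) (Fin 3) k) 1 0 • F1 (F2 (F1 x)) -
        (X : Matrix (Fin 3) (Fin 3) k) 2 1 • F2 (F1 (F2 x)) +
        (X : Matrix (Fin 3) (Fin 3) k) 2 0 • F2 (F1 (F2 (F1 x))) +
        (X : Matrix (Fin 3) (Fin 3) k) 0 0 • F1 (F2 x) -
        ((X : Matrix (Fin 3) (Fin 3) k) 0 0 + (X : Matrix (Fin 3) (Fin 3) k) 1 1) • F2 (F1 x) :=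
    fun X => rfl
  have htr : ∀ Y : Sl k, (Y : Matrix (Fin 3) (Fin 3) k) 2 2 =
      -(Y : Matrix (Fin 3) (Fin 3) k) 0 0 - (Y : Matrix (Fin 3) (Fin 3) k) 1 1 := by
    intro Y
    have h1 : (Y : Matrix (Fin 3) (Fin 3) k).trace = 0 := Y.2
    rw [Matrix.trace_fin_three] at h1
    linear_combination h1
  have T1 : ∀ Y, φ ⁅el k 0 1 (by decide), Y⁆ = E1 (φ Y) := by
    intro Y
    rw [hφa, hφa, sl_bracket, v01]
    simp only [map_add, map_sub, map_smul, hE1, a1, a2, a5, a6, b8, b9, b10]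
    simp only [Matrix.sub_apply, Matrix.mul_apply, Fin.sum_univ_three]
    simp
    module
  have T2 : ∀ Y, φ ⁅el k 1 2 (by decide), Y⁆ = E2 (φ Y) := by
    intro Y
    rw [hφa, hφa, sl_bracket, v12]
    simp only [map_add, map_sub, map_smul, hE2, a3, a4, a7, a8, b11, b12, b13]
    simp only [Matrix.sub_apply, Matrix.mul_apply, Fin.sum_univ_three]
    simp [htr]
    module
  have T3 : ∀ Y, φ ⁅el k 1 0 (by decide), Y⁆ = F1 (φ Y) := by
    intro Y
    rw [hφa, hφa, sl_bracket, v10]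
    simp only [map_add, map_sub, map_smul, Q1, b1, b2, b3, b4]
    simp only [Matrix.sub_apply, Matrix.mul_apply, Fin.sum_univ_three]
    simp
    module
  have T4 : ∀ Y, φ ⁅el k 2 1 (by decide), Y⁆ = F2 (φ Y) := by
    intro Y
    rw [hφa, hφa, sl_bracket, v21]
    simp only [map_add, map_sub, map_smul, Q2, b5, b6, b7]
    simp only [Matrix.sub_apply, Matrix.mul_apply, Fin.sum_univ_three]
    simp [htr]
    module
  -- closure
  have Tb : ∀ X Y : Sl k, (∀ Z, φ ⁅X, Z⁆ = ρ X (φ Z)) → (∀ Z, φ ⁅Y, Z⁆ = ρ Y (φ Z)) →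
      ∀ Z, φ ⁅⁅X, Y⁆, Z⁆ = ρ ⁅X, Y⁆ (φ Z) := by
    intro X Y hX hY Z
    rw [lie_lie, map_sub, hX, hY, hY, hX, hρ]
    rfl
  have T5 := Tb _ _ T1 T2
  rw [b_e1e2] at T5
  have T6 := Tb _ _ T4 T3
  rw [b_f2f1] at T6
  have T7 := Tb _ _ T1 T3
  rw [b_e1f1] at T7
  have T8 := Tb _ _ T2 T4
  rw [b_e2f2] at T8
  refine ⟨φ, ?_, ?_⟩
  · rw [hφa, v02]
    simp
  · intro X Y
    rw [decomp X]
    simp only [add_lie, smul_lie, map_add, map_smul, LinearMap.add_apply, LinearMap.smul_apply,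
      T1, T2, T3, T4, T5, T6, T7, T8]
    rfl

theorem part_a [FiniteDimensional k U] (hρ : IsRep ρ) (x : U)
    (hE1 : ρ (el k 0 1 (by decide)) x = 0) (hE2 : ρ (el k 1 2 (by decide)) x = 0)
    (hG1 : ρ (H1 k) x = 0) (hG2 : ρ (H2 k) x = 0) (X : Sl k) : ρ X x = 0 := by
  have Q1 : ρ (el k 1 0 (by decide)) x = 0 := by
    have h1 := sl2_kill _ _ _ (br_op hρ b_e1f1) ((br_op hρ b_h1e1).trans (map_smul _ _ _))
      ((br_op hρ b_h1f1).trans (by rw [map_smul, neg_smul])) 0 x hE1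
      (by rw [hG1, Nat.cast_zero, zero_smul])
    rwa [zero_add, pow_one] at h1
  have Q2 : ρ (el k 2 1 (by decide)) x = 0 := by
    have h1 := sl2_kill _ _ _ (br_op hρ b_e2f2) ((br_op hρ b_h2e2).trans (map_smul _ _ _))
      ((br_op hρ b_h2f2).trans (by rw [map_smul, neg_smul])) 0 x hE2
      (by rw [hG2, Nat.cast_zero, zero_smul])
    rwa [zero_add, pow_one] at h1
  have hF3 : ρ (el k 2 0 (by decide)) x = 0 := by
    have h1 := sw hρ (el k 2 1 (by decide)) (el k 1 0 (by decide)) x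
    rw [b_f2f1, Q1, Q2, map_zero, map_zero, zero_add] at h1
    exact h1.symm
  have hE3 : ρ (el k 0 2 (by decide)) x = 0 := by
    have h1 := sw hρ (el k 0 1 (by decide)) (el k 1 2 (by decide)) x
    rw [b_e1e2, hE1, hE2, map_zero, map_zero, zero_add] at h1
    exact h1.symm
  rw [decomp X]
  simp only [map_add, map_smul, LinearMap.add_apply, LinearMap.smul_apply, hE1, hE2, hG1, hG2,
    Q1, Q2, hF3, hE3, smul_zero, add_zero]

end Main

theorem p_HWA : S_HWA.{u, v} := by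
  intro k _ _ U _ _ _ ρ hρ x hE1 hE2
  refine ⟨fun h1 h2 X => part_a hρ x hE1 hE2 ?_ ?_ X, fun h1 h2 => part_b hρ x hE1 hE2 ?_ ?_⟩
  · rw [H1, map_sub, map_smul, LinearMap.sub_apply, LinearMap.smul_apply, h1, h2]
    simp
  · rw [H2, map_sub, map_smul, LinearMap.sub_apply, LinearMap.smul_apply, h1, h2]
    simp
  · rw [H1, map_sub, map_smul, LinearMap.sub_apply, LinearMap.smul_apply, h1, h2]
    module
  · rw [H2, map_sub, map_smul, LinearMap.sub_apply, LinearMap.smul_apply, h1, h2]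
    module

end Run7.h547.SG.HWA
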