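import Pool.Agent.Run7.h547.SG.Iface

/-! Piece SIM: nonzero ideals of `sl₃` contain `E₁₃`. -/

set_option autoImplicit false

namespace Run7.h547.SG.SIM

universe u

open Matrix LieAlgebra.SpecialLinear

variable {k : Type u} [Field k]

theorem el_val (i j : Fin 3) (h : i ≠ j) :
    ((el k i j h : Sl k) : Matrix (Fin 3) (Fin 3) k) = Matrix.single i j 1 := rfl

theorem br (i j l : Fin 3) (hij : i ≠ j) (hjl : j ≠ l) (hil : i ≠ l) :
    ⁅el k i j hij, el k j l hjl⁆ = el k i l hil := by
  apply Subtype.ext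
  rw [sl_bracket, el_val, el_val, el_val]
  rw [single_mul_single_same, single_mul_single_of_ne 1 j l i hil.symm 1, sub_zero, one_mul]

theorem sq_el (i j : Fin 3) (hij : i ≠ j) :
    (Matrix.single i j 1 : Matrix (Fin 3) (Fin 3) k) * Matrix.single i j 1 = 0 :=
  single_mul_single_of_ne 1 i j i hij.symm 1

theorem br2 (i j : Fin 3) (hij : i ≠ j) (Y : Sl k) :
    ⁅el k i j hij, ⁅el k i j hij, Y⁆⁆ =
      (-2 * (Y : Matrix (Fin 3) (Fin 3) k) j i) • el k i j hij := by
  apply Subtype.ext
  rw [sl_bracket, sl_bracket]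
  change _ = (-2 * (Y : Matrix (Fin 3) (Fin 3) k) j i) •
    (Matrix.single i j 1 : Matrix (Fin 3) (Fin 3) k)
  rw [el_val]
  have h1 : (Matrix.single i j 1 : Matrix (Fin 3) (Fin 3) k) * (Y : Matrix (Fin 3) (Fin 3) k) *
      Matrix.single i j 1 = ((Y : Matrix (Fin 3) (Fin 3) k) j i) • Matrix.single i j 1 := by
    rw [single_mul_mul_single]
    simp
  have h2 : ∀ E M : Matrix (Fin 3) (Fin 3) k, E * E = 0 →
      E * (E * M - M * E) - (E * M - M * E) * E = (-2 : k) • (E * M * E) := by
    intro E M hE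
    have e1 : E * (E * M) = 0 := by rw [← mul_assoc, hE, zero_mul]
    have e2 : M * E * E = 0 := by rw [mul_assoc, hE, mul_zero]
    rw [mul_sub, sub_mul, e1, e2, ← mul_assoc]
    simp only [neg_smul, two_smul]
    abel
  rw [h2 _ _ (sq_el i j hij), h1, smul_smul]

theorem br3 (i j : Fin 3) (hij : i ≠ j) (Y : Sl k)
    (hY : ∀ a b : Fin 3, a ≠ b → (Y : Matrix (Fin 3) (Fin 3) k) a b = 0) :
    ⁅el k i j hij, Y⁆ = ((Y : Matrix (Fin 3) (Fin 3) k) j j - (Y : Matrix (Fin 3) (Fin 3) k) i i) •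
      el k i j hij := by
  apply Subtype.ext
  rw [sl_bracket, el_val]
  change _ = ((Y : Matrix (Fin 3) (Fin 3) k) j j - (Y : Matrix (Fin 3) (Fin 3) k) i i) •
    (Matrix.single i j 1 : Matrix (Fin 3) (Fin 3) k)
  have hd : (Y : Matrix (Fin 3) (Fin 3) k) =
      diagonal fun a => (Y : Matrix (Fin 3) (Fin 3) k) a a := by
    ext a b
    by_cases hab : a = b
    · subst hab
      rw [diagonal_apply_eq]
    · rw [diagonal_apply_ne _ hab, hY a b hab]
  rw [hd]
  ext a b
  rw [Matrix.sub_apply, Matrix.smul_apply, mul_diagonal, diagonal_mul, single_apply,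
    diagonal_apply_eq, diagonal_apply_eq]
  by_cases hab : i = a ∧ j = b
  · obtain ⟨rfl, rfl⟩ := hab
    simp
  · simp [hab]

theorem step (K : Submodule k (Sl k)) (hK : ∀ X Y : Sl k, Y ∈ K → ⁅X, Y⁆ ∈ K) (i j : Fin 3)
    (hij : i ≠ j) (h : el k i j hij ∈ K) : el k 0 2 (by decide) ∈ K := by
  have L1 : ∀ (i j l : Fin 3) (hij : i ≠ j) (hjl : j ≠ l) (hil : i ≠ l), el k j l hjl ∈ K →
      el k i l hil ∈ K := by
    intro i j l hij hjl hil h
    rw [← br i j l hij hjl hil]
    exact hK _ _ h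
  have L2 : ∀ (i j l : Fin 3) (hij : i ≠ j) (hjl : j ≠ l) (hil : i ≠ l), el k i j hij ∈ K →
      el k i l hil ∈ K := by
    intro i j l hij hjl hil h
    rw [← br i j l hij hjl hil, ← lie_skew]
    exact K.neg_mem (hK _ _ h)
  have c12 : el k 1 2 (by decide) ∈ K → el k 0 2 (by decide) ∈ K :=
    L1 0 1 2 (by decide) (by decide) (by decide)
  have c01 : el k 0 1 (by decide) ∈ K → el k 0 2 (by decide) ∈ K :=
    L2 0 1 2 (by decide) (by decide) (by decide)
  have c10 : el k 1 0 (by decide) ∈ K → el k 0 2 (by decide) ∈ K := fun h =>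
    c12 (L2 1 0 2 (by decide) (by decide) (by decide) h)
  have c21 : el k 2 1 (by decide) ∈ K → el k 0 2 (by decide) ∈ K := fun h =>
    c01 (L1 0 2 1 (by decide) (by decide) (by decide) h)
  have c20 : el k 2 0 (by decide) ∈ K → el k 0 2 (by decide) ∈ K := fun h =>
    c21 (L2 2 0 1 (by decide) (by decide) (by decide) h)
  fin_cases i <;> fin_cases j
  · exact absurd rfl hij
  · exact c01 h
  · exact h
  · exact c10 h
  · exact absurd rfl hij
  · exact c12 h
  · exact c20 h
  · exact c21 h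
  · exact absurd rfl hij

theorem p_SIM : S_SIM.{u} := by
  intro k _ _ K hK hne
  obtain ⟨Y, hY, hY0⟩ := Submodule.exists_mem_ne_zero_of_ne_bot hne
  by_cases hoff : ∃ a b : Fin 3, a ≠ b ∧ (Y : Matrix (Fin 3) (Fin 3) k) a b ≠ 0
  · obtain ⟨j, i, hji, hne'⟩ := hoff
    apply step K hK i j hji.symm
    have h1 := hK (el k i j hji.symm) _ (hK (el k i j hji.symm) Y hY)
    rw [br2] at h1
    exact (K.smul_mem_iff (mul_ne_zero (by norm_num) hne')).1 h1
  · push Not at hoff
    have htr : (Y : Matrix (Fin 3) (Fin 3) k).trace = 0 := Y.2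
    by_cases hd : ∃ i j : Fin 3, i ≠ j ∧ (Y : Matrix (Fin 3) (Fin 3) k) j j - (Y : Matrix (Fin 3) (Fin 3) k) i i ≠ 0
    · obtain ⟨i, j, hij, hne'⟩ := hd
      apply step K hK i j hij
      have h1 := hK (el k i j hij) Y hY
      rw [br3 i j hij Y hoff] at h1
      exact (K.smul_mem_iff hne').1 h1
    · push Not at hd
      exfalso
      apply hY0
      have h01 := hd 0 1 (by decide)
      have h02 := hd 0 2 (by decide)
      rw [Matrix.trace_fin_three] at htr
      have h00 : (Y : Matrix (Fin 3) (Fin 3) k) 0 0 = 0 := by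
        have h3 : (3 : k) * (Y : Matrix (Fin 3) (Fin 3) k) 0 0 = 0 := by
          linear_combination htr - h01 - h02
        exact (mul_eq_zero.1 h3).resolve_left (by norm_num)
      have hdiag : ∀ a, (Y : Matrix (Fin 3) (Fin 3) k) a a = 0 := by
        intro a
        fin_cases a
        · exact h00
        · show (Y : Matrix (Fin 3) (Fin 3) k) 1 1 = 0
          linear_combination h01 + h00
        · show (Y : Matrix (Fin 3) (Fin 3) k) 2 2 = 0
          linear_combination h02 + h00
      apply Subtype.ext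
      ext a b
      by_cases hab : a = b
      · subst hab
        exact hdiag a
      · exact hoff a b hab

end Run7.h547.SG.SIM
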