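import Mathlib
import Pool.Agent.Run7.h187.ShDefs

/-!
Representations of `sl₃` given by linear maps, the Casimir operator, and the multiplication of the
free alternative algebra `Alt k` on three generators.
-/

set_option autoImplicit false

namespace Run7.h547.SG

open TensorProduct Run7.h187.Sh

/-! ### The Lie algebra `sl₃` -/

section Sl

variable (k : Type*) [Field k]

/-- `sl₃(k)`: Mathlib's Lie algebra of `3 × 3` matrices of trace zero. -/
abbrev Sl := LieAlgebra.SpecialLinear.sl (Fin 3) k

/-- the matrix unit `E_{ij}`, `i ≠ j` -/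
noncomputable def el (i j : Fin 3) (h : i ≠ j) : Sl k := LieAlgebra.SpecialLinear.single i j h (1 : k)

/-- the fundamental coweight `diag(2/3, -1/3, -1/3)`: its eigenvalue on a weight vector of weight
`a α₁ + b α₂` is `a` -/
noncomputable def cw1 : Sl k :=
  (1 / 3 : k) • (LieAlgebra.SpecialLinear.singleSubSingle 0 1 (1 : k)
    + LieAlgebra.SpecialLinear.singleSubSingle 0 2 (1 : k))

/-- the fundamental coweight `diag(1/3, 1/3, -2/3)`: its eigenvalue on a weight vector of weight
`a α₁ + b α₂` is `b` -/
noncomputable def cw2 : Sl k :=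
  (1 / 3 : k) • (LieAlgebra.SpecialLinear.singleSubSingle 0 2 (1 : k)
    + LieAlgebra.SpecialLinear.singleSubSingle 1 2 (1 : k))

end Sl

section Rep

variable {k : Type*} [Field k] {U : Type*} [AddCommGroup U] [Module k U]

/-- `ρ` is a representation of `sl₃` on `U`. -/
def IsRep (ρ : Sl k →ₗ[k] Module.End k U) : Prop :=
  ∀ X Y : Sl k, ρ ⁅X, Y⁆ = ρ X * ρ Y - ρ Y * ρ X

/-- `c(w) = |w + ρ|² - |ρ|²` for `w = a α₁ + b α₂` -/
def cval (w : ℤ × ℤ) : ℤ := 2 * (w.1 * w.1 - w.1 * w.2 + w.2 * w.2) + 2 * (w.1 + w.2)

/-- The Casimir operator; on vectors of weight `w` it is `c(w) + 2 ∑_{α > 0} f_α e_α`. -/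
noncomputable def cas (ρ : Sl k →ₗ[k] Module.End k U) : Module.End k U :=
  (2 : k) • (ρ (cw1 k) * ρ (cw1 k) - ρ (cw1 k) * ρ (cw2 k) + ρ (cw2 k) * ρ (cw2 k))
    + (2 : k) • (ρ (cw1 k) + ρ (cw2 k))
    + (2 : k) • (ρ (el k 1 0 (by decide)) * ρ (el k 0 1 (by decide))
      + ρ (el k 2 1 (by decide)) * ρ (el k 1 2 (by decide))
      + ρ (el k 2 0 (by decide)) * ρ (el k 0 2 (by decide)))

end Rep

/-! ### The multiplication of the free alternative algebra -/

section AltMul

variable (k : Type*) [Field k]

theorem isAltIdeal_altIdeal : IsAltIdeal k (altIdeal k) := by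
  constructor
  · intro a x hx
    rw [altIdeal, Submodule.mem_sInf] at hx ⊢
    intro J hJ
    exact hJ.mul_left a x (hx J hJ)
  · intro a x hx
    rw [altIdeal, Submodule.mem_sInf] at hx ⊢
    intro J hJ
    exact hJ.mul_right a x (hx J hJ)
  · intro a b
    rw [altIdeal, Submodule.mem_sInf]
    intro J hJ
    exact hJ.left_alt a b
  · intro a b
    rw [altIdeal, Submodule.mem_sInf]
    intro J hJ
    exact hJ.right_alt a b

/-- The multiplication of the quotient algebra `Alt k`. -/
noncomputable def altMul : Alt k →ₗ[k] Alt k →ₗ[k] Alt k :=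
  (altIdeal k).liftQ
    (LinearMap.flip ((altIdeal k).liftQ
      ((LinearMap.mul k (FreeNonUnitalNonAssocAlgebra k (Fin 3))).compr₂ (altIdeal k).mkQ).flip
      (by
        intro y hy
        rw [LinearMap.mem_ker]
        refine LinearMap.ext fun x => ?_
        simp only [LinearMap.flip_apply, LinearMap.compr₂_apply, LinearMap.mul_apply',
          LinearMap.zero_apply, Submodule.mkQ_apply, Submodule.Quotient.mk_eq_zero]
        exact (isAltIdeal_altIdeal k).mul_left x y hy)))
    (by
      intro x hx
      rw [LinearMap.mem_ker]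
      refine LinearMap.ext fun y => ?_
      induction y using Submodule.Quotient.induction_on with
      | H y =>
      simp only [LinearMap.flip_apply, LinearMap.zero_apply]
      rw [Submodule.liftQ_apply]
      simp only [LinearMap.flip_apply, LinearMap.compr₂_apply, LinearMap.mul_apply',
          Submodule.mkQ_apply, Submodule.Quotient.mk_eq_zero]
      exact (isAltIdeal_altIdeal k).mul_right y x hx)

noncomputable instance : Mul (Alt k) := ⟨fun x y => altMul k x y⟩

theorem mk_mul_mk (x y : FreeNonUnitalNonAssocAlgebra k (Fin 3)) :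
    ((altIdeal k).mkQ x : Alt k) * ((altIdeal k).mkQ y : Alt k) = (altIdeal k).mkQ (x * y) := rfl

noncomputable instance : NonUnitalNonAssocRing (Alt k) :=
  { (inferInstance : AddCommGroup (Alt k)), (inferInstance : Mul (Alt k)) with
    left_distrib := fun a b c => map_add (altMul k a) b c
    right_distrib := fun a b c => by
      change altMul k (a + b) c = altMul k a c + altMul k b c
      rw [map_add, LinearMap.add_apply]
    zero_mul := fun a => by
      change altMul k 0 a = 0
      rw [map_zero, LinearMap.zero_apply]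
    mul_zero := fun a => map_zero (altMul k a) }

instance : IsScalarTower k (Alt k) (Alt k) := ⟨fun c x y => by
  change altMul k (c • x) y = c • altMul k x y
  rw [map_smul, LinearMap.smul_apply]⟩

instance : SMulCommClass k (Alt k) (Alt k) := ⟨fun c x y => by
  change c • altMul k x y = altMul k x (c • y)
  rw [map_smul]⟩

end AltMul

end Run7.h547.SG
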