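import Mathlib
import Pool.Agent.Run7.h187.ShDefs
import Pool.Agent.Run7.h547.SG.Defs

/-!
Interface: exact statements of the pieces for `MP_894cc0_al` (the homology of the
Allison–Benkart–Gao Lie algebra of the free alternative algebra on three generators contains a
trivial or an adjoint component in some degree `≥ 2`).

Each piece `X` goes into `Pool/Agent/Run7/h547/SG/X.lean`, namespace `Run7.h547.SG.X`, final
theorem `theorem p_X : S_X` (universe levels as in the `def`).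
-/

set_option autoImplicit false

namespace Run7.h547.SG

open TensorProduct Run7.h187.Sh

universe u v w₁

/-! ## Piece ALT: identities in alternative algebras

`dd p q r = [[p,q],r] - 3 (p,q,r)` in expanded form (`[L_p,L_q]+[R_p,R_q]+[L_p,R_q]` applied
to `r`).  All three are multilinear identities of degree 4 which follow from (polarised)
`(x,x,y) = 0 = (y,x,x)` applied to products; find the coefficients of the linear combination by
computer (120 monomials, about 240 relations) and finish with `linear_combination`/`abel`.  In (c)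
`w` is any biadditive alternating map with the cyclic identity. -/

/-- `D_{p,q}(r)`, where `D_{p,q} = [L_p,L_q]+[R_p,R_q]+[L_p,R_q]` -/
def dd {A : Type u} [NonUnitalNonAssocRing A] (p q r : A) : A :=
  (p * (q * r) - q * (p * r)) + ((r * q) * p - (r * p) * q) + (p * (r * q) - (p * r) * q)

def S_ALT : Prop := ∀ (A : Type u) [NonUnitalNonAssocRing A]
    (_hl : ∀ p q : A, (p * p) * q = p * (p * q)) (_hr : ∀ p q : A, (q * p) * p = q * (p * p)),
    -- (a) `D_{p,q}` is a derivation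
    (∀ p q r s : A, dd p q (r * s) = dd p q r * s + r * dd p q s) ∧
    -- (b) cyclic identity
    (∀ p q r s : A, dd (p * q) r s + dd (q * r) p s + dd (r * p) q s = 0) ∧
    (∀ p q : A, dd p p q = 0) ∧
    -- (c) skew-symmetry of the bracket on `B(A)`
    (∀ (B : Type v) [AddCommGroup B] (w : A →+ A →+ B), (∀ p, w p p = 0) →
      (∀ p q r, w (p * q) r + w (q * r) p + w (r * p) q = 0) →
      ∀ p q r s : A, w (dd p q r) s + w r (dd p q s) + (w (dd r s p) q + w p (dd r s q)) = 0)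

/-! ## Piece STR: a supertrace identity for `sl₃`-modules

`U` finite-dimensional, `b` a basis of weight vectors, `ε` a sign operator which commutes with
`sl₃`.  Let `c = c(w₀)`, `T = cas ρ - c`.  Split `U = ker T^N ⊕ range T^N` by polynomials in `T`
(`minpoly = X^n q`, Bezout), `π_K` and `π_R = 1 - π_K` polynomials in `T`, `S` polynomial in `T`
with `S T = π_R`.  `P_μ` = projection on weight `μ` along the basis.  With
`t(μ) = tr(ε P_μ S)`, `τ_α(μ) = tr(ε P_μ S f_α e_α)`, `d(μ) = tr(ε P_μ π_R)`: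
`d(μ) = (c(μ)-c(w₀)) t(μ) + 2 ∑_α τ_α(μ)`, `τ_α(μ) = τ_α(μ+α) + ⟨μ+α,α^∨⟩ t(μ+α)` (cyclicity of
the trace), and `∑_σ sgn(σ) d(w₀+ρ-σρ) = 0` follows by linear algebra (`linear_combination`; in
root coordinates `⟨(a,b),α₁^∨⟩ = 2a-b`, `⟨(a,b),α₂^∨⟩ = 2b-a`, `⟨(a,b),θ^∨⟩ = a+b`).  On `ker T^N` all
weights `w₀ + β`, `β ≥ 0`, `β ≠ 0`, vanish (take one of maximal height, there `cas = c(w₀+β)`, and
`c(w₀+β) ≠ c(w₀)` as `w₀` is dominant).  Put `π = P_{w₀} π_K`. -/
def S_STR : Prop := ∀ (k : Type u) [Field k] [CharZero k] (U : Type v) [AddCommGroup U] [Module k U]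
    (ρ : Sl k →ₗ[k] Module.End k U) (_hρ : IsRep ρ)
    (ι : Type w₁) [Fintype ι] (b : Module.Basis ι k U) (wt : ι → ℤ × ℤ) (n : ι → ℕ)
    (ε : Module.End k U)
    (_h1 : ∀ i, ρ (cw1 k) (b i) = ((wt i).1 : k) • b i)
    (_h2 : ∀ i, ρ (cw2 k) (b i) = ((wt i).2 : k) • b i)
    (_h3 : ∀ i, ε (b i) = ((-1 : k) ^ (n i)) • b i)
    (_h4 : ∀ X, Commute ε (ρ X))
    (w : ℤ × ℤ) (_hw1 : 0 ≤ 2 * w.1 - w.2) (_hw2 : 0 ≤ 2 * w.2 - w.1),
    -- `h₁ = 2 cw1 - cw2`, `h₂ = 2 cw2 - cw1`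
    ∃ π : Module.End k U,
      π * π = π ∧
      (∀ D : Module.End k U, (∀ X, Commute D (ρ X)) → Commute D π) ∧
      (∀ x, π x = x → ρ (cw1 k) x = (w.1 : k) • x ∧ ρ (cw2 k) x = (w.2 : k) • x ∧
        ρ (el k 0 1 (by decide)) x = 0 ∧ ρ (el k 1 2 (by decide)) x = 0) ∧
      LinearMap.trace k U (ε * π) =
        (((∑ i with wt i = w, (-1 : ℤ) ^ (n i)) - (∑ i with wt i = w + (1, 0), (-1 : ℤ) ^ (n i))
          - (∑ i with wt i = w + (0, 1), (-1 : ℤ) ^ (n i))
          + (∑ i with wt i = w + (2, 1), (-1 : ℤ) ^ (n i))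
          + (∑ i with wt i = w + (1, 2), (-1 : ℤ) ^ (n i))
          - (∑ i with wt i = w + (2, 2), (-1 : ℤ) ^ (n i)) : ℤ) : k)

/-! ## Piece EUL: vanishing supertrace of an exact complex

`V = range π`; `∂` maps `V` to `V`, `ker = range` there, and `∂ ε = - ε ∂`. -/
def S_EUL : Prop := ∀ (k : Type u) [Field k] [CharZero k] (U : Type v) [AddCommGroup U] [Module k U]
    [FiniteDimensional k U] (π ε d : Module.End k U),
    π * π = π → ε * ε = 1 → Commute ε π → Commute d π → d * ε = - (ε * d) → d * d = 0 →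
    (∀ x, π x = x → d x = 0 → ∃ y, d y = x) → LinearMap.trace k U (ε * π) = 0

/-! ## Piece HWA: highest weight vectors of weight `0` and `α₁+α₂`

(a) `f_i v` is killed by `e_i` and has negative `h_i`-weight, so it vanishes
(`IsSl2Triple.HasPrimitiveVectorWith.exists_nat`).
(b) `φ(E₁₃)=v, φ(E₂₃)=f₁v, φ(E₁₂)=-f₂v, φ(E₃₃-E₂₂)=f₂f₁v, φ(E₁₁-E₂₂)=f₁f₂v, φ(E₂₁)=f₁f₂f₁v,
φ(E₃₂)=-f₂f₁f₂v, φ(E₃₁)=f₂f₁f₂f₁v`; uses `f_i² v = 0`, the Serre relations, and
`[f₁,f₂](f₁f₂+f₂f₁)v=0` (that vector is killed by `e₃ = E₁₃` and has weight 0, hence is killed by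
`f₃ = E₃₁`).  It is enough to check equivariance for the generators `e_1,e_2,f_1,f_2` (the set of
`X` with `φ[X,Y]=ρ(X)φ(Y)` for all `Y` is a Lie subalgebra). -/
def S_HWA : Prop := ∀ (k : Type u) [Field k] [CharZero k] (U : Type v) [AddCommGroup U] [Module k U]
    [FiniteDimensional k U] (ρ : Sl k →ₗ[k] Module.End k U) (_hρ : IsRep ρ) (x : U),
    ρ (el k 0 1 (by decide)) x = 0 → ρ (el k 1 2 (by decide)) x = 0 →
    (ρ (cw1 k) x = 0 → ρ (cw2 k) x = 0 → ∀ X, ρ X x = 0) ∧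
    (ρ (cw1 k) x = x → ρ (cw2 k) x = x →
      ∃ φ : Sl k →ₗ[k] U, φ (el k 0 2 (by decide)) = x ∧ ∀ X Y : Sl k, φ ⁅X, Y⁆ = ρ X (φ Y))

/-! ## Piece SIM: nonzero ideals of `sl₃` contain `E₁₃` -/
def S_SIM : Prop := ∀ (k : Type u) [Field k] [CharZero k] (K : Submodule k (Sl k)),
    (∀ X Y : Sl k, Y ∈ K → ⁅X, Y⁆ ∈ K) → K ≠ ⊥ → el k 0 2 (by decide) ∈ K

/-! ## Piece CNT: the coefficients of `λ(a[adj]+b[triv])` as signed numbers of subsets

`pw f (n : ℤ) = f ^ n` for natural `n` (`ShTab.pw_natCast`); so `lamCoeff` is the coefficient of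
`x^m` in `∏_i (1 - x^{dg i} z^{wt i})`; expand with `Finset.prod_one_sub` or
`Finset.prod_add`/`Finset.prod_sub`. -/
def S_CNT : Prop := ∀ (m : Deg) (a b : Deg → ℕ) (I : Type u) [Fintype I] [DecidableEq I]
    (dg : I → Deg) (wt : I → ℤ × ℤ), (∀ i, dg i ≠ 0) → (∀ i, dg i ≤ m) →
    (∀ p, p ≠ 0 → p ≤ m → ∀ w, Nat.card {i // dg i = p ∧ wt i = w} =
      (if w ∈ roots then a p else if w = 0 then 2 * a p + b p else 0)) →
    ∀ w : ℤ × ℤ, (lamCoeff (fun p => (a p : ℤ)) (fun p => (b p : ℤ)) m).coeff w =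
      ∑ S : Finset I with (∑ i ∈ S, dg i = m ∧ ∑ i ∈ S, wt i = w), (-1 : ℤ) ^ S.card

/-! ## Piece GRA: the multigrading of the free alternative algebra

The derivations `N_j` of the free algebra (`w ↦ (mdeg w)_j w` on monomials) preserve `altIdeal k`
(it is enough that `{x ∈ J | N_j x ∈ J}` is an `IsAltIdeal`, by polarisation).  Independence of the
pieces: simultaneous eigenspaces, `CharZero`. -/
def S_GRA : Prop := ∀ (k : Type u) [Field k] [CharZero k],
    (∀ p q : Alt k, (p * p) * q = p * (p * q)) ∧ (∀ p q : Alt k, (q * p) * p = q * (p * p)) ∧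
    (∃ N : Fin 3 → (Alt k →ₗ[k] Alt k), (∀ j x y, N j (x * y) = N j x * y + x * N j y) ∧
      ∀ j (p : Deg), ∀ x ∈ altPiece k p, N j x = ((p j : ℕ) : k) • x) ∧
    DirectSum.IsInternal (altPiece k) ∧
    (∀ p, FiniteDimensional k (altPiece k p)) ∧
    (∀ p q, ∀ x ∈ altPiece k p, ∀ y ∈ altPiece k q, x * y ∈ altPiece k (p + q)) ∧
    altPiece k 0 = ⊥ ∧
    (∀ j, Module.finrank k (altPiece k (Finsupp.single j 1)) = 1) ∧
    (∀ p, 2 ≤ p 0 + p 1 + p 2 → ∀ x ∈ altPiece k p,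
      x ∈ Submodule.span k {z | ∃ a b : Alt k, z = a * b})

end Run7.h547.SG
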