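import Mathlib
import Pool.Agent.Run7.h547.SG.Iface

set_option autoImplicit false
set_option linter.unusedSectionVars false

namespace Run7.h547.SG.STR

open Run7.h547.SG LieAlgebra

section Brackets
variable (k : Type*) [Field k] [CharZero k]

/-- the elements of `sl₃` -/
noncomputable abbrev e1 : Sl k := el k 0 1 (by decide)
noncomputable abbrev e2 : Sl k := el k 1 2 (by decide)
noncomputable abbrev e3 : Sl k := el k 0 2 (by decide)
noncomputable abbrev f1 : Sl k := el k 1 0 (by decide)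
noncomputable abbrev f2 : Sl k := el k 2 1 (by decide)
noncomputable abbrev f3 : Sl k := el k 2 0 (by decide)

theorem b12 : ⁅cw1 k, cw2 k⁆ = 0 := by
  apply Subtype.ext
  ext i j
  fin_cases i <;> fin_cases j <;>
    (simp [cw1, cw2, el, LieRing.of_associative_ring_bracket, LieAlgebra.SpecialLinear.val_single,
      LieAlgebra.SpecialLinear.val_singleSubSingle, Matrix.mul_apply, Fin.sum_univ_three,
      Matrix.single] <;> norm_num)
theorem b1e1 : ⁅cw1 k, e1 k⁆ = e1 k := by
  apply Subtype.ext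
  ext i j
  fin_cases i <;> fin_cases j <;>
    (simp [cw1, cw2, el, LieRing.of_associative_ring_bracket, LieAlgebra.SpecialLinear.val_single,
      LieAlgebra.SpecialLinear.val_singleSubSingle, Matrix.mul_apply, Fin.sum_univ_three,
      Matrix.single] <;> norm_num)
theorem b1e2 : ⁅cw1 k, e2 k⁆ = 0 := by
  apply Subtype.ext
  ext i j
  fin_cases i <;> fin_cases j <;>
    (simp [cw1, cw2, el, LieRing.of_associative_ring_bracket, LieAlgebra.SpecialLinear.val_single,
      LieAlgebra.SpecialLinear.val_singleSubSingle, Matrix.mul_apply, Fin.sum_univ_three,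
      Matrix.single] <;> norm_num)
theorem b2e1 : ⁅cw2 k, e1 k⁆ = 0 := by
  apply Subtype.ext
  ext i j
  fin_cases i <;> fin_cases j <;>
    (simp [cw1, cw2, el, LieRing.of_associative_ring_bracket, LieAlgebra.SpecialLinear.val_single,
      LieAlgebra.SpecialLinear.val_singleSubSingle, Matrix.mul_apply, Fin.sum_univ_three,
      Matrix.single] <;> norm_num)
theorem b2e2 : ⁅cw2 k, e2 k⁆ = e2 k := by
  apply Subtype.ext
  ext i j
  fin_cases i <;> fin_cases j <;>
    (simp [cw1, cw2, el, LieRing.of_associative_ring_bracket, LieAlgebra.SpecialLinear.val_single,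
      LieAlgebra.SpecialLinear.val_singleSubSingle, Matrix.mul_apply, Fin.sum_univ_three,
      Matrix.single] <;> norm_num)
theorem b1f1 : ⁅cw1 k, f1 k⁆ = - f1 k := by
  apply Subtype.ext
  ext i j
  fin_cases i <;> fin_cases j <;>
    (simp [cw1, cw2, el, LieRing.of_associative_ring_bracket, LieAlgebra.SpecialLinear.val_single,
      LieAlgebra.SpecialLinear.val_singleSubSingle, Matrix.mul_apply, Fin.sum_univ_three,
      Matrix.single] <;> norm_num)
theorem b1f2 : ⁅cw1 k, f2 k⁆ = 0 := by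
  apply Subtype.ext
  ext i j
  fin_cases i <;> fin_cases j <;>
    (simp [cw1, cw2, el, LieRing.of_associative_ring_bracket, LieAlgebra.SpecialLinear.val_single,
      LieAlgebra.SpecialLinear.val_singleSubSingle, Matrix.mul_apply, Fin.sum_univ_three,
      Matrix.single] <;> norm_num)
theorem b2f1 : ⁅cw2 k, f1 k⁆ = 0 := by
  apply Subtype.ext
  ext i j
  fin_cases i <;> fin_cases j <;>
    (simp [cw1, cw2, el, LieRing.of_associative_ring_bracket, LieAlgebra.SpecialLinear.val_single,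
      LieAlgebra.SpecialLinear.val_singleSubSingle, Matrix.mul_apply, Fin.sum_univ_three,
      Matrix.single] <;> norm_num)
theorem b2f2 : ⁅cw2 k, f2 k⁆ = - f2 k := by
  apply Subtype.ext
  ext i j
  fin_cases i <;> fin_cases j <;>
    (simp [cw1, cw2, el, LieRing.of_associative_ring_bracket, LieAlgebra.SpecialLinear.val_single,
      LieAlgebra.SpecialLinear.val_singleSubSingle, Matrix.mul_apply, Fin.sum_univ_three,
      Matrix.single] <;> norm_num)
theorem b1f3 : ⁅cw1 k, f3 k⁆ = - f3 k := by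
  apply Subtype.ext
  ext i j
  fin_cases i <;> fin_cases j <;>
    (simp [cw1, cw2, el, LieRing.of_associative_ring_bracket, LieAlgebra.SpecialLinear.val_single,
      LieAlgebra.SpecialLinear.val_singleSubSingle, Matrix.mul_apply, Fin.sum_univ_three,
      Matrix.single] <;> norm_num)
theorem b2f3 : ⁅cw2 k, f3 k⁆ = - f3 k := by
  apply Subtype.ext
  ext i j
  fin_cases i <;> fin_cases j <;>
    (simp [cw1, cw2, el, LieRing.of_associative_ring_bracket, LieAlgebra.SpecialLinear.val_single,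
      LieAlgebra.SpecialLinear.val_singleSubSingle, Matrix.mul_apply, Fin.sum_univ_three,
      Matrix.single] <;> norm_num)
theorem b1e3 : ⁅cw1 k, e3 k⁆ = e3 k := by
  apply Subtype.ext
  ext i j
  fin_cases i <;> fin_cases j <;>
    (simp [cw1, cw2, el, LieRing.of_associative_ring_bracket, LieAlgebra.SpecialLinear.val_single,
      LieAlgebra.SpecialLinear.val_singleSubSingle, Matrix.mul_apply, Fin.sum_univ_three,
      Matrix.single] <;> norm_num)
theorem b2e3 : ⁅cw2 k, e3 k⁆ = e3 k := by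
  apply Subtype.ext
  ext i j
  fin_cases i <;> fin_cases j <;>
    (simp [cw1, cw2, el, LieRing.of_associative_ring_bracket, LieAlgebra.SpecialLinear.val_single,
      LieAlgebra.SpecialLinear.val_singleSubSingle, Matrix.mul_apply, Fin.sum_univ_three,
      Matrix.single] <;> norm_num)
theorem be1f1 : ⁅e1 k, f1 k⁆ = (2 : k) • cw1 k - cw2 k := by
  apply Subtype.ext
  ext i j
  fin_cases i <;> fin_cases j <;>
    (simp [cw1, cw2, el, LieRing.of_associative_ring_bracket, LieAlgebra.SpecialLinear.val_single,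
      LieAlgebra.SpecialLinear.val_singleSubSingle, Matrix.mul_apply, Fin.sum_univ_three,
      Matrix.single] <;> norm_num)
theorem be2f2 : ⁅e2 k, f2 k⁆ = (2 : k) • cw2 k - cw1 k := by
  apply Subtype.ext
  ext i j
  fin_cases i <;> fin_cases j <;>
    (simp [cw1, cw2, el, LieRing.of_associative_ring_bracket, LieAlgebra.SpecialLinear.val_single,
      LieAlgebra.SpecialLinear.val_singleSubSingle, Matrix.mul_apply, Fin.sum_univ_three,
      Matrix.single] <;> norm_num)
theorem be3f3 : ⁅e3 k, f3 k⁆ = cw1 k + cw2 k := by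
  apply Subtype.ext
  ext i j
  fin_cases i <;> fin_cases j <;>
    (simp [cw1, cw2, el, LieRing.of_associative_ring_bracket, LieAlgebra.SpecialLinear.val_single,
      LieAlgebra.SpecialLinear.val_singleSubSingle, Matrix.mul_apply, Fin.sum_univ_three,
      Matrix.single] <;> norm_num)
theorem be1f2 : ⁅e1 k, f2 k⁆ = 0 := by
  apply Subtype.ext
  ext i j
  fin_cases i <;> fin_cases j <;>
    (simp [cw1, cw2, el, LieRing.of_associative_ring_bracket, LieAlgebra.SpecialLinear.val_single,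
      LieAlgebra.SpecialLinear.val_singleSubSingle, Matrix.mul_apply, Fin.sum_univ_three,
      Matrix.single] <;> norm_num)
theorem be2f1 : ⁅e2 k, f1 k⁆ = 0 := by
  apply Subtype.ext
  ext i j
  fin_cases i <;> fin_cases j <;>
    (simp [cw1, cw2, el, LieRing.of_associative_ring_bracket, LieAlgebra.SpecialLinear.val_single,
      LieAlgebra.SpecialLinear.val_singleSubSingle, Matrix.mul_apply, Fin.sum_univ_three,
      Matrix.single] <;> norm_num)
theorem be1f3 : ⁅e1 k, f3 k⁆ = - f2 k := by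
  apply Subtype.ext
  ext i j
  fin_cases i <;> fin_cases j <;>
    (simp [cw1, cw2, el, LieRing.of_associative_ring_bracket, LieAlgebra.SpecialLinear.val_single,
      LieAlgebra.SpecialLinear.val_singleSubSingle, Matrix.mul_apply, Fin.sum_univ_three,
      Matrix.single] <;> norm_num)
theorem be2f3 : ⁅e2 k, f3 k⁆ = f1 k := by
  apply Subtype.ext
  ext i j
  fin_cases i <;> fin_cases j <;>
    (simp [cw1, cw2, el, LieRing.of_associative_ring_bracket, LieAlgebra.SpecialLinear.val_single,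
      LieAlgebra.SpecialLinear.val_singleSubSingle, Matrix.mul_apply, Fin.sum_univ_three,
      Matrix.single] <;> norm_num)
theorem be1e2 : ⁅e1 k, e2 k⁆ = e3 k := by
  apply Subtype.ext
  ext i j
  fin_cases i <;> fin_cases j <;>
    (simp [cw1, cw2, el, LieRing.of_associative_ring_bracket, LieAlgebra.SpecialLinear.val_single,
      LieAlgebra.SpecialLinear.val_singleSubSingle, Matrix.mul_apply, Fin.sum_univ_three,
      Matrix.single] <;> norm_num)
theorem be1e3 : ⁅e1 k, e3 k⁆ = 0 := by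
  apply Subtype.ext
  ext i j
  fin_cases i <;> fin_cases j <;>
    (simp [cw1, cw2, el, LieRing.of_associative_ring_bracket, LieAlgebra.SpecialLinear.val_single,
      LieAlgebra.SpecialLinear.val_singleSubSingle, Matrix.mul_apply, Fin.sum_univ_three,
      Matrix.single] <;> norm_num)
theorem be2e3 : ⁅e2 k, e3 k⁆ = 0 := by
  apply Subtype.ext
  ext i j
  fin_cases i <;> fin_cases j <;>
    (simp [cw1, cw2, el, LieRing.of_associative_ring_bracket, LieAlgebra.SpecialLinear.val_single,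
      LieAlgebra.SpecialLinear.val_singleSubSingle, Matrix.mul_apply, Fin.sum_univ_three,
      Matrix.single] <;> norm_num)

end Brackets

section Cas
variable {k : Type*} [Field k] [CharZero k] {R : Type*} [Ring R] [Algebra k R]

/-- the relations used for the Casimir element -/
structure Rel (H1 H2 E1 E2 E3 F1 F2 F3 : R) : Prop where
  h12 : H1 * H2 = H2 * H1
  h1e1 : H1 * E1 = E1 * H1 + E1
  h1e2 : H1 * E2 = E2 * H1
  h2e1 : H2 * E1 = E1 * H2
  h2e2 : H2 * E2 = E2 * H2 + E2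
  h1e3 : H1 * E3 = E3 * H1 + E3
  h2e3 : H2 * E3 = E3 * H2 + E3
  h1f1 : H1 * F1 = F1 * H1 - F1
  h1f2 : H1 * F2 = F2 * H1
  h2f1 : H2 * F1 = F1 * H2
  h2f2 : H2 * F2 = F2 * H2 - F2
  h1f3 : H1 * F3 = F3 * H1 - F3
  h2f3 : H2 * F3 = F3 * H2 - F3
  e1f1 : E1 * F1 = F1 * E1 + 2 * H1 - H2
  e2f2 : E2 * F2 = F2 * E2 + 2 * H2 - H1
  e3f3 : E3 * F3 = F3 * E3 + H1 + H2
  e1f2 : E1 * F2 = F2 * E1
  e2f1 : E2 * F1 = F1 * E2
  e1f3 : E1 * F3 = F3 * E1 - F2
  e2f3 : E2 * F3 = F3 * E2 + F1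
  e1e2 : E1 * E2 = E2 * E1 + E3
  e1e3 : E1 * E3 = E3 * E1
  e2e3 : E2 * E3 = E3 * E2

variable {H1 H2 E1 E2 E3 F1 F2 F3 : R}

/-- half of the Casimir element -/
def C2 (H1 H2 E1 E2 E3 F1 F2 F3 : R) : R :=
  (H1 * H1 - H1 * H2 + H2 * H2) + (H1 + H2) + (F1 * E1 + F2 * E2 + F3 * E3)

theorem C2_E1 (h : Rel H1 H2 E1 E2 E3 F1 F2 F3) :
    Commute (C2 H1 H2 E1 E2 E3 F1 F2 F3) E1 := by
  change _ * _ = _ * _
  unfold C2
  linear_combination (norm := noncomm_ring) H1 * h.h1e1 + h.h1e1 * H1 - H1 * h.h2e1 - h.h1e1 * H2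
    + H2 * h.h2e1 + h.h2e1 * H2 + 2 * h.h2e1 - h.e1f1 * E1 - F2 * h.e1e2 - h.e1f2 * E2
    - h.e1f3 * E3 - F3 * h.e1e3

theorem C2_E2 (h : Rel H1 H2 E1 E2 E3 F1 F2 F3) :
    Commute (C2 H1 H2 E1 E2 E3 F1 F2 F3) E2 := by
  change _ * _ = _ * _
  unfold C2
  linear_combination (norm := noncomm_ring) H1 * h.h1e2 + h.h1e2 * H1 - H1 * h.h2e2 - h.h1e2 * H2
    + H2 * h.h2e2 + h.h2e2 * H2 + h.h1e2 - h.e2f2 * E2 + F1 * h.e1e2 - h.e2f1 * E1
    - h.e2f3 * E3 - F3 * h.e2e3

theorem C2_E3 (h : Rel H1 H2 E1 E2 E3 F1 F2 F3) :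
    Commute (C2 H1 H2 E1 E2 E3 F1 F2 F3) E3 := by
  have h3 : E3 = E1 * E2 - E2 * E1 := by rw [h.e1e2]; abel
  have h4 := ((C2_E1 h).mul_right (C2_E2 h)).sub_right ((C2_E2 h).mul_right (C2_E1 h))
  rwa [← h3] at h4

theorem C2_H1 (h : Rel H1 H2 E1 E2 E3 F1 F2 F3) :
    Commute (C2 H1 H2 E1 E2 E3 F1 F2 F3) H1 := by
  change _ * _ = _ * _
  unfold C2
  linear_combination (norm := noncomm_ring) H1 * h.h12 - h.h12 * H2 - H2 * h.h12 - h.h12
    - h.h1f1 * E1 - F1 * h.h1e1 - h.h1f2 * E2 - F2 * h.h1e2 - h.h1f3 * E3 - F3 * h.h1e3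

theorem C2_H2 (h : Rel H1 H2 E1 E2 E3 F1 F2 F3) :
    Commute (C2 H1 H2 E1 E2 E3 F1 F2 F3) H2 := by
  change _ * _ = _ * _
  unfold C2
  linear_combination (norm := noncomm_ring) H1 * h.h12 + h.h12 * H1 - h.h12 * H2 + h.h12
    - h.h2f1 * E1 - F1 * h.h2e1 - h.h2f2 * E2 - F2 * h.h2e2 - h.h2f3 * E3 - F3 * h.h2e3

end Cas

section Fit

open Polynomial

variable {k : Type*} [Field k]

theorem commute_aeval {R : Type*} [Ring R] [Algebra k R] {T D : R} (h : Commute D T) (p : k[X]) :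
    Commute D (aeval T p) := by
  induction p using Polynomial.induction_on' with
  | add p q hp hq => rw [map_add]; exact hp.add_right hq
  | monomial n a =>
    rw [aeval_monomial]
    exact (Algebra.commute_algebraMap_right a D).mul_right (h.pow_right n)

variable {U : Type*} [AddCommGroup U] [Module k U]

theorem fitting [Module.Finite k U] (T : Module.End k U) : ∃ (N : ℕ) (p s : k[X]),
    aeval T p * aeval T p = aeval T p ∧ T ^ (N + 1) * aeval T p = 0 ∧
      aeval T s * T = 1 - aeval T p := by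
  classical
  have hm : minpoly k T ≠ 0 := minpoly.ne_zero (Algebra.IsIntegral.isIntegral T)
  obtain ⟨q, hq, hnd⟩ := exists_eq_pow_rootMultiplicity_mul_and_not_dvd (minpoly k T) hm 0
  rw [map_zero, sub_zero] at hq hnd
  set N := (minpoly k T).rootMultiplicity 0
  have hcop : IsCoprime (X ^ (N + 1)) q :=
    IsCoprime.pow_left ((irreducible_X.coprime_iff_not_dvd).2 hnd)
  obtain ⟨a, b, hab⟩ := hcop
  have h0 : ∀ r : k[X], aeval T (minpoly k T * r) = 0 := by
    intro r
    rw [map_mul, minpoly.aeval, zero_mul]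
  refine ⟨N, b * q, a * X ^ N, ?_, ?_, ?_⟩
  · have h1 : b * q * (b * q) = b * q - minpoly k T * (a * b * X) := by
      rw [hq]
      linear_combination (b * q) * hab
    rw [← map_mul, h1, map_sub, h0, sub_zero]
  · have h1 : X ^ (N + 1) * (b * q) = minpoly k T * (b * X) := by
      rw [hq]
      ring
    have h2 : T ^ (N + 1) = aeval T (X ^ (N + 1) : k[X]) := by simp
    rw [h2, ← map_mul, h1, h0]
  · have h1 : a * X ^ N * X = 1 - b * q := by
      linear_combination hab
    have h2 : aeval T (a * X ^ N) * T = aeval T (a * X ^ N * X) := by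
      rw [map_mul _ _ X, aeval_X]
    rw [h2, h1, map_sub, map_one]

end Fit

section Proj

variable {k : Type*} [Field k] [CharZero k] {U : Type*} [AddCommGroup U] [Module k U]
  {ι : Type*} (b : Module.Basis ι k U) (wt : ι → ℤ × ℤ)

/-- the projection on the weight space -/
noncomputable def P (μ : ℤ × ℤ) : Module.End k U :=
  b.constr k (fun i => if wt i = μ then b i else 0)

theorem P_b (μ : ℤ × ℤ) (i : ι) : P b wt μ (b i) = if wt i = μ then b i else 0 := by
  simp [P]

theorem repr_P (μ : ℤ × ℤ) (x : U) (i : ι) :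
    b.repr (P b wt μ x) i = if wt i = μ then b.repr x i else 0 := by
  have h : b.coord i ∘ₗ P b wt μ = if wt i = μ then b.coord i else 0 := by
    refine b.ext fun j => ?_
    rw [LinearMap.comp_apply, P_b]
    by_cases hij : i = j
    · subst hij
      by_cases h : wt i = μ <;> simp [h]
    · have h1 : b.coord i (b j) = 0 := by
        simp [Ne.symm hij]
      by_cases h : wt i = μ <;> by_cases h' : wt j = μ <;> simp [h, h', h1]
  have h2 := LinearMap.congr_fun h x
  rw [LinearMap.comp_apply] at h2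
  by_cases h : wt i = μ <;> simpa [h] using h2

variable {b wt} {H1 H2 : Module.End k U}

theorem repr_H (f : ι → k) (H : Module.End k U) (h1 : ∀ i, H (b i) = f i • b i) (x : U) (i : ι) :
    b.repr (H x) i = f i * b.repr x i := by
  have h : b.coord i ∘ₗ H = f i • b.coord i := by
    refine b.ext fun j => ?_
    rw [LinearMap.comp_apply, h1]
    by_cases hij : i = j
    · subst hij
      simp
    · simp [Ne.symm hij]
  have h2 := LinearMap.congr_fun h x
  simpa using h2

theorem P_of_wt (h1 : ∀ i, H1 (b i) = ((wt i).1 : k) • b i)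
    (h2 : ∀ i, H2 (b i) = ((wt i).2 : k) • b i) {ν : ℤ × ℤ} {x : U}
    (hx1 : H1 x = (ν.1 : k) • x) (hx2 : H2 x = (ν.2 : k) • x) (μ : ℤ × ℤ) :
    P b wt μ x = if ν = μ then x else 0 := by
  apply b.ext_elem
  intro i
  rw [repr_P]
  by_cases hi : b.repr x i = 0
  · rw [hi]
    by_cases h : ν = μ <;> simp [h, hi]
  · have h3 := repr_H _ H1 h1 x i
    have h4 := repr_H _ H2 h2 x i
    rw [hx1, map_smul, Finsupp.smul_apply, smul_eq_mul] at h3
    rw [hx2, map_smul, Finsupp.smul_apply, smul_eq_mul] at h4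
    have h5 : wt i = ν := by
      apply Prod.ext
      · exact (Int.cast_injective (α := k) (mul_right_cancel₀ hi h3)).symm
      · exact (Int.cast_injective (α := k) (mul_right_cancel₀ hi h4)).symm
    rw [h5]
    by_cases h : ν = μ <;> simp [h]

theorem H_P1 (h1 : ∀ i, H1 (b i) = ((wt i).1 : k) • b i) (μ : ℤ × ℤ) :
    H1 * P b wt μ = (μ.1 : k) • P b wt μ := by
  refine b.ext fun i => ?_
  rw [Module.End.mul_apply, LinearMap.smul_apply, P_b]
  by_cases h : wt i = μ
  · simp [h, h1]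
  · simp [h]

theorem H_P2 (h2 : ∀ i, H2 (b i) = ((wt i).2 : k) • b i) (μ : ℤ × ℤ) :
    H2 * P b wt μ = (μ.2 : k) • P b wt μ := by
  refine b.ext fun i => ?_
  rw [Module.End.mul_apply, LinearMap.smul_apply, P_b]
  by_cases h : wt i = μ
  · simp [h, h2]
  · simp [h]

theorem P_shift (h1 : ∀ i, H1 (b i) = ((wt i).1 : k) • b i)
    (h2 : ∀ i, H2 (b i) = ((wt i).2 : k) • b i) {A : Module.End k U} {a c : ℤ}
    (hA1 : H1 * A = A * H1 + (a : k) • A) (hA2 : H2 * A = A * H2 + (c : k) • A) (μ : ℤ × ℤ) :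
    P b wt (μ + (a, c)) * A = A * P b wt μ := by
  refine b.ext fun i => ?_
  rw [Module.End.mul_apply, Module.End.mul_apply, P_b]
  have h3 : H1 (A (b i)) = (((wt i + (a, c)).1 : ℤ) : k) • A (b i) := by
    have := LinearMap.congr_fun hA1 (b i)
    rw [Module.End.mul_apply] at this
    rw [this, LinearMap.add_apply, Module.End.mul_apply, h1, map_smul, LinearMap.smul_apply,
      ← add_smul]
    simp
  have h4 : H2 (A (b i)) = (((wt i + (a, c)).2 : ℤ) : k) • A (b i) := by
    have := LinearMap.congr_fun hA2 (b i)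
    rw [Module.End.mul_apply] at this
    rw [this, LinearMap.add_apply, Module.End.mul_apply, h2, map_smul, LinearMap.smul_apply,
      ← add_smul]
    simp
  rw [P_of_wt h1 h2 h3 h4]
  by_cases h : wt i = μ
  · simp [h]
  · simp [h]

theorem P_comm (h1 : ∀ i, H1 (b i) = ((wt i).1 : k) • b i)
    (h2 : ∀ i, H2 (b i) = ((wt i).2 : k) • b i) {A : Module.End k U}
    (hA1 : Commute A H1) (hA2 : Commute A H2) (μ : ℤ × ℤ) :
    Commute A (P b wt μ) := by
  have := P_shift (A := A) (a := 0) (c := 0) h1 h2 (by rw [hA1.eq]; simp) (by rw [hA2.eq]; simp) μ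
  change _ * _ = _ * _
  rw [← this]
  congr 2
  simp

theorem P_idem (μ : ℤ × ℤ) : P b wt μ * P b wt μ = P b wt μ := by
  refine b.ext fun i => ?_
  rw [Module.End.mul_apply, P_b]
  by_cases h : wt i = μ
  · simp [h, P_b]
  · simp [h]

theorem trace_P [Fintype ι] (n : ι → ℕ) (ε : Module.End k U)
    (h3 : ∀ i, ε (b i) = ((-1 : k) ^ (n i)) • b i) (μ : ℤ × ℤ) :
    LinearMap.trace k U (ε * P b wt μ) = ((∑ i with wt i = μ, (-1 : ℤ) ^ (n i) : ℤ) : k) := by
  classical
  rw [LinearMap.trace_eq_matrix_trace k b, Matrix.trace, Finset.sum_filter, Int.cast_sum]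
  refine Finset.sum_congr rfl fun i _ => ?_
  rw [Matrix.diag_apply, LinearMap.toMatrix_apply, Module.End.mul_apply, P_b]
  by_cases h : wt i = μ
  · simp [h, h3]
  · simp [h]

end Proj

section Main

variable {k : Type*} [Field k] [CharZero k] {U : Type*} [AddCommGroup U] [Module k U]

theorem rel_of_isRep (ρ : Sl k →ₗ[k] Module.End k U) (hρ : IsRep ρ) :
    Rel (ρ (cw1 k)) (ρ (cw2 k)) (ρ (e1 k)) (ρ (e2 k)) (ρ (e3 k)) (ρ (f1 k)) (ρ (f2 k))
      (ρ (f3 k)) := by
  have key : ∀ X Y, ρ X * ρ Y = ρ Y * ρ X + ρ ⁅X, Y⁆ := fun X Y => by rw [hρ]; abel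
  constructor
  · rw [key, b12, map_zero, add_zero]
  · rw [key, b1e1]
  · rw [key, b1e2, map_zero, add_zero]
  · rw [key, b2e1, map_zero, add_zero]
  · rw [key, b2e2]
  · rw [key, b1e3]
  · rw [key, b2e3]
  · rw [key, b1f1, map_neg, sub_eq_add_neg]
  · rw [key, b1f2, map_zero, add_zero]
  · rw [key, b2f1, map_zero, add_zero]
  · rw [key, b2f2, map_neg, sub_eq_add_neg]
  · rw [key, b1f3, map_neg, sub_eq_add_neg]
  · rw [key, b2f3, map_neg, sub_eq_add_neg]
  · rw [key, be1f1, map_sub, map_smul, two_smul, two_mul]; abel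
  · rw [key, be2f2, map_sub, map_smul, two_smul, two_mul]; abel
  · rw [key, be3f3, map_add]; abel
  · rw [key, be1f2, map_zero, add_zero]
  · rw [key, be2f1, map_zero, add_zero]
  · rw [key, be1f3, map_neg, sub_eq_add_neg]
  · rw [key, be2f3]
  · rw [key, be1e2]
  · rw [key, be1e3, map_zero, add_zero]
  · rw [key, be2e3, map_zero, add_zero]

/-- the linear algebra at the end -/
theorem comb (t τ1 τ2 τ3 d : ℤ × ℤ → k) (w : ℤ × ℤ)
    (hd : ∀ μ, d μ = ((cval μ : k) - (cval w : k)) * t μ + 2 * (τ1 μ + τ2 μ + τ3 μ))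
    (h1 : ∀ μ : ℤ × ℤ, τ1 μ = τ1 (μ + (1, 0)) +
      (2 * ((μ + (1, 0)).1 : k) - ((μ + (1, 0)).2 : k)) * t (μ + (1, 0)))
    (h2 : ∀ μ : ℤ × ℤ, τ2 μ = τ2 (μ + (0, 1)) +
      (2 * ((μ + (0, 1)).2 : k) - ((μ + (0, 1)).1 : k)) * t (μ + (0, 1)))
    (h3 : ∀ μ : ℤ × ℤ, τ3 μ = τ3 (μ + (1, 1)) +
      (((μ + (1, 1)).1 : k) + ((μ + (1, 1)).2 : k)) * t (μ + (1, 1))) :
    d w - d (w + (1, 0)) - d (w + (0, 1)) + d (w + (2, 1)) + d (w + (1, 2)) - d (w + (2, 2)) = 0 := by
  obtain ⟨x, y⟩ := w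
  have a1 := h1 (x, y)
  have a2 := h1 (x, y + 1)
  have a3 := h1 (x + 1, y + 1)
  have a4 := h1 (x + 1, y + 2)
  have b1 := h2 (x, y)
  have b2 := h2 (x + 1, y)
  have b3 := h2 (x + 1, y + 1)
  have b4 := h2 (x + 2, y + 1)
  have c1 := h3 (x, y)
  have c2 := h3 (x + 1, y + 1)
  have c3 := h3 (x + 1, y)
  have c4 := h3 (x, y + 1)
  simp only [Prod.mk_add_mk, add_assoc, add_zero] at a1 a2 a3 a4 b1 b2 b3 b4 c1 c2 c3 c4 ⊢
  norm_num at a1 a2 a3 a4 b1 b2 b3 b4 c1 c2 c3 c4 ⊢
  rw [hd (x, y), hd (x + 1, y), hd (x, y + 1), hd (x + 2, y + 1), hd (x + 1, y + 2),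
    hd (x + 2, y + 2)]
  simp only [cval]
  push_cast
  linear_combination 2 * a1 - 2 * (a2 + a3) + 2 * a4 + 2 * b1 - 2 * (b2 + b3) + 2 * b4
    + 2 * (c1 + c2) - 2 * c3 - 2 * c4

end Main

end Run7.h547.SG.STR
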