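import Mathlib
import Pool.Agent.Run7.h547.SG.STRBase

set_option autoImplicit false
set_option linter.unusedSectionVars false

namespace Run7.h547.SG.STR

open Run7.h547.SG LieAlgebra Polynomial

theorem cas_eq {k : Type*} [Field k] {U : Type*} [AddCommGroup U] [Module k U]
    (ρ : Sl k →ₗ[k] Module.End k U) :
    cas ρ = (2 : k) • C2 (ρ (cw1 k)) (ρ (cw2 k)) (ρ (e1 k)) (ρ (e2 k)) (ρ (e3 k)) (ρ (f1 k))
      (ρ (f2 k)) (ρ (f3 k)) := by
  unfold cas C2
  module

/-- trace relation for one root -/
theorem tau_rel {k : Type*} [Field k] {U : Type*} [AddCommGroup U] [Module k U]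
    {ε P P' S E F h : Module.End k U} (x : k) (hε : Commute ε E) (hP : P' * E = E * P)
    (hS : Commute S E) (hEF : E * F = F * E + h) (hh : P' * S * h = x • (P' * S)) :
    LinearMap.trace k U (ε * P * S * F * E) =
      LinearMap.trace k U (ε * P' * S * F * E) + x * LinearMap.trace k U (ε * P' * S) := by
  have h1 : E * (ε * P * S * F) = ε * P' * S * F * E + x • (ε * P' * S) := by
    calc E * (ε * P * S * F) = (E * ε) * P * S * F := by simp only [mul_assoc]
      _ = ε * (E * P) * S * F := by rw [← hε.eq]; simp only [mul_assoc]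
      _ = ε * P' * (E * S) * F := by rw [← hP]; simp only [mul_assoc]
      _ = ε * P' * S * (E * F) := by rw [← hS.eq]; simp only [mul_assoc]
      _ = ε * P' * S * F * E + ε * (P' * S * h) := by rw [hEF, mul_add]; simp only [mul_assoc]
      _ = _ := by rw [hh, mul_smul_comm]; simp only [mul_assoc]
  rw [LinearMap.trace_mul_comm, h1, map_add, map_smul, smul_eq_mul]

theorem p_STR : S_STR := by
  intro k _ _ U _ _ ρ hρ ι _ b wt n ε h1 h2 h3 h4 w hw1 hw2
  classical
  have : Module.Finite k U := Module.Finite.of_basis b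
  have R := rel_of_isRep ρ hρ
  have hε1 : Commute ε (ρ (e1 k)) := h4 _
  have hε2 : Commute ε (ρ (e2 k)) := h4 _
  have hε3 : Commute ε (ρ (e3 k)) := h4 _
  have hDC : ∀ D : Module.End k U, (∀ X, Commute D (ρ X)) → Commute D (C2 (ρ (cw1 k)) (ρ (cw2 k))
      (ρ (e1 k)) (ρ (e2 k)) (ρ (e3 k)) (ρ (f1 k)) (ρ (f2 k)) (ρ (f3 k))) := by
    intro D hD
    unfold C2
    exact (((((hD _).mul_right (hD _)).sub_right ((hD _).mul_right (hD _))).add_right
      ((hD _).mul_right (hD _))).add_right ((hD _).add_right (hD _))).add_right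
      ((((hD _).mul_right (hD _)).add_right ((hD _).mul_right (hD _))).add_right
      ((hD _).mul_right (hD _)))
  have hD1 : ∀ D : Module.End k U, (∀ X, Commute D (ρ X)) → Commute D (ρ (cw1 k)) :=
    fun D hD => hD _
  have hD2 : ∀ D : Module.End k U, (∀ X, Commute D (ρ X)) → Commute D (ρ (cw2 k)) :=
    fun D hD => hD _
  change ∃ π : Module.End k U, π * π = π ∧ (∀ D : Module.End k U, (∀ X, Commute D (ρ X)) →
    Commute D π) ∧ (∀ x, π x = x → ρ (cw1 k) x = (w.1 : k) • x ∧ ρ (cw2 k) x = (w.2 : k) • x ∧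
        ρ (e1 k) x = 0 ∧ ρ (e2 k) x = 0) ∧ _
  generalize ρ (cw1 k) = H1 at *
  generalize ρ (cw2 k) = H2 at *
  generalize ρ (e1 k) = E1 at *
  generalize ρ (e2 k) = E2 at *
  generalize ρ (e3 k) = E3 at *
  generalize ρ (f1 k) = F1 at *
  generalize ρ (f2 k) = F2 at *
  generalize ρ (f3 k) = F3 at *
  have hCE1 := C2_E1 R
  have hCE2 := C2_E2 R
  have hCE3 := C2_E3 R
  have hCH1 := C2_H1 R
  have hCH2 := C2_H2 R
  set C := C2 H1 H2 E1 E2 E3 F1 F2 F3 with hC
  set c : k := ((cval w : ℤ) : k) with hc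
  set T : Module.End k U := (2 : k) • C - algebraMap k _ c with hT
  have hDT : ∀ D : Module.End k U, Commute D C → Commute D T := fun D h =>
    (h.smul_right (2 : k)).sub_right (Algebra.commute_algebraMap_right _ _)
  obtain ⟨N, p, s, hp, hN, hs⟩ := fitting T
  have hDK : ∀ D : Module.End k U, Commute D C → Commute D (aeval T p) := fun D h =>
    commute_aeval (hDT D h) p
  have hDS : ∀ D : Module.End k U, Commute D C → Commute D (aeval T s) := fun D h =>
    commute_aeval (hDT D h) s
  set K := aeval T p with hK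
  set S := aeval T s with hS
  -- the projections commute
  have hPC : ∀ μ, Commute C (P b wt μ) := fun μ => P_comm h1 h2 hCH1 hCH2 μ
  have hPK : ∀ μ, Commute K (P b wt μ) := fun μ => (hDK _ (hPC μ).symm).symm
  have hPS : ∀ μ, Commute S (P b wt μ) := fun μ => (hDS _ (hPC μ).symm).symm
  have hPT : ∀ μ, Commute T (P b wt μ) := fun μ => (hDT _ (hPC μ).symm).symm
  have hsh1 : ∀ μ, P b wt (μ + (1, 0)) * E1 = E1 * P b wt μ := fun μ =>
    P_shift h1 h2 (by rw [R.h1e1]; simp) (by rw [R.h2e1]; simp) μ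
  have hsh2 : ∀ μ, P b wt (μ + (0, 1)) * E2 = E2 * P b wt μ := fun μ =>
    P_shift h1 h2 (by rw [R.h1e2]; simp) (by rw [R.h2e2]; simp) μ
  have hsh3 : ∀ μ, P b wt (μ + (1, 1)) * E3 = E3 * P b wt μ := fun μ =>
    P_shift h1 h2 (by rw [R.h1e3]; simp) (by rw [R.h2e3]; simp) μ
  have hHP1 : ∀ μ, H1 * P b wt μ = (μ.1 : k) • P b wt μ := fun μ => H_P1 h1 μ
  have hHP2 : ∀ μ, H2 * P b wt μ = (μ.2 : k) • P b wt μ := fun μ => H_P2 h2 μ
  have hPH1 : ∀ μ, P b wt μ * H1 = (μ.1 : k) • P b wt μ := fun μ => by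
    rw [← hHP1 μ]
    exact ((P_comm h1 h2 (Commute.refl H1) (show Commute H1 H2 from R.h12) μ).eq).symm
  have hPH2 : ∀ μ, P b wt μ * H2 = (μ.2 : k) • P b wt μ := fun μ => by
    rw [← hHP2 μ]
    exact ((P_comm h1 h2 (show Commute H2 H1 from R.h12.symm) (Commute.refl H2) μ).eq).symm
  -- vanishing on the kernel part
  have hvan : ∀ β : ℤ × ℤ, 0 ≤ β.1 → 0 ≤ β.2 → β ≠ 0 → P b wt (w + β) * K = 0 := by
    obtain ⟨H, hH⟩ : ∃ H : ℤ, ∀ i, (wt i).1 + (wt i).2 < H := by
      obtain ⟨H, hH⟩ := (Set.finite_range (fun i => (wt i).1 + (wt i).2)).bddAbove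
      exact ⟨H + 1, fun i => Int.lt_add_one_of_le (hH ⟨i, rfl⟩)⟩
    have key : ∀ m : ℕ, ∀ β : ℤ × ℤ, 0 ≤ β.1 → 0 ≤ β.2 → β ≠ 0 →
        H ≤ (w + β).1 + (w + β).2 + m → P b wt (w + β) * K = 0 := by
      intro m
      induction m with
      | zero =>
        intro β _ _ _ hm
        have : P b wt (w + β) = 0 := by
          refine b.ext fun i => ?_
          rw [P_b, if_neg]
          · simp
          · intro h
            have := hH i
            rw [h] at this
            push_cast at hm
            omega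
        rw [this, zero_mul]
      | succ m ih =>
        intro β hβ1 hβ2 hβ0 hm
        push_cast at hm
        simp only [Prod.fst_add, Prod.snd_add] at hm
        have i1 : P b wt (w + β + (1, 0)) * K = 0 := by
          rw [add_assoc]
          refine ih _ ?_ ?_ ?_ ?_
          · simp; omega
          · simp; omega
          · intro h
            have := congrArg Prod.fst h
            simp at this
            omega
          · simp; omega
        have i2 : P b wt (w + β + (0, 1)) * K = 0 := by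
          rw [add_assoc]
          refine ih _ ?_ ?_ ?_ ?_
          · simp; omega
          · simp; omega
          · intro h
            have := congrArg Prod.snd h
            simp at this
            omega
          · simp; omega
        have i3 : P b wt (w + β + (1, 1)) * K = 0 := by
          rw [add_assoc]
          refine ih _ ?_ ?_ ?_ ?_
          · simp; omega
          · simp; omega
          · intro h
            have := congrArg Prod.snd h
            simp at this
            omega
          · simp; omega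
        set A := P b wt (w + β) * K with hA
        have j1 : E1 * A = 0 := by
          rw [hA, ← mul_assoc, ← hsh1, mul_assoc, (hDK _ hCE1.symm).eq, ← mul_assoc, i1, zero_mul]
        have j2 : E2 * A = 0 := by
          rw [hA, ← mul_assoc, ← hsh2, mul_assoc, (hDK _ hCE2.symm).eq, ← mul_assoc, i2, zero_mul]
        have j3 : E3 * A = 0 := by
          rw [hA, ← mul_assoc, ← hsh3, mul_assoc, (hDK _ hCE3.symm).eq, ← mul_assoc, i3, zero_mul]
        have l1 : H1 * A = ((w + β).1 : k) • A := by
          rw [hA, ← mul_assoc, hHP1, smul_mul_assoc]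
        have l2 : H2 * A = ((w + β).2 : k) • A := by
          rw [hA, ← mul_assoc, hHP2, smul_mul_assoc]
        have hTA : T * A = (((cval (w + β) - cval w : ℤ) : k)) • A := by
          have e : T * A = (2 : k) • (H1 * (H1 * A) - H1 * (H2 * A) + H2 * (H2 * A) + (H1 * A + H2 * A)
            + (F1 * (E1 * A) + F2 * (E2 * A) + F3 * (E3 * A))) - c • A := by
            rw [hT, hC, C2, sub_mul, smul_mul_assoc, Algebra.algebraMap_eq_smul_one, smul_mul_assoc,
              one_mul]
            congr 2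
          rw [e, j1, j2, j3, l1, l2]
          simp only [mul_smul_comm, l1, l2, mul_zero]
          rw [hc]
          simp only [cval]
          push_cast
          module
        have hne : ((cval (w + β) - cval w : ℤ) : k) ≠ 0 := by
          have : cval (w + β) - cval w ≠ 0 := by
            have h5 : cval (w + β) - cval w = 2 * (β.1 * β.1 - β.1 * β.2 + β.2 * β.2)
              + 2 * (β.1 * (2 * w.1 - w.2) + β.2 * (2 * w.2 - w.1)) + 2 * (β.1 + β.2) := by
              simp only [cval, Prod.fst_add, Prod.snd_add]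
              ring
            have h6 : 0 < β.1 + β.2 := by
              by_contra hcon
              apply hβ0
              apply Prod.ext
              · simp; omega
              · simp; omega
            have h7 := mul_nonneg hβ1 hw1
            have h8 := mul_nonneg hβ2 hw2
            have h9 : 0 ≤ β.1 * β.1 - β.1 * β.2 + β.2 * β.2 := by
              nlinarith [sq_nonneg (β.1 - β.2), mul_nonneg hβ1 hβ2]
            rw [h5]
            linarith
          exact_mod_cast this
        have hpow : ∀ r : ℕ, T ^ r * A = (((cval (w + β) - cval w : ℤ) : k)) ^ r • A := by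
          intro r
          induction r with
          | zero => simp
          | succ r ih2 =>
            rw [pow_succ, mul_assoc, hTA, mul_smul_comm, ih2, smul_smul, pow_succ']
        have hz : T ^ (N + 1) * A = 0 := by
          rw [hA, ← mul_assoc, ((hPT (w + β)).pow_left (N + 1)).eq, mul_assoc, hN, mul_zero]
        rw [hpow] at hz
        exact (smul_eq_zero.1 hz).resolve_left (pow_ne_zero _ hne)
    intro β hβ1 hβ2 hβ0
    refine key (H - ((w + β).1 + (w + β).2)).toNat β hβ1 hβ2 hβ0 ?_
    omega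
  refine ⟨P b wt w * K, ?_, ?_, ?_, ?_⟩
  · rw [mul_assoc, ← mul_assoc K, (hPK w).eq, mul_assoc, hp, ← mul_assoc, P_idem]
  · intro D hD
    exact (P_comm h1 h2 (hD1 D hD) (hD2 D hD) w).mul_right (hDK D (hDC D hD))
  · intro x hx
    have g1 : H1 * (P b wt w * K) = (w.1 : k) • (P b wt w * K) := by
      rw [← mul_assoc, hHP1, smul_mul_assoc]
    have g2 : H2 * (P b wt w * K) = (w.2 : k) • (P b wt w * K) := by
      rw [← mul_assoc, hHP2, smul_mul_assoc]
    have g3 : E1 * (P b wt w * K) = 0 := by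
      rw [← mul_assoc, ← hsh1, mul_assoc, (hDK _ hCE1.symm).eq, ← mul_assoc,
        hvan (1, 0) (by simp) (by simp) (by simp), zero_mul]
    have g4 : E2 * (P b wt w * K) = 0 := by
      rw [← mul_assoc, ← hsh2, mul_assoc, (hDK _ hCE2.symm).eq, ← mul_assoc,
        hvan (0, 1) (by simp) (by simp) (by simp), zero_mul]
    refine ⟨?_, ?_, ?_, ?_⟩
    · have := LinearMap.congr_fun g1 x
      rwa [Module.End.mul_apply, LinearMap.smul_apply, hx] at this
    · have := LinearMap.congr_fun g2 x
      rwa [Module.End.mul_apply, LinearMap.smul_apply, hx] at this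
    · have := LinearMap.congr_fun g3 x
      rwa [Module.End.mul_apply, hx] at this
    · have := LinearMap.congr_fun g4 x
      rwa [Module.End.mul_apply, hx] at this
  -- the trace
  set t : ℤ × ℤ → k := fun μ => LinearMap.trace k U (ε * P b wt μ * S) with ht
  set τ1 : ℤ × ℤ → k := fun μ => LinearMap.trace k U (ε * P b wt μ * S * F1 * E1) with hτ1
  set τ2 : ℤ × ℤ → k := fun μ => LinearMap.trace k U (ε * P b wt μ * S * F2 * E2) with hτ2
  set τ3 : ℤ × ℤ → k := fun μ => LinearMap.trace k U (ε * P b wt μ * S * F3 * E3) with hτ3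
  set d : ℤ × ℤ → k := fun μ => LinearMap.trace k U (ε * P b wt μ * (1 - K)) with hd
  have hQ1 : ∀ μ, P b wt μ * S * H1 = (μ.1 : k) • (P b wt μ * S) := fun μ => by
    rw [mul_assoc, ← (hDS _ hCH1.symm).eq, ← mul_assoc, hPH1, smul_mul_assoc]
  have hQ2 : ∀ μ, P b wt μ * S * H2 = (μ.2 : k) • (P b wt μ * S) := fun μ => by
    rw [mul_assoc, ← (hDS _ hCH2.symm).eq, ← mul_assoc, hPH2, smul_mul_assoc]
  have m0 : ∀ μ, d μ = ((cval μ : k) - (cval w : k)) * t μ + 2 * (τ1 μ + τ2 μ + τ3 μ) := by
    intro μ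
    have e : ε * P b wt μ * (1 - K) = ((cval μ : k) - (cval w : k)) • (ε * P b wt μ * S)
        + (2 : k) • (ε * P b wt μ * S * F1 * E1 + ε * P b wt μ * S * F2 * E2
          + ε * P b wt μ * S * F3 * E3) := by
      rw [← hs, hT, hC, C2]
      have q1 := hQ1 μ
      have q2 := hQ2 μ
      set Q := P b wt μ * S with hQ
      have : ε * P b wt μ * (S * ((2 : k) • (H1 * H1 - H1 * H2 + H2 * H2 + (H1 + H2) +
          (F1 * E1 + F2 * E2 + F3 * E3)) - (algebraMap k (Module.End k U)) c)) =
          ε * ((2 : k) • (Q * H1 * H1 - Q * H1 * H2 + Q * H2 * H2 + (Q * H1 + Q * H2) +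
          (Q * F1 * E1 + Q * F2 * E2 + Q * F3 * E3)) - c • Q) := by
        rw [Algebra.algebraMap_eq_smul_one, hQ]
        simp only [mul_sub, mul_add, mul_smul_comm, mul_one, mul_assoc]
      rw [this, q1, q2]
      simp only [smul_mul_assoc, q1, q2]
      rw [hc]
      simp only [cval, mul_assoc ε, ← hQ]
      simp only [mul_sub, mul_add, mul_smul_comm, mul_assoc]
      push_cast
      module
    simp only [hd, ht, hτ1, hτ2, hτ3]
    rw [e, map_add, map_smul, map_smul, map_add, map_add, smul_eq_mul, smul_eq_mul]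
  have m1 : ∀ μ : ℤ × ℤ, τ1 μ = τ1 (μ + (1, 0)) +
      (2 * ((μ + (1, 0)).1 : k) - ((μ + (1, 0)).2 : k)) * t (μ + (1, 0)) := by
    intro μ
    refine tau_rel (h := 2 * H1 - H2) _ hε1 (hsh1 μ) (hDS _ hCE1.symm).symm
      (by rw [R.e1f1]; abel) ?_
    rw [mul_sub, hQ2, two_mul, mul_add, hQ1]
    module
  have m2 : ∀ μ : ℤ × ℤ, τ2 μ = τ2 (μ + (0, 1)) +
      (2 * ((μ + (0, 1)).2 : k) - ((μ + (0, 1)).1 : k)) * t (μ + (0, 1)) := by
    intro μ
    refine tau_rel (h := 2 * H2 - H1) _ hε2 (hsh2 μ) (hDS _ hCE2.symm).symm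
      (by rw [R.e2f2]; abel) ?_
    rw [mul_sub, hQ1, two_mul, mul_add, hQ2]
    module
  have m3 : ∀ μ : ℤ × ℤ, τ3 μ = τ3 (μ + (1, 1)) +
      (((μ + (1, 1)).1 : k) + ((μ + (1, 1)).2 : k)) * t (μ + (1, 1)) := by
    intro μ
    refine tau_rel (h := H1 + H2) _ hε3 (hsh3 μ) (hDS _ hCE3.symm).symm
      (by rw [R.e3f3]; abel) ?_
    rw [mul_add, hQ1, hQ2]
    module
  have m4 := comb t τ1 τ2 τ3 d w m0 m1 m2 m3
  have hdm : ∀ β : ℤ × ℤ, 0 ≤ β.1 → 0 ≤ β.2 → β ≠ 0 →
      d (w + β) = ((∑ i with wt i = w + β, (-1 : ℤ) ^ (n i) : ℤ) : k) := by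
    intro β a1 a2 a3
    simp only [hd]
    rw [← trace_P n ε h3, mul_sub, mul_one, mul_assoc, hvan β a1 a2 a3, mul_zero, sub_zero]
  rw [hdm (1, 0) (by simp) (by simp) (by simp), hdm (0, 1) (by simp) (by simp) (by simp),
    hdm (2, 1) (by simp) (by simp) (by simp), hdm (1, 2) (by simp) (by simp) (by simp),
    hdm (2, 2) (by simp) (by simp) (by simp)] at m4
  have m5 : LinearMap.trace k U (ε * (P b wt w * K)) =
      ((∑ i with wt i = w, (-1 : ℤ) ^ (n i) : ℤ) : k) - d w := by
    rw [← trace_P n ε h3]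
    simp only [hd]
    rw [← map_sub]
    congr 1
    rw [mul_sub, mul_one, mul_assoc]
    abel
  rw [m5]
  push_cast at m4 ⊢
  linear_combination -m4

end Run7.h547.SG.STR
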