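import Pool.Agent.Run7.h547.SG.Cou
import Pool.Agent.Run7.h547.SG.Ext
import Pool.Agent.Run7.h547.SG.STR
import Pool.Agent.Run7.h547.SG.EUL
import Pool.Agent.Run7.h547.SG.HWA
import Pool.Agent.Run7.h547.SG.SIM

/-! The multihomogeneous parts of the Chevalley–Eilenberg complex of `ABG(Alt(k³))`. -/

set_option autoImplicit false

namespace Run7.h547.SG

open TensorProduct Run7.h187.Sh ExteriorAlgebra

section

variable (k : Type*) [Field k] [CharZero k]

/-- its exterior algebra -/
abbrev EE := ExteriorAlgebra k (LL k)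

/-- index type of the basis, with a linear order -/
def Ix := Idx k

noncomputable instance : LinearOrder (Ix k) := by
  classical
  exact linearOrderOfSTO (WellOrderingRel (α := Ix k))

noncomputable def bI : Module.Basis (Ix k) k (LL k) := bL k

/-- multidegree of an exterior monomial -/
noncomputable def dX (S : Finset (Ix k)) : Deg := ∑ i ∈ S, dgI k i

/-- weight of an exterior monomial -/
noncomputable def wX (S : Finset (Ix k)) : ℤ × ℤ := ∑ i ∈ S, wtI k i

theorem th_NL (j : Fin 3) (S : Finset (Ix k)) : th (NL k j) ((bI k).ExteriorAlgebra S) =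
    ((dX k S j : ℕ) : k) • (bI k).ExteriorAlgebra S := by
  rw [th_bE (bI k) (NL k j) (fun i => ((dgI k i j : ℕ) : k)) (NL_bL k j) S, dX,
    Finsupp.finsetSum_apply, Nat.cast_sum]

theorem th_cw1 (S : Finset (Ix k)) : th (slD k (Alt k) (cw1 k)) ((bI k).ExteriorAlgebra S) =
    ((wX k S).1 : k) • (bI k).ExteriorAlgebra S := by
  rw [th_bE (bI k) (slD k (Alt k) (cw1 k)) (fun i => ((wtI k i).1 : k)) (slD_cw1_bL k) S, wX,
    Prod.fst_sum, Int.cast_sum]

theorem th_cw2 (S : Finset (Ix k)) : th (slD k (Alt k) (cw2 k)) ((bI k).ExteriorAlgebra S) =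
    ((wX k S).2 : k) • (bI k).ExteriorAlgebra S := by
  rw [th_bE (bI k) (slD k (Alt k) (cw2 k)) (fun i => ((wtI k i).2 : k)) (slD_cw2_bL k) S, wX,
    Prod.snd_sum, Int.cast_sum]

theorem th_id (S : Finset (Ix k)) :
    th (LinearMap.id : LL k →ₗ[k] LL k) ((bI k).ExteriorAlgebra S) =
    ((S.card : ℕ) : k) • (bI k).ExteriorAlgebra S := by
  rw [th_bE (bI k) LinearMap.id (fun _ => (1 : k)) (fun i => (one_smul k _).symm) S,
    Finset.sum_const, nsmul_eq_mul, mul_one]

/-! ### exterior degree -/

theorem th_id_mem (n : ℕ) : ∀ w ∈ (⋀[k]^n (LL k)),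
    th (LinearMap.id : LL k →ₗ[k] LL k) w = ((n : ℕ) : k) • w := by
  induction n with
  | zero =>
    intro w hw
    obtain ⟨r, rfl⟩ := mem_power_zero hw
    rw [th_algebraMap, Nat.cast_zero, zero_smul]
  | succ n ih =>
    refine mem_power_succ ?_ ?_
    · intro w v hw hv; rw [map_add, hw, hv, smul_add]
    · intro x w hw
      rw [th_ι_mul, ih w hw, mul_smul_comm, LinearMap.id_apply, Nat.cast_add, Nat.cast_one,
        add_smul, one_smul, add_comm]

theorem mem_pow_iff (n : ℕ) (w : EE k) :
    w ∈ (⋀[k]^n (LL k)) ↔ Sup (bI k) (fun S => S.card = n) w := by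
  constructor
  · intro hw S hS
    have h := Sup_of_eigen (bI k) (c := fun S => ((S.card : ℕ) : k)) (th_id k) (th_id_mem k n w hw)
    exact Nat.cast_injective (h S hS)
  · intro hw
    rw [Sup_iff_mem] at hw
    refine (Submodule.span_le.2 ?_) hw
    rintro _ ⟨⟨S, hS⟩, rfl⟩
    subst hS
    have : ((bI k).ExteriorAlgebra S : EE k) ∈ (⋀[k]^(S.card) (LL k)) := by
      rw [ExteriorAlgebra.basis_apply]
      exact ιMulti_range k S.card ⟨_, rfl⟩
    exact this

/-! ### multidegree -/

theorem Sup_deg_of_eigen {m : Deg} {x : EE k}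
    (h : ∀ j, th (NL k j) x = ((m j : ℕ) : k) • x) : Sup (bI k) (fun S => dX k S = m) x := by
  intro S hS
  ext j
  exact Nat.cast_injective (Sup_of_eigen (bI k) (c := fun S => ((dX k S j : ℕ) : k))
    (th_NL k j) (h j) S hS)

theorem eigen_of_Sup {m : Deg} {x : EE k} (h : Sup (bI k) (fun S => dX k S = m) x) (j : Fin 3) :
    th (NL k j) x = ((m j : ℕ) : k) • x := by
  rw [Sup_iff_mem] at h
  refine Submodule.span_induction (p := fun x _ => th (NL k j) x = ((m j : ℕ) : k) • x)
    ?_ ?_ ?_ ?_ h
  · rintro _ ⟨⟨S, hS⟩, rfl⟩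
    change th (NL k j) ((bI k).ExteriorAlgebra S) = _
    rw [th_NL, hS]
  · rw [map_zero, smul_zero]
  · intro x y _ _ hx hy; rw [map_add, hx, hy, smul_add]
  · intro c x _ hx; rw [map_smul, hx, smul_comm]

/-- operators commuting with the grading derivations preserve the multidegree -/
theorem deg_pres {T : Module.End k (EE k)}
    (hT : ∀ j w, T (th (NL k j) w) = th (NL k j) (T w)) {m : Deg} {x : EE k}
    (h : Sup (bI k) (fun S => dX k S = m) x) : Sup (bI k) (fun S => dX k S = m) (T x) := by
  refine Sup_deg_of_eigen k fun j => ?_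
  rw [← hT, eigen_of_Sup k h, map_smul]

theorem slD_NL (X : Sl k) (j : Fin 3) (w : EE k) :
    th (slD k (Alt k) X) (th (NL k j) w) = th (NL k j) (th (slD k (Alt k) X) w) := by
  have h := th_comm (slD k (Alt k) X) (NL k j) w
  have e : slD k (Alt k) X * NL k j - NL k j * slD k (Alt k) X = 0 :=
    sub_eq_zero.2 (slD_grD (GRA.NN k j) (GRA.NN_mul k j) X)
  rw [e] at h
  have h0 : th (0 : Module.End k (LL k)) w = 0 := by
    have := LinearMap.congr_fun (map_zero (thL (R := k) (L := LL k))) w
    exact this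
  rw [h0] at h
  exact (sub_eq_zero.1 h.symm)

theorem bd_NL (j : Fin 3) (w : EE k) :
    bd k (LL k) (th (NL k j) w) = th (NL k j) (bd k (LL k) w) :=
  (th_bd (NL k j) (grD_deriv (GRA.NN k j) (GRA.NN_mul k j)) w).symm

theorem sg_NL (j : Fin 3) (w : EE k) :
    sg k (LL k) (th (NL k j) w) = th (NL k j) (sg k (LL k) w) := sg_th _ _

/-- index set of the monomials of multidegree `m` -/
abbrev JX (m : Deg) := {S : Finset (Ix k) // dX k S = m}

noncomputable instance (m : Deg) : Fintype (JX k m) :=
  inferInstanceAs (Fintype (JJ k m))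

/-- the component of multidegree `m` -/
noncomputable def UU (m : Deg) : Submodule k (EE k) :=
  Submodule.span k (Set.range (fun S : JX k m => (bI k).ExteriorAlgebra S.1))

theorem mem_UU {m : Deg} {x : EE k} : x ∈ UU k m ↔ Sup (bI k) (fun S => dX k S = m) x :=
  (Sup_iff_mem (bI k) (fun S => dX k S = m) x).symm

/-- basis of `UU m` -/
noncomputable def bU (m : Deg) : Module.Basis (JX k m) k (UU k m) :=
  Module.Basis.span ((bI k).ExteriorAlgebra.linearIndependent.comp
    (fun S : JX k m => S.1) Subtype.val_injective)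

theorem bU_apply (m : Deg) (S : JX k m) :
    ((bU k m S : UU k m) : EE k) = (bI k).ExteriorAlgebra S.1 :=
  congrArg Subtype.val (Module.Basis.span_apply ((bI k).ExteriorAlgebra.linearIndependent.comp
    (fun S : JX k m => S.1) Subtype.val_injective) S)

instance (m : Deg) : FiniteDimensional k (UU k m) := Module.Basis.finiteDimensional_of_finite (bU k m)

theorem UU_pres {T : Module.End k (EE k)} (hT : ∀ j w, T (th (NL k j) w) = th (NL k j) (T w))
    {m : Deg} (x : EE k) (hx : x ∈ UU k m) : T x ∈ UU k m :=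
  (mem_UU k).2 (deg_pres k hT ((mem_UU k).1 hx))

/-- the representation of `sl₃` on `UU m` -/
noncomputable def rU (m : Deg) : Sl k →ₗ[k] Module.End k (UU k m) where
  toFun X := (th (slD k (Alt k) X)).restrict (UU_pres k (slD_NL k X))
  map_add' X Y := by
    refine LinearMap.ext fun x => Subtype.ext ?_
    change th (slD k (Alt k) (X + Y)) x.1 = th (slD k (Alt k) X) x.1 + th (slD k (Alt k) Y) x.1
    rw [slD_add, th_add, LinearMap.add_apply]
  map_smul' c X := by
    refine LinearMap.ext fun x => Subtype.ext ?_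
    change th (slD k (Alt k) (c • X)) x.1 = c • th (slD k (Alt k) X) x.1
    rw [slD_smul, th_smul, LinearMap.smul_apply]

theorem rU_val (m : Deg) (X : Sl k) (x : UU k m) :
    ((rU k m X x : UU k m) : EE k) = th (slD k (Alt k) X) x.1 := rfl

theorem rU_rep (m : Deg) : IsRep (rU k m) := by
  intro X Y
  refine LinearMap.ext fun x => Subtype.ext ?_
  change th (slD k (Alt k) ⁅X, Y⁆) x.1 = th (slD k (Alt k) X) (th (slD k (Alt k) Y) x.1) -
    th (slD k (Alt k) Y) (th (slD k (Alt k) X) x.1)
  rw [slD_lie, th_comm]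

/-- the sign operator on `UU m` -/
noncomputable def sU (m : Deg) : Module.End k (UU k m) :=
  (sg k (LL k)).restrict (UU_pres k (sg_NL k))

/-- the boundary on `UU m` -/
noncomputable def dU (m : Deg) : Module.End k (UU k m) :=
  (bd k (LL k)).restrict (UU_pres k (bd_NL k))

theorem sU_val (m : Deg) (x : UU k m) : ((sU k m x : UU k m) : EE k) = sg k (LL k) x.1 := rfl

theorem dU_val (m : Deg) (x : UU k m) : ((dU k m x : UU k m) : EE k) = bd k (LL k) x.1 := rfl

end

end Run7.h547.SG
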