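import Pool.Agent.Run7.h547.SG.Bas
import Pool.Agent.Run7.h547.SG.CNT

/-! Counting basis vectors and exterior monomials of given degree and weight. -/

set_option autoImplicit false

namespace Run7.h547.SG

open TensorProduct Run7.h187.Sh

section

variable (k : Type*) [Field k] [CharZero k]

theorem charAlt_zero : charAlt k 0 = 0 := by
  rw [charAlt, altPiece_zero, finrank_bot]

theorem bbPiece_zero : bbPiece k 0 = ⊥ := by
  rw [bbPiece, eq_bot_iff]
  refine iSup₂_le fun qr hqr => ?_
  have h := Finset.HasAntidiagonal.mem_antidiagonal.1 hqr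
  have h1 : qr.1 = 0 := by
    have := add_eq_zero.1 h
    exact this.1
  rw [h1, altPiece_zero, Submodule.map₂_bot_left]

theorem charB_zero : charB k 0 = 0 := by
  rw [charB, bbPiece_zero, finrank_bot]

theorem bbPiece_single (j : Fin 3) : bbPiece k (Finsupp.single j 1) = ⊥ := by
  rw [bbPiece, eq_bot_iff]
  refine iSup₂_le fun qr hqr => ?_
  have h := Finset.HasAntidiagonal.mem_antidiagonal.1 hqr
  by_cases h1 : qr.1 = 0
  · rw [h1, altPiece_zero, Submodule.map₂_bot_left]
  · have h2 : qr.2 = 0 := by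
      have hne : ∃ i, qr.1 i ≠ 0 := by
        by_contra hc
        push Not at hc
        exact h1 (Finsupp.ext hc)
      obtain ⟨i, hi⟩ := hne
      have e := DFunLike.congr_fun h i
      rw [Finsupp.add_apply] at e
      have hij : i = j := by
        by_contra hne
        rw [Finsupp.single_eq_of_ne hne] at e
        omega
      ext l
      have e' := DFunLike.congr_fun h l
      rw [Finsupp.add_apply] at e'
      by_cases hl : l = j
      · subst hl
        subst hij
        rw [Finsupp.single_eq_same] at e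
        rw [Finsupp.zero_apply]
        omega
      · rw [Finsupp.single_eq_of_ne hl] at e'
        rw [Finsupp.zero_apply]
        omega
    rw [h2, altPiece_zero, Submodule.map₂_bot_right]

theorem charB_single (j : Fin 3) : charB k (Finsupp.single j 1) = 0 := by
  rw [charB, bbPiece_single, finrank_bot]

theorem dgI_ne (i : Idx k) : dgI k i ≠ 0 := by
  rcases i with ⟨s, ⟨p, a⟩⟩ | ⟨p, a⟩
  · intro h
    have h' : p = 0 := h
    subst h'
    rw [charAlt_zero] at a
    exact a.elim0
  · intro h
    have h' : p = 0 := h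
    subst h'
    rw [charB_zero] at a
    exact a.elim0

/-- the basis vectors of degree `p` and weight `w` -/
def fib (p : Deg) (w : ℤ × ℤ) : (({s : Fin 8 // wS s = w} × Fin (charAlt k p)) ⊕
    {_x : Fin (charB k p) // w = 0}) → Idx k :=
  Sum.elim (fun x => Sum.inl (x.1.1, ⟨p, x.2⟩)) (fun x => Sum.inr ⟨p, x.1⟩)

theorem fib_inj (p : Deg) (w : ℤ × ℤ) : Function.Injective (fib k p w) := by
  rintro (⟨⟨s, hs⟩, a⟩ | ⟨x, hx⟩) (⟨⟨s', hs'⟩, a'⟩ | ⟨x', hx'⟩) h
  · have h' := Sum.inl_injective h
    simp only [Prod.mk.injEq, Sigma.mk.injEq, heq_eq_eq, true_and] at h'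
    obtain ⟨rfl, rfl⟩ := h'
    rfl
  · exact absurd h Sum.inl_ne_inr
  · exact absurd h Sum.inr_ne_inl
  · have h' := Sum.inr_injective h
    simp only [Sigma.mk.injEq, heq_eq_eq, true_and] at h'
    subst h'
    rfl

theorem fib_range (p : Deg) (w : ℤ × ℤ) :
    Set.range (fib k p w) = {i | dgI k i = p ∧ wtI k i = w} := by
  ext i
  constructor
  · rintro ⟨⟨⟨s, hs⟩, a⟩ | ⟨x, hx⟩, rfl⟩
    · exact ⟨rfl, hs⟩
    · exact ⟨rfl, hx.symm⟩
  · rcases i with ⟨s, ⟨q, a⟩⟩ | ⟨q, a⟩
    · rintro ⟨h1, h2⟩
      have h1' : q = p := h1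
      subst h1'
      exact ⟨Sum.inl (⟨s, h2⟩, a), rfl⟩
    · rintro ⟨h1, h2⟩
      have h1' : q = p := h1
      subst h1'
      exact ⟨Sum.inr ⟨a, h2.symm⟩, rfl⟩

theorem card_wS (w : ℤ × ℤ) : Nat.card {s : Fin 8 // wS s = w} =
    if w ∈ roots then 1 else if w = 0 then 2 else 0 := by
  rw [Nat.card_eq_fintype_card, Fintype.card_subtype]
  by_cases h : w ∈ roots
  · rw [if_pos h]
    rw [roots] at h
    simp only [Finset.mem_insert, Finset.mem_singleton] at h
    rcases h with rfl | rfl | rfl | rfl | rfl | rfl <;> decide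
  · rw [if_neg h]
    by_cases h0 : w = 0
    · subst h0
      decide
    · rw [if_neg h0, Finset.card_eq_zero, Finset.filter_eq_empty_iff]
      intro s _ hs
      have : ∀ s, wS s ∈ roots ∨ wS s = 0 := by decide
      rcases this s with h' | h'
      · exact h (hs ▸ h')
      · exact h0 (hs ▸ h')

theorem card_fib (p : Deg) (w : ℤ × ℤ) :
    Nat.card {i // dgI k i = p ∧ wtI k i = w} =
      (if w ∈ roots then charAlt k p else if w = 0 then 2 * charAlt k p + charB k p else 0) := by
  have e : Nat.card {i // dgI k i = p ∧ wtI k i = w} = Nat.card (Set.range (fib k p w)) := by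
    rw [fib_range]; rfl
  rw [e, Nat.card_range_of_injective (fib_inj k p w), Nat.card_sum, Nat.card_prod, card_wS,
    Nat.card_fin]
  by_cases h : w ∈ roots
  · have h0 : w ≠ 0 := by
      rintro rfl
      exact absurd h (by decide)
    have : Nat.card {_x : Fin (charB k p) // w = 0} = 0 := by
      haveI : IsEmpty {_x : Fin (charB k p) // w = 0} := ⟨fun x => h0 x.2⟩
      exact Nat.card_of_isEmpty
    rw [if_pos h, if_pos h, this, one_mul, add_zero]
  · rw [if_neg h, if_neg h]
    by_cases h0 : w = 0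
    · subst h0
      have : Nat.card {_x : Fin (charB k p) // (0 : ℤ × ℤ) = 0} = charB k p := by
        rw [Nat.card_eq_fintype_card, Fintype.card_subtype]
        simp
      rw [if_pos rfl, if_pos rfl, this]
    · have : Nat.card {_x : Fin (charB k p) // w = 0} = 0 := by
        haveI : IsEmpty {_x : Fin (charB k p) // w = 0} := ⟨fun x => h0 x.2⟩
        exact Nat.card_of_isEmpty
      rw [if_neg h0, if_neg h0, this, zero_mul]

theorem fin_deg (p : Deg) : {i | dgI k i = p}.Finite := by
  have : {i | dgI k i = p} ⊆ Set.range (Sum.elim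
      (fun x : Fin 8 × Fin (charAlt k p) => (Sum.inl (x.1, ⟨p, x.2⟩) : Idx k))
      (fun x : Fin (charB k p) => (Sum.inr ⟨p, x⟩ : Idx k))) := by
    rintro (⟨s, ⟨q, a⟩⟩ | ⟨q, a⟩) h
    · have h' : q = p := h
      subst h'
      exact ⟨Sum.inl (s, a), rfl⟩
    · have h' : q = p := h
      subst h'
      exact ⟨Sum.inr a, rfl⟩
  exact (Set.finite_range _).subset this

theorem fin_le (m : Deg) : {i | dgI k i ≤ m}.Finite := by
  have : {i | dgI k i ≤ m} ⊆ ⋃ p ∈ Set.Iic m, {i | dgI k i = p} := by
    intro i hi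
    simp only [Set.mem_iUnion]
    exact ⟨dgI k i, hi, rfl⟩
  exact ((Set.finite_Iic m).biUnion fun p _ => fin_deg k p).subset this

/-- the exterior monomials of multidegree `m` -/
def JJ (m : Deg) := {S : Finset (Idx k) // ∑ i ∈ S, dgI k i = m}

theorem JJ_le {m : Deg} {S : Finset (Idx k)} (h : ∑ i ∈ S, dgI k i = m) {i : Idx k} (hi : i ∈ S) :
    dgI k i ≤ m := by
  rw [← h]
  exact Finset.single_le_sum (fun _ _ => zero_le) hi

noncomputable instance (m : Deg) : Fintype (JJ k m) := by
  classical
  have : {S : Finset (Idx k) | ∑ i ∈ S, dgI k i = m}.Finite := by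
    refine ((fin_le k m).toFinset.powerset.finite_toSet).subset ?_
    intro S hS
    rw [Finset.mem_coe, Finset.mem_powerset]
    intro i hi
    rw [Set.Finite.mem_toFinset]
    exact JJ_le k hS hi
  exact this.fintype

/-- signed count of the exterior monomials of multidegree `m` and weight `w` -/
theorem coeff_lam (m : Deg) (w : ℤ × ℤ) :
    (lamCoeff (fun p => (charAlt k p : ℤ)) (fun p => (charB k p : ℤ)) m).coeff w =
      ∑ S : JJ k m with (∑ i ∈ S.1, wtI k i = w), (-1 : ℤ) ^ S.1.card := by
  classical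
  haveI : Fintype {i : Idx k // dgI k i ≤ m} := (fin_le k m).fintype
  have h := CNT.p_CNT m (charAlt k) (charB k) {i : Idx k // dgI k i ≤ m} (fun i => dgI k i.1)
    (fun i => wtI k i.1) (fun i => dgI_ne k i.1) (fun i => i.2) (by
      intro p _ hpm w
      rw [← card_fib]
      refine Nat.card_congr ⟨fun x => ⟨x.1.1, x.2⟩, fun x => ⟨⟨x.1, x.2.1.le.trans hpm⟩, x.2⟩,
        fun x => rfl, fun x => rfl⟩) w
  rw [h]
  refine Finset.sum_bij (fun S hS => (⟨S.map (Function.Embedding.subtype _), by
      rw [Finset.sum_map]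
      exact ((Finset.mem_filter.1 hS).2).1⟩ : JJ k m)) ?_ ?_ ?_ ?_
  · intro S hS
    rw [Finset.mem_filter]
    refine ⟨Finset.mem_univ _, ?_⟩
    change ∑ i ∈ S.map (Function.Embedding.subtype _), wtI k i = w
    rw [Finset.sum_map]
    exact ((Finset.mem_filter.1 hS).2).2
  · intro S _ S' _ h
    exact Finset.map_injective _ (congrArg Subtype.val h)
  · rintro ⟨S, hS⟩ hw
    have hw' : ∑ i ∈ S, wtI k i = w := (Finset.mem_filter.1 hw).2
    have hmap : (S.subtype (fun i => dgI k i ≤ m)).map (Function.Embedding.subtype _) = S :=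
      Finset.subtype_map_of_mem fun i hi => JJ_le k hS hi
    refine ⟨S.subtype (fun i => dgI k i ≤ m), ?_, Subtype.ext hmap⟩
    rw [Finset.mem_filter]
    refine ⟨Finset.mem_univ _, ?_, ?_⟩
    · have := hS
      rw [← hmap, Finset.sum_map] at this
      exact this
    · have := hw'
      rw [← hmap, Finset.sum_map] at this
      exact this
  · intro S _
    change _ = (-1 : ℤ) ^ (S.map (Function.Embedding.subtype _)).card
    rw [Finset.card_map]

end

end Run7.h547.SG
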