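import Pool.Agent.Run7.h547.SG.ABG4

/-!
Derivations of `ABG(A)`: the action of `sl₃`, and the derivations induced by derivations of `A`.
-/

set_option autoImplicit false

namespace Run7.h547.SG

open TensorProduct Matrix

section

variable {k : Type*} [Field k] {A : Type*} [NonUnitalNonAssocRing A] [Module k A]

/-- The action of `X ∈ sl₃` on `ABG(A)`: `X · (Y ⊗ p) = [X,Y] ⊗ p` and `X · b = 0` for
`b ∈ B(A)`. -/
noncomputable def slD (k : Type*) [Field k] (A : Type*) [NonUnitalNonAssocRing A] [Module k A]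
    (X : Sl k) : Module.End k (ABG k A) where
  toFun u := (LinearMap.rTensor A (lieS k X) u.1, 0)
  map_add' u v := by
    apply ABG_ext
    · exact map_add (LinearMap.rTensor A (lieS k X)) u.1 v.1
    · exact (add_zero (0 : BB k A)).symm
  map_smul' c u := by
    apply ABG_ext
    · exact map_smul (LinearMap.rTensor A (lieS k X)) c u.1
    · exact (smul_zero (A := BB k A) c).symm

theorem slD_fst (X : Sl k) (u : ABG k A) : (slD k A X u).1 = LinearMap.rTensor A (lieS k X) u.1 :=
  rfl

theorem slD_snd (X : Sl k) (u : ABG k A) : (slD k A X u).2 = 0 := rfl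

theorem slD_add (X Y : Sl k) : slD k A (X + Y) = slD k A X + slD k A Y := by
  refine LinearMap.ext fun u => ABG_ext ?_ ?_
  · rw [LinearMap.add_apply, ABG_add_fst, slD_fst, slD_fst, slD_fst, map_add,
      LinearMap.rTensor_add, LinearMap.add_apply]
  · rw [LinearMap.add_apply, ABG_add_snd, slD_snd, slD_snd, slD_snd, add_zero]

theorem slD_smul (c : k) (X : Sl k) : slD k A (c • X) = c • slD k A X := by
  refine LinearMap.ext fun u => ABG_ext ?_ ?_
  · rw [LinearMap.smul_apply, ABG_smul_fst, slD_fst, slD_fst, map_smul,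
      LinearMap.rTensor_smul, LinearMap.smul_apply]
  · rw [LinearMap.smul_apply, ABG_smul_snd, slD_snd, slD_snd, smul_zero]

theorem slD_lie (X Y : Sl k) : slD k A ⁅X, Y⁆ = slD k A X * slD k A Y - slD k A Y * slD k A X := by
  refine LinearMap.ext fun u => ABG_ext ?_ ?_
  · change LinearMap.rTensor A (lieS k ⁅X, Y⁆) u.1 = LinearMap.rTensor A (lieS k X)
      (LinearMap.rTensor A (lieS k Y) u.1) - LinearMap.rTensor A (lieS k Y)
      (LinearMap.rTensor A (lieS k X) u.1)
    rw [← LinearMap.comp_apply, ← LinearMap.comp_apply, ← LinearMap.rTensor_comp,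
      ← LinearMap.rTensor_comp, ← LinearMap.sub_apply, ← LinearMap.rTensor_sub]
    congr 2
    refine LinearMap.ext fun Z => ?_
    change ⁅⁅X, Y⁆, Z⁆ = ⁅X, ⁅Y, Z⁆⁆ - ⁅Y, ⁅X, Z⁆⁆
    rw [lie_lie]
  · change (0 : BB k A) = 0 - 0
    rw [sub_zero]

variable [CharZero k] [IsScalarTower k A A] [SMulCommClass k A A] [IsAlternative A]

theorem symS_inv (W X Y : Sl k) :
    lieS k W (symS k X Y) = symS k (lieS k W X) Y + symS k X (lieS k W Y) := by
  apply Subtype.ext
  change W.1 * ((1 / 2 : k) • (X.1 * Y.1 + Y.1 * X.1)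
      - (1 / 3 : k) • (trace (X.1 * Y.1)) • (1 : Matrix (Fin 3) (Fin 3) k)) -
      ((1 / 2 : k) • (X.1 * Y.1 + Y.1 * X.1)
      - (1 / 3 : k) • (trace (X.1 * Y.1)) • (1 : Matrix (Fin 3) (Fin 3) k)) * W.1 =
      ((1 / 2 : k) • ((W.1 * X.1 - X.1 * W.1) * Y.1 + Y.1 * (W.1 * X.1 - X.1 * W.1))
      - (1 / 3 : k) • (trace ((W.1 * X.1 - X.1 * W.1) * Y.1)) • (1 : Matrix (Fin 3) (Fin 3) k)) +
      ((1 / 2 : k) • (X.1 * (W.1 * Y.1 - Y.1 * W.1) + (W.1 * Y.1 - Y.1 * W.1) * X.1)
      - (1 / 3 : k) • (trace (X.1 * (W.1 * Y.1 - Y.1 * W.1))) • (1 : Matrix (Fin 3) (Fin 3) k))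
  have t : trace ((W.1 * X.1 - X.1 * W.1) * Y.1) = - trace (X.1 * (W.1 * Y.1 - Y.1 * W.1)) := by
    rw [Matrix.sub_mul, Matrix.mul_sub, trace_sub, trace_sub, Matrix.mul_assoc,
      trace_mul_comm W.1 (X.1 * Y.1), Matrix.mul_assoc, Matrix.mul_assoc]
    ring
  rw [t]
  simp only [Matrix.mul_sub, Matrix.sub_mul, Matrix.mul_add, Matrix.add_mul, Matrix.mul_smul,
    Matrix.smul_mul, Matrix.mul_one, Matrix.one_mul, Matrix.mul_assoc]
  module

theorem slD_slP (W : Sl k) (x y : Sl k ⊗[k] A) :
    LinearMap.rTensor A (lieS k W) (slP k A x y) =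
      slP k A (LinearMap.rTensor A (lieS k W) x) y
      + slP k A x (LinearMap.rTensor A (lieS k W) y) := by
  exact bil_ext (k := k) (f := (slP k A).compr₂ (LinearMap.rTensor A (lieS k W)))
    (g := (slP k A).compl₁₂ (LinearMap.rTensor A (lieS k W)) LinearMap.id
      + (slP k A).compl₁₂ LinearMap.id (LinearMap.rTensor A (lieS k W)))
    (fun X p Y q => by
      rw [LinearMap.compr₂_apply, LinearMap.add_apply, LinearMap.add_apply,
        LinearMap.compl₁₂_apply, LinearMap.compl₁₂_apply, LinearMap.id_apply, LinearMap.id_apply,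
        LinearMap.rTensor_tmul, LinearMap.rTensor_tmul, slP_tmul, slP_tmul, slP_tmul, map_add,
        LinearMap.rTensor_tmul, LinearMap.rTensor_tmul, symS_inv, TensorProduct.add_tmul]
      have e : lieS k W (lieS k X Y) = lieS k (lieS k W X) Y + lieS k X (lieS k W Y) :=
        leibniz_lie W X Y
      rw [e, TensorProduct.add_tmul]
      abel) x y

theorem slD_bP (W : Sl k) (x y : Sl k ⊗[k] A) :
    bP k A (LinearMap.rTensor A (lieS k W) x) y
      + bP k A x (LinearMap.rTensor A (lieS k W) y) = 0 := by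
  exact bil_ext (k := k) (f := (bP k A).compl₁₂ (LinearMap.rTensor A (lieS k W)) LinearMap.id
      + (bP k A).compl₁₂ LinearMap.id (LinearMap.rTensor A (lieS k W))) (g := 0)
    (fun X p Y q => by
      rw [LinearMap.add_apply, LinearMap.add_apply,
        LinearMap.compl₁₂_apply, LinearMap.compl₁₂_apply, LinearMap.id_apply, LinearMap.id_apply,
        LinearMap.rTensor_tmul, LinearMap.rTensor_tmul, bP_tmul, bP_tmul, lieS_val, lieS_val]
      have t : trace ((W.1 * X.1 - X.1 * W.1) * Y.1) = - trace (X.1 * (W.1 * Y.1 - Y.1 * W.1)) := by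
        rw [Matrix.sub_mul, Matrix.mul_sub, trace_sub, trace_sub, Matrix.mul_assoc,
          trace_mul_comm W.1 (X.1 * Y.1), Matrix.mul_assoc, Matrix.mul_assoc]
        ring
      rw [t, neg_smul, smul_neg, neg_add_cancel]
      rfl) x y

theorem slD_mP (W : Sl k) (b : BB k A) (x : Sl k ⊗[k] A) :
    LinearMap.rTensor A (lieS k W) (mP k A b x) = mP k A b (LinearMap.rTensor A (lieS k W) x) := by
  induction x using TensorProduct.induction_on with
  | zero => simp
  | add x y hx hy => simp only [map_add, hx, hy]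
  | tmul X p => rfl

/-- `sl₃` acts on `ABG(A)` by derivations -/
theorem slD_deriv (X : Sl k) (u v : ABG k A) :
    slD k A X ⁅u, v⁆ = ⁅slD k A X u, v⁆ + ⁅u, slD k A X v⁆ := by
  apply ABG_ext
  · rw [slD_fst, lie_fst, ABG_add_fst, lie_fst, lie_fst, slD_fst, slD_fst, slD_snd, slD_snd,
      map_sub, map_add, slD_slP, slD_mP, slD_mP, map_zero, LinearMap.zero_apply,
      LinearMap.zero_apply]
    abel
  · rw [slD_snd, ABG_add_snd, lie_snd, lie_snd, slD_fst, slD_fst, slD_snd, slD_snd, map_zero,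
      map_zero, LinearMap.zero_apply, add_zero, add_zero, slD_bP]

/-! ### derivations induced by derivations of `A` -/

omit [CharZero k] in
theorem dB_extB (δ : A →ₗ[k] A) (h : ∀ r s, δ (r * s) = δ r * s + r * δ s) (c : BB k A) (x : A) :
    dB k A (extB δ h c) x = δ (dB k A c x) - dB k A c (δ x) := by
  refine BB_induction (P := fun c => dB k A (extB δ h c) x = δ (dB k A c x) - dB k A c (δ x))
    (by simp) ?_ ?_ c
  · intro p q
    rw [extB_wd, map_add, LinearMap.add_apply, dB_wd, dB_wd, dB_wd, dB_wd]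
    simp only [dd, map_add, map_sub, h, mul_add, add_mul]
    abel
  · intro y z hy hz
    simp only [map_add, LinearMap.add_apply, hy, hz]
    abel

/-- The endomorphism of `ABG(A)` induced by a derivation of `A`. -/
noncomputable def grD (δ : A →ₗ[k] A) (h : ∀ r s, δ (r * s) = δ r * s + r * δ s) :
    Module.End k (ABG k A) where
  toFun u := (LinearMap.lTensor (Sl k) δ u.1, extB δ h u.2)
  map_add' u v := by
    apply ABG_ext
    · exact map_add (LinearMap.lTensor (Sl k) δ) u.1 v.1
    · exact map_add (extB δ h) u.2 v.2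
  map_smul' c u := by
    apply ABG_ext
    · exact map_smul (LinearMap.lTensor (Sl k) δ) c u.1
    · exact map_smul (extB δ h) c u.2

variable (δ : A →ₗ[k] A) (h : ∀ r s, δ (r * s) = δ r * s + r * δ s)

theorem grD_fst (u : ABG k A) : (grD δ h u).1 = LinearMap.lTensor (Sl k) δ u.1 := rfl

theorem grD_snd (u : ABG k A) : (grD δ h u).2 = extB δ h u.2 := rfl

include h in
theorem grD_slP (y z : Sl k ⊗[k] A) :
    LinearMap.lTensor (Sl k) δ (slP k A y z) = slP k A (LinearMap.lTensor (Sl k) δ y) z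
      + slP k A y (LinearMap.lTensor (Sl k) δ z) := by
  exact bil_ext (k := k) (f := (slP k A).compr₂ (LinearMap.lTensor (Sl k) δ))
    (g := (slP k A).compl₁₂ (LinearMap.lTensor (Sl k) δ) LinearMap.id
      + (slP k A).compl₁₂ LinearMap.id (LinearMap.lTensor (Sl k) δ))
    (fun Y q Z r => by
      rw [LinearMap.compr₂_apply, LinearMap.add_apply, LinearMap.add_apply,
        LinearMap.compl₁₂_apply, LinearMap.compl₁₂_apply, LinearMap.id_apply, LinearMap.id_apply,
        LinearMap.lTensor_tmul, LinearMap.lTensor_tmul, slP_tmul, slP_tmul, slP_tmul, map_add,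
        LinearMap.lTensor_tmul, LinearMap.lTensor_tmul]
      simp only [jor_apply, com_apply, map_smul, map_add, map_sub, h, tmul_add, tmul_sub,
        tmul_smul, smul_add]
      abel) y z

theorem grD_mP (b : BB k A) (z : Sl k ⊗[k] A) :
    LinearMap.lTensor (Sl k) δ (mP k A b z) = mP k A (extB δ h b) z
      + mP k A b (LinearMap.lTensor (Sl k) δ z) := by
  induction z using TensorProduct.induction_on with
  | zero => simp
  | add z z' hz hz' => simp only [map_add, hz, hz']; abel
  | tmul Z r =>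
    rw [mP_tmul, mP_tmul, LinearMap.lTensor_tmul, LinearMap.lTensor_tmul, mP_tmul, dB_extB,
      tmul_sub]
    abel

theorem grD_bP (y z : Sl k ⊗[k] A) :
    extB δ h (bP k A y z) = bP k A (LinearMap.lTensor (Sl k) δ y) z
      + bP k A y (LinearMap.lTensor (Sl k) δ z) := by
  exact bil_ext (k := k) (f := (bP k A).compr₂ (extB δ h))
    (g := (bP k A).compl₁₂ (LinearMap.lTensor (Sl k) δ) LinearMap.id
      + (bP k A).compl₁₂ LinearMap.id (LinearMap.lTensor (Sl k) δ))
    (fun Y q Z r => by
      rw [LinearMap.compr₂_apply, LinearMap.add_apply, LinearMap.add_apply,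
        LinearMap.compl₁₂_apply, LinearMap.compl₁₂_apply, LinearMap.id_apply, LinearMap.id_apply,
        LinearMap.lTensor_tmul, LinearMap.lTensor_tmul, bP_tmul, bP_tmul, bP_tmul, map_smul,
        map_smul, extB_wd, smul_add, smul_add]) y z

theorem grD_actB (b c : BB k A) :
    extB δ h (actB k A b c) = actB k A (extB δ h b) c + actB k A b (extB δ h c) := by
  refine BB_induction (P := fun c => extB δ h (actB k A b c) =
    actB k A (extB δ h b) c + actB k A b (extB δ h c)) (by simp) ?_ ?_ c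
  · intro p q
    simp only [actB_wd, map_add, dB_extB, map_sub, LinearMap.sub_apply, extB_wd]
    abel
  · intro y z hy hz
    simp only [map_add, hy, hz]
    abel

theorem grD_deriv (u v : ABG k A) : grD δ h ⁅u, v⁆ = ⁅grD δ h u, v⁆ + ⁅u, grD δ h v⁆ := by
  apply ABG_ext
  · rw [grD_fst, lie_fst, ABG_add_fst, lie_fst, lie_fst, grD_fst, grD_fst, grD_snd, grD_snd,
      map_sub, map_add, grD_slP δ h, grD_mP δ h, grD_mP δ h]
    abel
  · rw [grD_snd, ABG_add_snd, lie_snd, lie_snd, lie_snd, grD_fst, grD_fst, grD_snd, grD_snd,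
      map_add, grD_bP, grD_actB]
    abel

theorem slD_grD (X : Sl k) : slD k A X * grD δ h = grD δ h * slD k A X := by
  refine LinearMap.ext fun u => ABG_ext ?_ ?_
  · change LinearMap.rTensor A (lieS k X) (LinearMap.lTensor (Sl k) δ u.1) =
      LinearMap.lTensor (Sl k) δ (LinearMap.rTensor A (lieS k X) u.1)
    rw [← LinearMap.comp_apply, ← LinearMap.comp_apply, LinearMap.rTensor_comp_lTensor,
      LinearMap.lTensor_comp_rTensor]
  · change (0 : BB k A) = extB δ h 0
    rw [map_zero]

end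

end Run7.h547.SG
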