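import Pool.Agent.Run7.h547.SG.Chain

/-! Exactness of the relevant part of the complex, if the homology has no trivial and no adjoint
component. -/

set_option autoImplicit false

namespace Run7.h547.SG

open TensorProduct Run7.h187.Sh ExteriorAlgebra Matrix

section

variable (k : Type*) [Field k] [CharZero k]

/-! ### ideals of `sl₃` containing `E₀₂` -/

theorem bSl_0 : bSl k 0 = el k 0 1 (by decide) := by
  apply Subtype.ext
  rw [bSl_val, HWA.v01]
  ext a b
  fin_cases a <;> fin_cases b <;> simp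

theorem bSl_1 : bSl k 1 = el k 1 2 (by decide) := by
  apply Subtype.ext
  rw [bSl_val, HWA.v12]
  ext a b
  fin_cases a <;> fin_cases b <;> simp

theorem bSl_2 : bSl k 2 = el k 0 2 (by decide) := by
  apply Subtype.ext
  rw [bSl_val, HWA.v02]
  ext a b
  fin_cases a <;> fin_cases b <;> simp

theorem bSl_3 : bSl k 3 = el k 1 0 (by decide) := by
  apply Subtype.ext
  rw [bSl_val, HWA.v10]
  ext a b
  fin_cases a <;> fin_cases b <;> simp

theorem bSl_4 : bSl k 4 = el k 2 1 (by decide) := by
  apply Subtype.ext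
  rw [bSl_val, HWA.v21]
  ext a b
  fin_cases a <;> fin_cases b <;> simp

theorem bSl_5 : bSl k 5 = el k 2 0 (by decide) := by
  apply Subtype.ext
  rw [bSl_val, HWA.v20]
  ext a b
  fin_cases a <;> fin_cases b <;> simp

theorem bSl_6 : bSl k 6 = ⁅el k 0 2 (by decide), el k 2 0 (by decide)⁆ := by
  apply Subtype.ext
  rw [bSl_val, Sl_lie, HWA.v02, HWA.v20]
  ext a b
  fin_cases a <;> fin_cases b <;> simp [Matrix.mul_apply, Fin.sum_univ_three]

theorem bSl_7 : bSl k 7 = ⁅el k 1 2 (by decide), el k 2 1 (by decide)⁆ := by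
  apply Subtype.ext
  rw [bSl_val, Sl_lie, HWA.v12, HWA.v21]
  ext a b
  fin_cases a <;> fin_cases b <;> simp [Matrix.mul_apply, Fin.sum_univ_three]

theorem ideal_top (K : Submodule k (Sl k)) (hK : ∀ X Y : Sl k, Y ∈ K → ⁅X, Y⁆ ∈ K)
    (h : el k 0 2 (by decide) ∈ K) : ∀ Y : Sl k, Y ∈ K := by
  have hK' : ∀ X Y : Sl k, Y ∈ K → ⁅Y, X⁆ ∈ K := by
    intro X Y hY
    rw [← lie_skew]
    exact K.neg_mem (hK X Y hY)
  have h12 : el k 1 2 (by decide) ∈ K := by
    rw [← SIM.br 1 0 2 (by decide) (by decide) (by decide)]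
    exact hK _ _ h
  have h01 : el k 0 1 (by decide) ∈ K := by
    rw [← SIM.br 0 2 1 (by decide) (by decide) (by decide)]
    exact hK' _ _ h
  have h10 : el k 1 0 (by decide) ∈ K := by
    rw [← SIM.br 1 2 0 (by decide) (by decide) (by decide)]
    exact hK' _ _ h12
  have h21 : el k 2 1 (by decide) ∈ K := by
    rw [← SIM.br 2 0 1 (by decide) (by decide) (by decide)]
    exact hK _ _ h01
  have h20 : el k 2 0 (by decide) ∈ K := by
    rw [← SIM.br 2 1 0 (by decide) (by decide) (by decide)]
    exact hK _ _ h10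
  have hb : ∀ i, bSl k i ∈ K := by
    intro i
    fin_cases i
    · change bSl k 0 ∈ K; rw [bSl_0]; exact h01
    · change bSl k 1 ∈ K; rw [bSl_1]; exact h12
    · change bSl k 2 ∈ K; rw [bSl_2]; exact h
    · change bSl k 3 ∈ K; rw [bSl_3]; exact h10
    · change bSl k 4 ∈ K; rw [bSl_4]; exact h21
    · change bSl k 5 ∈ K; rw [bSl_5]; exact h20
    · change bSl k 6 ∈ K; rw [bSl_6]; exact hK _ _ h20
    · change bSl k 7 ∈ K; rw [bSl_7]; exact hK _ _ h21
  intro Y
  rw [← (bSl k).sum_repr Y]
  exact Submodule.sum_mem _ fun i _ => K.smul_mem _ (hb i)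

/-! ### the derived algebra -/

/-- the span of all brackets -/
noncomputable def CC : Submodule k (LL k) := Submodule.span k {z | ∃ u v : LL k, z = ⁅u, v⁆}

theorem CC_slD (X : Sl k) (z : LL k) (hz : z ∈ CC k) : slD k (Alt k) X z ∈ CC k := by
  rw [CC] at hz
  refine Submodule.span_induction (p := fun z _ => slD k (Alt k) X z ∈ CC k) ?_ ?_ ?_ ?_ hz
  · rintro _ ⟨u, v, rfl⟩
    rw [slD_deriv]
    exact Submodule.add_mem _ (Submodule.subset_span ⟨_, _, rfl⟩)
      (Submodule.subset_span ⟨_, _, rfl⟩)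
  · rw [map_zero]; exact Submodule.zero_mem _
  · intro x y _ _ hx hy; rw [map_add]; exact Submodule.add_mem _ hx hy
  · intro c x _ hx; rw [map_smul]; exact Submodule.smul_mem _ _ hx

/-- `X ⊗ p` as an element of `ABG` -/
noncomputable def inT (X : Sl k) (p : Alt k) : LL k :=
  ((X ⊗ₜ[k] p, 0) : (Sl k ⊗[k] Alt k) × BB k (Alt k))

/-- an element of `B` as an element of `ABG` -/
noncomputable def inB (b : BB k (Alt k)) : LL k :=
  ((0, b) : (Sl k ⊗[k] Alt k) × BB k (Alt k))

theorem lie_inT (X Y : Sl k) (p q : Alt k) : ⁅inT k X p, inT k Y q⁆ =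
    (((lieS k X Y) ⊗ₜ[k] (jor k (Alt k) p q) + (symS k X Y) ⊗ₜ[k] (com k (Alt k) p q),
      (1 / 3 : k) • (trace (X.1 * Y.1)) • wd k (Alt k) p q) :
        (Sl k ⊗[k] Alt k) × BB k (Alt k)) := by
  apply ABG_ext
  · rw [lie_fst]
    change slP k (Alt k) (X ⊗ₜ p) (Y ⊗ₜ q) + mP k (Alt k) 0 (Y ⊗ₜ q) - mP k (Alt k) 0 (X ⊗ₜ p) = _
    rw [map_zero, LinearMap.zero_apply, LinearMap.zero_apply, add_zero, sub_zero, slP_tmul]
  · rw [lie_snd]
    change bP k (Alt k) (X ⊗ₜ p) (Y ⊗ₜ q) + actB k (Alt k) 0 0 = _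
    rw [map_zero, add_zero, bP_tmul]

theorem inT_off (i l j : Fin 3) (hil : i ≠ l) (hlj : l ≠ j) (hij : i ≠ j) (p q : Alt k) :
    inT k (el k i j hij) (p * q) ∈ CC k := by
  have h1 : lieS k (el k i l hil) (el k l j hlj) = el k i j hij :=
    SIM.br i l j hil hlj hij
  have h2 : symS k (el k i l hil) (el k l j hlj) = (1 / 2 : k) • el k i j hij := by
    apply Subtype.ext
    rw [symS_val]
    change (1 / 2 : k) • (Matrix.single i l (1 : k) * Matrix.single l j 1
      + Matrix.single l j 1 * Matrix.single i l 1) - (1 / 3 : k) •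
      (trace (Matrix.single i l (1 : k) * Matrix.single l j 1)) • (1 : Matrix (Fin 3) (Fin 3) k) =
      (1 / 2 : k) • Matrix.single i j (1 : k)
    rw [Matrix.single_mul_single_same, Matrix.single_mul_single_of_ne _ _ _ _ hij.symm,
      Matrix.trace_single_eq_of_ne _ _ _ hij]
    simp
  have h3 : trace ((el k i l hil).1 * (el k l j hlj).1) = 0 := by
    change trace (Matrix.single i l (1 : k) * Matrix.single l j 1) = 0
    rw [Matrix.single_mul_single_same, Matrix.trace_single_eq_of_ne _ _ _ hij]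
  have e : inT k (el k i j hij) (p * q) =
      ⁅inT k (el k i l hil) p, inT k (el k l j hlj) q⁆ := by
    rw [lie_inT, h1, h2, h3]
    apply ABG_ext
    · change (el k i j hij) ⊗ₜ[k] (p * q) = (el k i j hij) ⊗ₜ[k] (jor k (Alt k) p q) +
        ((1 / 2 : k) • el k i j hij) ⊗ₜ[k] (com k (Alt k) p q)
      rw [jor_apply, com_apply, TensorProduct.smul_tmul, ← tmul_add]
      congr 1
      module
    · change (0 : BB k (Alt k)) = (1 / 3 : k) • (0 : k) • wd k (Alt k) p q
      rw [zero_smul, smul_zero]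
  rw [e]
  exact Submodule.subset_span ⟨_, _, rfl⟩

theorem slD_inT (X Y : Sl k) (p : Alt k) : slD k (Alt k) X (inT k Y p) = inT k ⁅X, Y⁆ p := rfl

theorem inT_prod (X : Sl k) (p q : Alt k) : inT k X (p * q) ∈ CC k := by
  have hb : ∀ i, inT k (bSl k i) (p * q) ∈ CC k := by
    intro i
    fin_cases i
    · change inT k (bSl k 0) (p * q) ∈ CC k
      rw [bSl_0]; exact inT_off k 0 2 1 (by decide) (by decide) (by decide) p q
    · change inT k (bSl k 1) (p * q) ∈ CC k
      rw [bSl_1]; exact inT_off k 1 0 2 (by decide) (by decide) (by decide) p q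
    · change inT k (bSl k 2) (p * q) ∈ CC k
      rw [bSl_2]; exact inT_off k 0 1 2 (by decide) (by decide) (by decide) p q
    · change inT k (bSl k 3) (p * q) ∈ CC k
      rw [bSl_3]; exact inT_off k 1 2 0 (by decide) (by decide) (by decide) p q
    · change inT k (bSl k 4) (p * q) ∈ CC k
      rw [bSl_4]; exact inT_off k 2 0 1 (by decide) (by decide) (by decide) p q
    · change inT k (bSl k 5) (p * q) ∈ CC k
      rw [bSl_5]; exact inT_off k 2 1 0 (by decide) (by decide) (by decide) p q
    · change inT k (bSl k 6) (p * q) ∈ CC k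
      rw [bSl_6, ← slD_inT]
      exact CC_slD k _ _ (inT_off k 2 1 0 (by decide) (by decide) (by decide) p q)
    · change inT k (bSl k 7) (p * q) ∈ CC k
      rw [bSl_7, ← slD_inT]
      exact CC_slD k _ _ (inT_off k 2 0 1 (by decide) (by decide) (by decide) p q)
  have e : inT k X (p * q) = ∑ i, ((bSl k).repr X i) • inT k (bSl k i) (p * q) := by
    let f : Sl k →ₗ[k] LL k :=
      { toFun := fun X => inT k X (p * q)
        map_add' := fun X Y => by
          apply ABG_ext
          · exact add_tmul X Y (p * q)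
          · exact (add_zero (0 : BB k (Alt k))).symm
        map_smul' := fun c X => by
          apply ABG_ext
          · exact (TensorProduct.smul_tmul' c X (p * q)).symm
          · exact (smul_zero (A := BB k (Alt k)) c).symm }
    change f X = ∑ i, ((bSl k).repr X i) • f (bSl k i)
    conv_lhs => rw [← (bSl k).sum_repr X]
    rw [map_sum]
    simp only [map_smul]
  rw [e]
  exact Submodule.sum_mem _ fun i _ => Submodule.smul_mem _ _ (hb i)

theorem sum_symS : symS k (el k 0 1 (by decide)) (el k 1 0 (by decide))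
    + symS k (el k 1 0 (by decide)) (el k 0 1 (by decide))
    + symS k (el k 0 2 (by decide)) (el k 2 0 (by decide))
    + symS k (el k 2 0 (by decide)) (el k 0 2 (by decide))
    + symS k (el k 1 2 (by decide)) (el k 2 1 (by decide))
    + symS k (el k 2 1 (by decide)) (el k 1 2 (by decide)) = 0 := by
  apply Subtype.ext
  change (symS k (el k 0 1 (by decide)) (el k 1 0 (by decide))).1
    + (symS k (el k 1 0 (by decide)) (el k 0 1 (by decide))).1
    + (symS k (el k 0 2 (by decide)) (el k 2 0 (by decide))).1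
    + (symS k (el k 2 0 (by decide)) (el k 0 2 (by decide))).1
    + (symS k (el k 1 2 (by decide)) (el k 2 1 (by decide))).1
    + (symS k (el k 2 1 (by decide)) (el k 1 2 (by decide))).1 = 0
  simp only [symS_val, HWA.v01, HWA.v12, HWA.v02, HWA.v10, HWA.v21, HWA.v20]
  ext a b
  fin_cases a <;> fin_cases b <;>
    simp [Matrix.mul_apply, Fin.sum_univ_three, Matrix.trace_fin_three] <;> norm_num

theorem tr_el (i j : Fin 3) (h : i ≠ j) :
    trace ((el k i j h).1 * (el k j i h.symm).1) = 1 := by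
  change trace (Matrix.single i j (1 : k) * Matrix.single j i 1) = 1
  rw [Matrix.single_mul_single_same, Matrix.trace_single_eq_same, one_mul]

theorem inB_wd (p q : Alt k) : inB k (wd k (Alt k) p q) ∈ CC k := by
  have e : (2 : k) • inB k (wd k (Alt k) p q) =
      ⁅inT k (el k 0 1 (by decide)) p, inT k (el k 1 0 (by decide)) q⁆
      + ⁅inT k (el k 1 0 (by decide)) p, inT k (el k 0 1 (by decide)) q⁆
      + ⁅inT k (el k 0 2 (by decide)) p, inT k (el k 2 0 (by decide)) q⁆
      + ⁅inT k (el k 2 0 (by decide)) p, inT k (el k 0 2 (by decide)) q⁆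
      + ⁅inT k (el k 1 2 (by decide)) p, inT k (el k 2 1 (by decide)) q⁆
      + ⁅inT k (el k 2 1 (by decide)) p, inT k (el k 1 2 (by decide)) q⁆ := by
    simp only [lie_inT]
    rw [tr_el k 0 1 (by decide), tr_el k 1 0 (by decide), tr_el k 0 2 (by decide),
      tr_el k 2 0 (by decide), tr_el k 1 2 (by decide), tr_el k 2 1 (by decide)]
    have hs := congrArg (fun Z : Sl k => Z ⊗ₜ[k] (com k (Alt k) p q)) (sum_symS k)
    simp only [add_tmul, zero_tmul] at hs
    apply ABG_ext
    · change (2 : k) • (0 : Sl k ⊗[k] Alt k) =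
        ((lieS k (el k 0 1 (by decide)) (el k 1 0 (by decide))) ⊗ₜ[k] (jor k (Alt k) p q)
          + (symS k (el k 0 1 (by decide)) (el k 1 0 (by decide))) ⊗ₜ[k] (com k (Alt k) p q))
        + ((lieS k (el k 1 0 (by decide)) (el k 0 1 (by decide))) ⊗ₜ[k] (jor k (Alt k) p q)
          + (symS k (el k 1 0 (by decide)) (el k 0 1 (by decide))) ⊗ₜ[k] (com k (Alt k) p q))
        + ((lieS k (el k 0 2 (by decide)) (el k 2 0 (by decide))) ⊗ₜ[k] (jor k (Alt k) p q)
          + (symS k (el k 0 2 (by decide)) (el k 2 0 (by decide))) ⊗ₜ[k] (com k (Alt k) p q))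
        + ((lieS k (el k 2 0 (by decide)) (el k 0 2 (by decide))) ⊗ₜ[k] (jor k (Alt k) p q)
          + (symS k (el k 2 0 (by decide)) (el k 0 2 (by decide))) ⊗ₜ[k] (com k (Alt k) p q))
        + ((lieS k (el k 1 2 (by decide)) (el k 2 1 (by decide))) ⊗ₜ[k] (jor k (Alt k) p q)
          + (symS k (el k 1 2 (by decide)) (el k 2 1 (by decide))) ⊗ₜ[k] (com k (Alt k) p q))
        + ((lieS k (el k 2 1 (by decide)) (el k 1 2 (by decide))) ⊗ₜ[k] (jor k (Alt k) p q)
          + (symS k (el k 2 1 (by decide)) (el k 1 2 (by decide))) ⊗ₜ[k] (com k (Alt k) p q))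
      rw [lieS_skew (el k 1 0 (by decide)) (el k 0 1 (by decide)),
        lieS_skew (el k 2 0 (by decide)) (el k 0 2 (by decide)),
        lieS_skew (el k 2 1 (by decide)) (el k 1 2 (by decide)), neg_tmul, neg_tmul, neg_tmul,
        smul_zero]
      linear_combination (norm := module) (-1 : k) • hs
    · change (2 : k) • wd k (Alt k) p q =
        (1 / 3 : k) • (1 : k) • wd k (Alt k) p q + (1 / 3 : k) • (1 : k) • wd k (Alt k) p q
        + (1 / 3 : k) • (1 : k) • wd k (Alt k) p q + (1 / 3 : k) • (1 : k) • wd k (Alt k) p q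
        + (1 / 3 : k) • (1 : k) • wd k (Alt k) p q + (1 / 3 : k) • (1 : k) • wd k (Alt k) p q
      module
  have h2 : (2 : k) • inB k (wd k (Alt k) p q) ∈ CC k := by
    rw [e]
    refine Submodule.add_mem _ (Submodule.add_mem _ (Submodule.add_mem _ (Submodule.add_mem _
      (Submodule.add_mem _ ?_ ?_) ?_) ?_) ?_) ?_ <;>
    exact Submodule.subset_span ⟨_, _, rfl⟩
  have h3 := Submodule.smul_mem _ (1 / 2 : k) h2
  rw [smul_smul, one_div, inv_mul_cancel₀ two_ne_zero, one_smul] at h3
  exact h3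

theorem inB_mem (b : BB k (Alt k)) : inB k b ∈ CC k := by
  refine BB_induction (P := fun b => inB k b ∈ CC k) (Submodule.zero_mem _) (inB_wd k) ?_ b
  intro x y hx hy
  have e : inB k (x + y) = inB k x + inB k y := by
    apply ABG_ext
    · exact (add_zero (0 : Sl k ⊗[k] Alt k)).symm
    · rfl
  rw [e]
  exact Submodule.add_mem _ hx hy

/-- basis vectors of total degree at least two lie in the derived algebra -/
theorem bL_mem (i : Idx k) (h : 2 ≤ dgI k i 0 + dgI k i 1 + dgI k i 2) : bL k i ∈ CC k := by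
  rcases i with ⟨s, a⟩ | a
  · rw [bL_inl]
    have h1 := altPiece_prod k a.1 h _ (bA_mem k a)
    have : ∀ x ∈ Submodule.span k {z | ∃ a b : Alt k, z = a * b},
        inT k (bSl k s) x ∈ CC k := by
      intro x hx
      refine Submodule.span_induction (p := fun x _ => inT k (bSl k s) x ∈ CC k) ?_ ?_ ?_ ?_ hx
      · rintro _ ⟨p, q, rfl⟩
        exact inT_prod k _ p q
      · have : inT k (bSl k s) 0 = 0 := by
          apply ABG_ext
          · exact tmul_zero _ _
          · rfl
        rw [this]; exact Submodule.zero_mem _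
      · intro x y _ _ hx hy
        have : inT k (bSl k s) (x + y) = inT k (bSl k s) x + inT k (bSl k s) y := by
          apply ABG_ext
          · exact tmul_add _ _ _
          · exact (add_zero (0 : BB k (Alt k))).symm
        rw [this]; exact Submodule.add_mem _ hx hy
      · intro c x _ hx
        have : inT k (bSl k s) (c • x) = c • inT k (bSl k s) x := by
          apply ABG_ext
          · exact tmul_smul _ _ _
          · exact (smul_zero (A := BB k (Alt k)) c).symm
        rw [this]; exact Submodule.smul_mem _ _ hx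
    exact this _ h1
  · rw [bL_inr]
    exact inB_mem k _

/-- elements of the derived algebra are boundaries -/
theorem ι_mem_bd (v : LL k) (hv : v ∈ CC k) : ∃ y : EE k, bd k (LL k) y = ι k v := by
  refine Submodule.span_induction (p := fun v _ => ∃ y : EE k, bd k (LL k) y = ι k v)
    ?_ ?_ ?_ ?_ hv
  · rintro _ ⟨a, b, rfl⟩
    refine ⟨ι k a * ι k b, ?_⟩
    have h1 : ∀ x : LL k, ι k x = ι k x * algebraMap k (EE k) 1 := by
      intro x; rw [map_one, mul_one]
    rw [h1 b, bd_ι_mul, bd_ι_mul, th_ι_mul, th_algebraMap, bd_algebraMap, adm_apply, mul_zero,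
      th_algebraMap, sub_zero, mul_zero, add_zero, sub_zero, map_one, mul_one]
  · exact ⟨0, by rw [map_zero, map_zero]⟩
  · rintro x y _ _ ⟨u, hu⟩ ⟨v, hv⟩
    exact ⟨u + v, by rw [map_add, map_add, hu, hv]⟩
  · rintro c x _ ⟨u, hu⟩
    exact ⟨c • u, by rw [map_smul, map_smul, hu]⟩

end

end Run7.h547.SG
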