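import Pool.Agent.Run7.h547.SG.Exact

/-! Exactness and the vanishing of the multiplicities. -/

set_option autoImplicit false

namespace Run7.h547.SG

open TensorProduct Run7.h187.Sh ExteriorAlgebra

section

variable (k : Type*) [Field k] [CharZero k]

/-- the total degree -/
def tot (m : Deg) : ℕ := m 0 + m 1 + m 2

theorem card_le {m : Deg} {S : Finset (Ix k)} (h : dX k S = m) : S.card ≤ tot m := by
  subst h
  have e : tot (dX k S) = ∑ i ∈ S, tot (dgI k i) := by
    simp only [tot, dX, Finsupp.finsetSum_apply, Finset.sum_add_distrib]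
  rw [e, Finset.card_eq_sum_ones]
  refine Finset.sum_le_sum fun i _ => ?_
  by_contra hc
  apply dgI_ne k i
  have h0 : tot (dgI k i) = 0 := by omega
  rw [tot] at h0
  ext j
  fin_cases j
  · change dgI k i 0 = 0; omega
  · change dgI k i 1 = 0; omega
  · change dgI k i 2 = 0; omega

theorem bX_one {S : Finset (Ix k)} (h : S.card = 1) :
    ∃ j : Ix k, dX k S = dgI k j ∧ (bI k).ExteriorAlgebra S = ι k (bI k j) := by
  have hl : (List.ofFn (S.orderEmbOfFin rfl)).length = 1 := by rw [List.length_ofFn, h]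
  obtain ⟨j, hj⟩ := List.length_eq_one_iff.1 hl
  refine ⟨j, ?_, ?_⟩
  · rw [dX, ← sum_ofFn_map S (dgI k), hj]
    simp
  · rw [bE_eq, hj]
    simp

theorem exact_deg (m : Deg) (hm : 2 ≤ tot m)
    (hH : ∀ n, 2 ≤ n → n ≤ tot m → ¬ (HasTrivial k n ∨ HasAdjoint k n))
    (w : ℤ × ℤ) (hw : w = (0, 0) ∨ w = (1, 1)) (n : ℕ) (x : UU k m)
    (hn : x.1 ∈ (⋀[k]^n (LL k)))
    (h1 : rU k m (cw1 k) x = (w.1 : k) • x) (h2 : rU k m (cw2 k) x = (w.2 : k) • x)
    (h3 : rU k m (el k 0 1 (by decide)) x = 0) (h4 : rU k m (el k 1 2 (by decide)) x = 0)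
    (hd : bd k (LL k) x.1 = 0) : ∃ y : EE k, bd k (LL k) y = x.1 := by
  by_cases hx : x.1 = 0
  · exact ⟨0, by rw [hx, map_zero]⟩
  have hs1 := (mem_pow_iff k n x.1).1 hn
  have hs2 := (mem_UU k).1 x.2
  obtain ⟨S, hS⟩ : ∃ S, (bI k).ExteriorAlgebra.repr x.1 S ≠ 0 := by
    by_contra hc
    push Not at hc
    apply hx
    have : (bI k).ExteriorAlgebra.repr x.1 = 0 := Finsupp.ext hc
    rw [LinearEquiv.map_eq_zero_iff] at this
    exact this
  have hcard : S.card = n := hs1 S hS
  have hdeg : dX k S = m := hs2 S hS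
  have hnm : n ≤ tot m := hcard ▸ card_le k hdeg
  have hn0 : n ≠ 0 := by
    rintro rfl
    rw [Finset.card_eq_zero] at hcard
    subst hcard
    rw [dX, Finset.sum_empty] at hdeg
    rw [← hdeg, tot] at hm
    simp at hm
  by_cases hn1 : n = 1
  · subst hn1
    have hs : Sup (bI k) (fun S => S.card = 1 ∧ dX k S = m) x.1 := fun S hS =>
      ⟨hs1 S hS, hs2 S hS⟩
    rw [Sup_iff_mem] at hs
    have hle : Submodule.span k (Set.range (fun S : {S : Finset (Ix k) // S.card = 1 ∧ dX k S = m} =>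
        (bI k).ExteriorAlgebra S.1)) ≤ LinearMap.range (bd k (LL k)) := by
      rw [Submodule.span_le]
      rintro _ ⟨⟨S, hS1, hS2⟩, rfl⟩
      obtain ⟨j, hj1, hj2⟩ := bX_one k hS1
      have hj : dgI k j = m := hj1.symm.trans hS2
      have hb : bL k j ∈ CC k := bL_mem k j (by rw [hj]; exact hm)
      obtain ⟨y, hy⟩ := ι_mem_bd k _ hb
      exact ⟨y, hy.trans hj2.symm⟩
    exact hle hs
  have hn2 : 2 ≤ n := by omega
  have hnot := hH n hn2 hnm
  push Not at hnot
  have hcyc : x.1 ∈ cyc k (LL k) n := ⟨hn, hd⟩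
  have hcl : (Submodule.Quotient.mk (⟨x.1, hcyc⟩ : cyc k (LL k) n) : Hn k (LL k) n) = 0 →
      ∃ y : EE k, bd k (LL k) y = x.1 := by
    intro h0
    rw [Submodule.Quotient.mk_eq_zero] at h0
    obtain ⟨y, _, hy⟩ := h0
    exact ⟨y, hy⟩
  obtain ⟨hA, hB⟩ := HWA.p_HWA k (UU k m) (rU k m) (rU_rep k m) x h3 h4
  rcases hw with rfl | rfl
  · -- trivial
    by_contra hcon
    apply hnot.1
    refine ⟨Submodule.Quotient.mk (⟨x.1, hcyc⟩ : cyc k (LL k) n), fun h0 => hcon (hcl h0), ?_⟩
    intro X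
    have hX := hA (by rw [h1]; simp) (by rw [h2]; simp) X
    have hX' : th (slD k (Alt k) X) x.1 = 0 := by
      rw [← rU_val, hX]; rfl
    rw [act, hMap_mk]
    have : cycMap (slD k (Alt k) X) (slD_deriv X) n (⟨x.1, hcyc⟩ : cyc k (LL k) n) = 0 :=
      Subtype.ext hX'
    rw [this]
    rfl
  · -- adjoint
    obtain ⟨φ, hφ1, hφ2⟩ := hB (by rw [h1]; simp) (by rw [h2]; simp)
    -- the image consists of cycles of degree `n`
    have hK : ∀ Y : Sl k, (φ Y).1 ∈ cyc k (LL k) n := by
      let K : Submodule k (Sl k) :=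
        { carrier := {Y | (φ Y).1 ∈ cyc k (LL k) n}
          add_mem' := by
            intro a b ha hb
            change (φ (a + b)).1 ∈ cyc k (LL k) n
            rw [map_add]
            exact Submodule.add_mem _ ha hb
          zero_mem' := by
            change (φ 0).1 ∈ cyc k (LL k) n
            rw [map_zero]
            exact Submodule.zero_mem _
          smul_mem' := by
            intro c a ha
            change (φ (c • a)).1 ∈ cyc k (LL k) n
            rw [map_smul]
            exact Submodule.smul_mem _ _ ha }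
      refine ideal_top k K ?_ ?_
      · intro X Y hY
        change (φ ⁅X, Y⁆).1 ∈ cyc k (LL k) n
        rw [hφ2, rU_val]
        exact (cycMap (slD k (Alt k) X) (slD_deriv X) n ⟨(φ Y).1, hY⟩).2
      · change (φ (el k 0 2 (by decide))).1 ∈ cyc k (LL k) n
        rw [hφ1]
        exact hcyc
    let ψ : Sl k →ₗ[k] Hn k (LL k) n :=
      { toFun := fun Y => Submodule.Quotient.mk (⟨(φ Y).1, hK Y⟩ : cyc k (LL k) n)
        map_add' := fun Y Z => by
          rw [← Submodule.Quotient.mk_add]
          congr 1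
          apply Subtype.ext
          change (φ (Y + Z)).1 = (φ Y).1 + (φ Z).1
          rw [map_add]
          rfl
        map_smul' := fun c Y => by
          rw [RingHom.id_apply, ← Submodule.Quotient.mk_smul]
          congr 1
          apply Subtype.ext
          change (φ (c • Y)).1 = c • (φ Y).1
          rw [map_smul]
          rfl }
    have hψ : ∀ X Y : Sl k, ψ ⁅X, Y⁆ = act k n X (ψ Y) := by
      intro X Y
      change (Submodule.Quotient.mk (⟨(φ ⁅X, Y⁆).1, hK _⟩ : cyc k (LL k) n) : Hn k (LL k) n) =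
        act k n X (Submodule.Quotient.mk (⟨(φ Y).1, hK Y⟩ : cyc k (LL k) n))
      rw [act, hMap_mk]
      congr 1
      apply Subtype.ext
      change (φ ⁅X, Y⁆).1 = th (slD k (Alt k) X) (φ Y).1
      rw [hφ2, rU_val]
    by_cases hker : LinearMap.ker ψ = ⊥
    · exact absurd ⟨ψ, LinearMap.ker_eq_bot.1 hker, hψ⟩ hnot.2
    · have hmem := SIM.p_SIM k (LinearMap.ker ψ) (by
        intro X Y hY
        rw [LinearMap.mem_ker] at hY ⊢
        rw [hψ, hY, map_zero]) hker
      rw [LinearMap.mem_ker] at hmem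
      apply hcl
      have e : ψ (el k 0 2 (by decide)) =
          Submodule.Quotient.mk (⟨x.1, hcyc⟩ : cyc k (LL k) n) := by
        change (Submodule.Quotient.mk (⟨(φ (el k 0 2 (by decide))).1, hK _⟩ : cyc k (LL k) n) :
          Hn k (LL k) n) = _
        congr 1
        apply Subtype.ext
        change (φ (el k 0 2 (by decide))).1 = x.1
        rw [hφ1]
      rw [← e, hmem]

end

end Run7.h547.SG
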