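import Pool.Agent.Run7.h547.SG.ABG4

/-! A basis of weight vectors of `sl₃`. -/

set_option autoImplicit false

namespace Run7.h547.SG

open Matrix

variable (k : Type*) [Field k]

/-- coordinates on `sl₃` -/
noncomputable def slEquiv : Sl k ≃ₗ[k] (Fin 8 → k) where
  toFun X := ![X.1 0 1, X.1 1 2, X.1 0 2, X.1 1 0, X.1 2 1, X.1 2 0, X.1 0 0, X.1 1 1]
  map_add' X Y := by ext i; fin_cases i <;> rfl
  map_smul' c X := by ext i; fin_cases i <;> rfl
  invFun v := ⟨!![v 6, v 0, v 2; v 3, v 7, v 1; v 5, v 4, -v 6 - v 7], by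
    change trace (!![v 6, v 0, v 2; v 3, v 7, v 1; v 5, v 4, -v 6 - v 7] :
      Matrix (Fin 3) (Fin 3) k) = 0
    rw [trace_fin_three]
    simp⟩
  left_inv X := by
    apply Subtype.ext
    have h : trace X.1 = 0 := X.2
    rw [trace_fin_three] at h
    ext i j
    fin_cases i <;> fin_cases j <;> simp
    linear_combination -h
  right_inv v := by
    ext i
    fin_cases i <;> rfl

/-- the basis `E₀₁, E₁₂, E₀₂, E₁₀, E₂₁, E₂₀, E₀₀ - E₂₂, E₁₁ - E₂₂` of `sl₃` -/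
noncomputable def bSl : Module.Basis (Fin 8) k (Sl k) := Module.Basis.ofEquivFun (slEquiv k)

/-- the weights of the basis `bSl` -/
def wS : Fin 8 → ℤ × ℤ := ![(1, 0), (0, 1), (1, 1), (-1, 0), (0, -1), (-1, -1), (0, 0), (0, 0)]

theorem bSl_val (i : Fin 8) : ((bSl k i : Sl k) : Matrix (Fin 3) (Fin 3) k) =
    !![(Pi.single i 1 : Fin 8 → k) 6, (Pi.single i 1 : Fin 8 → k) 0, (Pi.single i 1 : Fin 8 → k) 2;
      (Pi.single i 1 : Fin 8 → k) 3, (Pi.single i 1 : Fin 8 → k) 7, (Pi.single i 1 : Fin 8 → k) 1;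
      (Pi.single i 1 : Fin 8 → k) 5, (Pi.single i 1 : Fin 8 → k) 4,
      -(Pi.single i 1 : Fin 8 → k) 6 - (Pi.single i 1 : Fin 8 → k) 7] := by
  rw [bSl, Module.Basis.coe_ofEquivFun]
  rfl

variable [CharZero k]

theorem cw1_val : ((cw1 k : Sl k) : Matrix (Fin 3) (Fin 3) k) =
    !![2 / 3, 0, 0; 0, -1 / 3, 0; 0, 0, -1 / 3] := by
  ext i j
  fin_cases i <;> fin_cases j <;>
    simp [cw1, LieAlgebra.SpecialLinear.val_singleSubSingle, Matrix.single] <;> norm_num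

theorem cw2_val : ((cw2 k : Sl k) : Matrix (Fin 3) (Fin 3) k) =
    !![1 / 3, 0, 0; 0, 1 / 3, 0; 0, 0, -2 / 3] := by
  ext i j
  fin_cases i <;> fin_cases j <;>
    simp [cw2, LieAlgebra.SpecialLinear.val_singleSubSingle, Matrix.single] <;> norm_num

theorem lie_cw1 (i : Fin 8) : lieS k (cw1 k) (bSl k i) = ((wS i).1 : k) • bSl k i := by
  apply Subtype.ext
  change (cw1 k).1 * (bSl k i).1 - (bSl k i).1 * (cw1 k).1 = ((wS i).1 : k) • (bSl k i).1
  rw [cw1_val, bSl_val]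
  fin_cases i <;> (ext a b; fin_cases a <;> fin_cases b <;>
    simp [Matrix.mul_apply, Fin.sum_univ_three, Pi.single_apply, wS] <;> norm_num)

theorem lie_cw2 (i : Fin 8) : lieS k (cw2 k) (bSl k i) = ((wS i).2 : k) • bSl k i := by
  apply Subtype.ext
  change (cw2 k).1 * (bSl k i).1 - (bSl k i).1 * (cw2 k).1 = ((wS i).2 : k) • (bSl k i).1
  rw [cw2_val, bSl_val]
  fin_cases i <;> (ext a b; fin_cases a <;> fin_cases b <;>
    simp [Matrix.mul_apply, Fin.sum_univ_three, Pi.single_apply, wS] <;> norm_num)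

end Run7.h547.SG
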